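import Pool.Agent.H831R3.LC.Main

/-!
# Rational approximation from a recurrence of a changed sequence of digits
-/

set_option autoImplicit false

namespace Pool.Agent.Q50.SP

open Finset Polynomial
open Pool.Agent.H831R3.LC (W dig dig_abs dig_eq W_eq W_mul W_sub A)

/-- the partial sums of the changed expansion, as integers -/
noncomputable def A' (x : ℝ) (b : ℕ) (s : ℕ → ℤ) (i : ℕ) : ℤ :=
  A x b i + ∑ l ∈ range i, (s l - dig x b (l + 1)) * (b : ℤ) ^ (i - 1 - l)

lemma A'_step (x : ℝ) (b : ℕ) (hb : 1 ≤ b) (s : ℕ → ℤ) (i : ℕ) :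
    A' x b s (i + 1) - b * A' x b s i = s i := by
  unfold A'
  rw [Finset.sum_range_succ, mul_add, Finset.mul_sum]
  have h1 := dig_eq x b hb i
  have h2 : ∑ l ∈ range i, (s l - dig x b (l + 1)) * (b : ℤ) ^ (i + 1 - 1 - l) =
      ∑ l ∈ range i, (b : ℤ) * ((s l - dig x b (l + 1)) * (b : ℤ) ^ (i - 1 - l)) := by
    refine Finset.sum_congr rfl fun l hl => ?_
    rw [mem_range] at hl
    rw [show i + 1 - 1 - l = (i - 1 - l) + 1 by omega, pow_succ]
    ring
  rw [h2, show i + 1 - 1 - i = 0 by omega]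
  linarith

/-- the changed number -/
noncomputable def x' (x : ℝ) (b : ℕ) (s : ℕ → ℤ) (E : Finset ℕ) : ℝ :=
  x + ∑ l ∈ E, ((s l - dig x b (l + 1) : ℤ) : ℝ) * ((b : ℝ) ^ (l + 1))⁻¹

lemma close (x : ℝ) (b : ℕ) (hb : 2 ≤ b) (s : ℕ → ℤ) (hs : ∀ i, |s i| ≤ b) (E : Finset ℕ)
    (hE : ∀ i, i ∉ E → s i = dig x b (i + 1)) (i : ℕ) :
    |x' x b s E * (b : ℝ) ^ i - A' x b s i| ≤ 1 + 2 * E.card := by
  have hb0 : (0 : ℝ) < b := by positivity
  have h1 : x' x b s E * (b : ℝ) ^ i - A' x b s i = Int.fract (x * (b : ℝ) ^ i) +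
      ∑ l ∈ E.filter (fun l => ¬ l < i), ((s l - dig x b (l + 1) : ℤ) : ℝ) *
        ((b : ℝ) ^ (l + 1 - i))⁻¹ := by
    have h2 : ∑ l ∈ range i, (s l - dig x b (l + 1)) * (b : ℤ) ^ (i - 1 - l) =
        ∑ l ∈ E.filter (· < i), (s l - dig x b (l + 1)) * (b : ℤ) ^ (i - 1 - l) := by
      symm
      apply Finset.sum_subset
      · intro l hl
        rw [mem_filter] at hl
        exact mem_range.2 hl.2
      · intro l hl hl2
        rw [mem_range] at hl
        have : l ∉ E := fun h => hl2 (mem_filter.2 ⟨h, hl⟩)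
        rw [hE l this]
        ring
    unfold x' A'
    rw [h2, ← Finset.sum_filter_add_sum_filter_not E (· < i), Int.cast_add, Int.cast_sum]
    have h3 : (∑ l ∈ E.filter (· < i), ((s l - dig x b (l + 1) : ℤ) : ℝ) *
        ((b : ℝ) ^ (l + 1))⁻¹) * (b : ℝ) ^ i =
        ∑ l ∈ E.filter (· < i), (((s l - dig x b (l + 1)) * (b : ℤ) ^ (i - 1 - l) : ℤ) : ℝ) := by
      rw [Finset.sum_mul]
      refine Finset.sum_congr rfl fun l hl => ?_
      have hl' := (mem_filter.1 hl).2
      have e : (b : ℝ) ^ i = (b : ℝ) ^ (l + 1) * (b : ℝ) ^ (i - 1 - l) := by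
        rw [← pow_add]
        congr 1
        omega
      rw [e]
      push_cast
      field_simp
    have h4 : (∑ l ∈ E.filter (fun l => ¬ l < i), ((s l - dig x b (l + 1) : ℤ) : ℝ) *
        ((b : ℝ) ^ (l + 1))⁻¹) * (b : ℝ) ^ i =
        ∑ l ∈ E.filter (fun l => ¬ l < i), ((s l - dig x b (l + 1) : ℤ) : ℝ) *
        ((b : ℝ) ^ (l + 1 - i))⁻¹ := by
      rw [Finset.sum_mul]
      refine Finset.sum_congr rfl fun l hl => ?_
      have hl' := (mem_filter.1 hl).2
      have e : (b : ℝ) ^ (l + 1) = (b : ℝ) ^ (l + 1 - i) * (b : ℝ) ^ i := by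
        rw [← pow_add]
        congr 1
        omega
      rw [e]
      field_simp
    rw [add_mul, add_mul, h3, h4]
    unfold A Int.fract
    ring
  rw [h1]
  refine (abs_add_le _ _).trans ?_
  apply add_le_add
  · rw [abs_of_nonneg (Int.fract_nonneg _)]
    exact (Int.fract_lt_one _).le
  · refine (Finset.abs_sum_le_sum_abs _ _).trans ?_
    calc ∑ l ∈ E.filter (fun l => ¬ l < i), |((s l - dig x b (l + 1) : ℤ) : ℝ) *
        ((b : ℝ) ^ (l + 1 - i))⁻¹| ≤ ∑ l ∈ E.filter (fun l => ¬ l < i), (2 : ℝ) := by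
          refine Finset.sum_le_sum fun l hl => ?_
          have hl' := (mem_filter.1 hl).2
          rw [abs_mul, abs_of_pos (a := ((b : ℝ) ^ (l + 1 - i))⁻¹) (by positivity)]
          have h5 : |((s l - dig x b (l + 1) : ℤ) : ℝ)| ≤ 2 * b := by
            have h6 : |s l - dig x b (l + 1)| ≤ 2 * b := by
              have := abs_sub (s l) (dig x b (l + 1))
              have h7 := hs l
              have h8 := dig_abs x b (by omega) (l + 1)
              linarith
            exact_mod_cast h6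
          have h6 : (b : ℝ) ≤ (b : ℝ) ^ (l + 1 - i) := by
            calc (b : ℝ) = (b : ℝ) ^ 1 := (pow_one _).symm
              _ ≤ _ := pow_le_pow_right₀ (by exact_mod_cast (by omega : 1 ≤ b)) (by omega)
          have h7 : (0 : ℝ) < (b : ℝ) ^ (l + 1 - i) := by positivity
          rw [← div_eq_mul_inv, div_le_iff₀ h7]
          linarith
      _ = 2 * ((E.filter (fun l => ¬ l < i)).card : ℝ) := by
          rw [Finset.sum_const, nsmul_eq_mul]; ring
      _ ≤ 2 * E.card := by
          have : (E.filter (fun l => ¬ l < i)).card ≤ E.card := Finset.card_filter_le _ _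
          have : ((E.filter (fun l => ¬ l < i)).card : ℝ) ≤ E.card := by exact_mod_cast this
          linarith

/-- **Rational approximation from a recurrence.** -/
theorem approx' (x : ℝ) (b H r : ℕ) (hb : 2 ≤ b) (s : ℕ → ℤ) (hs : ∀ i, |s i| ≤ b)
    (E : Finset ℕ) (hE : ∀ i, i ∉ E → s i = dig x b (i + 1)) (t : ℤ[X])
    (ht : ∀ j, |t.coeff j| ≤ H) (hr : ∀ i < r, W t s i = 0) :
    ∃ p : ℤ, |((t.eval (b : ℤ) : ℤ) : ℝ) * x' x b s E - p| * (b : ℝ) ^ r ≤
      (t.natDegree + 1) * H * (1 + 2 * E.card) := by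
  set G := W t (A' x b s) with hG
  have hd : s = W (X - C (b : ℤ)) (A' x b s) := by
    funext i
    rw [W_sub, A'_step x b (by omega)]
  have hstep : ∀ i < r, G (i + 1) = b * G i := by
    intro i hi
    have h1 := hr i hi
    rw [hd, ← W_mul, mul_comm, W_mul, W_sub] at h1
    linarith
  have hpow : ∀ i ≤ r, G i = (b : ℤ) ^ i * G 0 := by
    intro i
    induction i with
    | zero => intro _; simp
    | succ i ihi =>
      intro hi
      rw [hstep i (by omega), ihi (by omega)]
      ring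
  refine ⟨G 0, ?_⟩
  have hclose : ∀ i, |((t.eval (b : ℤ) : ℤ) : ℝ) * x' x b s E * (b : ℝ) ^ i - G i|
      ≤ (t.natDegree + 1) * H * (1 + 2 * E.card) := by
    intro i
    have e1 : ((t.eval (b : ℤ) : ℤ) : ℝ) * x' x b s E * (b : ℝ) ^ i - G i =
        ∑ j ∈ range (t.natDegree + 1), (t.coeff j : ℝ) *
          (x' x b s E * (b : ℝ) ^ (i + j) - A' x b s (i + j)) := by
      rw [hG, W_eq t _ i _ (Nat.lt_succ_self _), eval_eq_sum_range]
      push_cast
      rw [Finset.sum_mul, Finset.sum_mul, ← Finset.sum_sub_distrib]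
      refine Finset.sum_congr rfl fun j _ => ?_
      rw [pow_add]
      ring
    rw [e1]
    calc _ ≤ ∑ j ∈ range (t.natDegree + 1),
          |(t.coeff j : ℝ) * (x' x b s E * (b : ℝ) ^ (i + j) - A' x b s (i + j))| :=
          Finset.abs_sum_le_sum_abs _ _
      _ ≤ ∑ _j ∈ range (t.natDegree + 1), (H : ℝ) * (1 + 2 * E.card) := by
          refine Finset.sum_le_sum fun j _ => ?_
          rw [abs_mul]
          have h1 : |(t.coeff j : ℝ)| ≤ H := by exact_mod_cast ht j
          exact mul_le_mul h1 (close x b hb s hs E hE _) (abs_nonneg _) (Nat.cast_nonneg _)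
      _ = _ := by rw [Finset.sum_const, card_range, nsmul_eq_mul]; push_cast; ring
  have h1 := hclose r
  rw [hpow r le_rfl] at h1
  push_cast at h1
  have e2 : ((t.eval (b : ℤ) : ℤ) : ℝ) * x' x b s E * (b : ℝ) ^ r - (b : ℝ) ^ r * (G 0 : ℝ)
      = (((t.eval (b : ℤ) : ℤ) : ℝ) * x' x b s E - (G 0 : ℝ)) * (b : ℝ) ^ r := by ring
  rw [e2, abs_mul, abs_of_nonneg (by positivity : (0 : ℝ) ≤ (b : ℝ) ^ r)] at h1
  exact h1

/-- enumeration of a set with at most `k` elements -/
lemma enum (k : ℕ) : ∀ E : Finset ℕ, E.card ≤ k → ∃ (n : Fin k → ℕ) (u : Fin k → ℤ),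
    (∀ i, |u i| ≤ 1) ∧ (∀ i, n i ∈ E ∨ n i = 0) ∧
    ∀ g : ℕ → ℝ, ∑ i, (u i : ℝ) * g (n i) = ∑ l ∈ E, g l := by
  induction k with
  | zero =>
    intro E hE
    have : E = ∅ := card_eq_zero.1 (by omega)
    subst this
    exact ⟨fun _ => 0, fun _ => 0, fun _ => by simp, fun _ => Or.inr rfl, fun g => by simp⟩
  | succ k ih =>
    intro E hE
    rcases E.eq_empty_or_nonempty with rfl | ⟨l, hl⟩
    · exact ⟨fun _ => 0, fun _ => 0, fun _ => by simp, fun _ => Or.inr rfl, fun g => by simp⟩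
    · obtain ⟨n, u, h1, h2, h3⟩ := ih (E.erase l) (by
        rw [card_erase_of_mem hl]
        omega)
      refine ⟨Fin.cons l n, Fin.cons 1 u, ?_, ?_, ?_⟩
      · intro i
        refine Fin.cases ?_ (fun i => ?_) i
        · simp
        · simpa using h1 i
      · intro i
        refine Fin.cases ?_ (fun i => ?_) i
        · left; simpa using hl
        · rcases h2 i with h | h
          · left
            simpa using mem_of_mem_erase h
          · right
            simpa using h
      · intro g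
        rw [Fin.sum_univ_succ]
        simp only [Fin.cons_zero, Fin.cons_succ]
        rw [h3 g, ← Finset.add_sum_erase E g hl]
        push_cast
        ring

end Pool.Agent.Q50.SP
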