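import Pool.Agent.Q4.SubApp

/-!
# The subspace theorem over an arbitrary finite index set, and limits along the ultrafilter
-/

set_option autoImplicit false

namespace Pool.Agent.Q50.SP

open Filter Topology Pool.Agent.TH932.Abs Pool.Agent.TH932.Germs
open Pool.Agent.TH796.AL

/-- the base with one integer -/
def one (b : ℕ) (hb : 2 ≤ b) : Base 1 :=
  ⟨fun _ => b, fun _ => hb, fun i j h => absurd (Subsingleton.elim i j) h⟩

/-- bounded sequences have a limit along the ultrafilter -/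
lemma ulim (f : ℕ → ℝ) (a c : ℝ) (h : ∀ᶠ t in (UU : Filter ℕ), f t ∈ Set.Icc a c) :
    ∃ x ∈ Set.Icc a c, Tendsto f (UU : Filter ℕ) (𝓝 x) := by
  obtain ⟨x, hx, hle⟩ := (isCompact_Icc (a := a) (b := c)).ultrafilter_le_nhds (UU.map f)
    (le_principal_iff.2 h)
  exact ⟨x, hx, hle⟩

lemma near {f : ℕ → ℝ} {x : ℝ} (h : Tendsto f (UU : Filter ℕ) (𝓝 x)) (ε : ℝ) (hε : 0 < ε) :
    ∀ᶠ t in (UU : Filter ℕ), x - ε ≤ f t ∧ f t ≤ x + ε := by
  have := h.eventually (Icc_mem_nhds (by linarith : x - ε < x) (by linarith : x < x + ε))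
  filter_upwards [this] with t ht
  exact ⟨ht.1, ht.2⟩

/-- **The subspace theorem** for one integer `b`, over a finite index set. -/
theorem sub_fin {ι : Type} [Fintype ι] [DecidableEq ι] (b : ℕ) (hb : 2 ≤ b) (L : ℕ → ℝ)
    (hL : Tendsto L atTop atTop)
    (F : IntermediateField ℚ ℝ) [hFd : FiniteDimensional ℚ F] (X : ι → ℕ → ℤ)
    (c : ι → ι → ℝ) (hcF : ∀ i j, c i j ∈ F)
    (hc : ∀ a : ι → ℝ, (∀ j, ∑ i, a i * c i j = 0) → ∀ i, a i = 0)
    (w : ι → ℝ) (wI : ι → ℝ)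
    (hw : ∀ i, ∀ ε : ℝ, 0 < ε → ∀ᶠ t in (UU : Filter ℕ), ∃ k : ℕ,
      (b : ℤ) ^ k ∣ X i t ∧ (w i - ε) * L t ≤ k * Real.log b)
    (hwI : ∀ i, ∀ ε : ℝ, 0 < ε → ∀ᶠ t in (UU : Filter ℕ),
      |∑ j, c i j * X j t| ≤ Real.exp (-(wI i - ε) * L t))
    (hpos : 0 < ∑ i, w i + ∑ i, wI i) :
    ∃ a : ι → ℤ, a ≠ 0 ∧ ∀ᶠ t in (UU : Filter ℕ), ∑ i, a i * X i t = 0 := by
  classical
  obtain ⟨n, ⟨e⟩⟩ : ∃ n : ℕ, Nonempty (ι ≃ Fin n) := ⟨Fintype.card ι, ⟨Fintype.equivFin ι⟩⟩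
  obtain ⟨a, ha0, ha⟩ := Pool.Agent.Q4.SubApp.sub_app (one b hb) L hL F n
    (fun i => X (e.symm i)) (fun i j => c (e.symm i) (e.symm j)) (fun i j => hcF _ _)
    (fun a h i => by
      have h1 := hc (fun i => a (e i)) (fun j => by
        have h2 := h (e j)
        rw [← Equiv.sum_comp e] at h2
        simpa using h2) (e.symm i)
      simpa using h1)
    (fun _ i => w (e.symm i)) (fun i => wI (e.symm i))
    (fun v i ε hε => hw (e.symm i) ε hε)
    (fun i ε hε => by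
      filter_upwards [hwI (e.symm i) ε hε] with t ht
      rw [← Equiv.sum_comp e.symm] at ht
      exact ht)
    (by
      have h1 : ∑ v : Fin 1, ∑ i : Fin n, w (e.symm i) = ∑ i, w i := by
        rw [Fin.sum_univ_one, Equiv.sum_comp e.symm w]
      have h2 : ∑ i : Fin n, wI (e.symm i) = ∑ i, wI i := Equiv.sum_comp e.symm wI
      rw [h1, h2]
      exact hpos)
  refine ⟨fun i => a (e i), fun h => ha0 ?_, ?_⟩
  · funext i
    have := congrFun h (e.symm i)
    simpa using this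
  · filter_upwards [ha] with t ht
    rw [← Equiv.sum_comp e] at ht
    simpa using ht

end Pool.Agent.Q50.SP
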