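import Pool.Agent.Q50.SP.Mult
import Pool.Agent.Q50.SP.Approx

/-!
# Digit changes in several bases
-/

set_option autoImplicit false

namespace Pool.Agent.Q50.SP

open Finset Pool.Agent.TH796.AL
open Pool.Agent.H831R3.LC (dig dig_abs dig_eq A)

/-- the places `1 ≤ i < n` at which the digit changes -/
noncomputable def chs (b : ℕ) (x : ℝ) (n : ℕ) : Finset ℕ :=
  (Ico 1 n).filter fun i => dig x b i ≠ dig x b (i + 1)

/-- a number and its digit changes -/
lemma changes_repr (b : ℕ) (hb : 2 ≤ b) (x : ℝ) (n : ℕ) (hn : 1 ≤ n) :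
    |((b : ℝ) - 1) * x - (((b - 1) * ⌊x⌋ + dig x b 1 : ℤ) : ℝ) -
      ∑ i ∈ chs b x n, ((dig x b (i + 1) - dig x b i : ℤ) : ℝ) * ((b : ℝ) ^ i)⁻¹| ≤
      b * ((b : ℝ) ^ n)⁻¹ := by
  have hbR : (2 : ℝ) ≤ b := by exact_mod_cast hb
  have hb0 : (0 : ℝ) < b := by linarith
  have h1 : ∑ i ∈ chs b x n, ((dig x b (i + 1) - dig x b i : ℤ) : ℝ) * ((b : ℝ) ^ i)⁻¹ =
      ∑ i ∈ Ico 1 n, ((dig x b (i + 1) - dig x b i : ℤ) : ℝ) * ((b : ℝ) ^ i)⁻¹ := by
    unfold chs
    rw [Finset.sum_filter]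
    refine Finset.sum_congr rfl fun i _ => ?_
    split_ifs with h
    · rfl
    · push Not at h
      rw [h]
      simp
  have h2 : ∀ n : ℕ, 1 ≤ n → ((b : ℝ) - 1) * (A x b n : ℝ) * ((b : ℝ) ^ n)⁻¹ =
      (((b - 1) * ⌊x⌋ + dig x b 1 : ℤ) : ℝ) +
      ∑ i ∈ Ico 1 n, ((dig x b (i + 1) - dig x b i : ℤ) : ℝ) * ((b : ℝ) ^ i)⁻¹ -
      (dig x b n : ℝ) * ((b : ℝ) ^ n)⁻¹ := by
    intro n hn
    induction n, hn using Nat.le_induction with
    | base =>
      have h3 := dig_eq x b (by omega) 0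
      have h4 : A x b 0 = ⌊x⌋ := by unfold A; simp
      rw [h4] at h3
      have h5 : (A x b (0 + 1) : ℝ) = b * ⌊x⌋ + dig x b (0 + 1) := by
        rw [h3]; push_cast; ring
      rw [zero_add] at h5
      rw [h5]
      simp only [Ico_self, sum_empty, add_zero, pow_one]
      push_cast
      field_simp
      ring
    | succ n hn ih =>
      have h3 := dig_eq x b (by omega) n
      have h5 : (A x b (n + 1) : ℝ) = b * A x b n + dig x b (n + 1) := by
        rw [h3]; push_cast; ring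
      rw [Finset.sum_Ico_succ_top hn, h5]
      have h6 : ((b : ℝ) - 1) * (b * A x b n + dig x b (n + 1)) * ((b : ℝ) ^ (n + 1))⁻¹ =
          ((b : ℝ) - 1) * (A x b n : ℝ) * ((b : ℝ) ^ n)⁻¹ +
          ((b : ℝ) - 1) * dig x b (n + 1) * ((b : ℝ) ^ (n + 1))⁻¹ := by
        rw [pow_succ]
        field_simp
      rw [h6, ih]
      push_cast
      rw [pow_succ]
      field_simp
      ring
  have h7 := h2 n hn
  rw [h1]
  have h8 : ((b : ℝ) - 1) * x = ((b : ℝ) - 1) * (A x b n : ℝ) * ((b : ℝ) ^ n)⁻¹ +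
      ((b : ℝ) - 1) * Int.fract (x * (b : ℝ) ^ n) * ((b : ℝ) ^ n)⁻¹ := by
    unfold A Int.fract
    field_simp
    ring
  have h9 : ((b : ℝ) - 1) * x - (((b - 1) * ⌊x⌋ + dig x b 1 : ℤ) : ℝ) -
      ∑ i ∈ Ico 1 n, ((dig x b (i + 1) - dig x b i : ℤ) : ℝ) * ((b : ℝ) ^ i)⁻¹ =
      (((b : ℝ) - 1) * Int.fract (x * (b : ℝ) ^ n) - dig x b n) * ((b : ℝ) ^ n)⁻¹ := by
    rw [h8, h7]
    ring
  rw [h9, abs_mul, abs_of_pos (a := ((b : ℝ) ^ n)⁻¹) (by positivity)]
  apply mul_le_mul_of_nonneg_right _ (by positivity)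
  have h10 := Int.fract_nonneg (x * (b : ℝ) ^ n)
  have h11 := (Int.fract_lt_one (x * (b : ℝ) ^ n)).le
  have h12 : (0 : ℝ) ≤ dig x b n := by
    have : 0 ≤ dig x b n := Int.emod_nonneg _ (by omega)
    exact_mod_cast this
  have h13 : (dig x b n : ℝ) ≤ b := by
    have := dig_abs x b (by omega) n
    rw [abs_le] at this
    exact_mod_cast this.2
  rw [abs_le]
  constructor <;> nlinarith

/-- the primes dividing one of the bases -/
theorem base_of {r : ℕ} (β : Fin r → ℕ) (hβ : ∀ j, 2 ≤ β j) :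
    ∃ (m : ℕ) (B : Base m) (f : Fin r → Fin m → ℕ), ∀ (j : Fin r) (i : ℕ),
      (un B (fun v => i * f j v) : ℝ) = (β j : ℝ) ^ i ∧
      ∀ v, ((i * f j v : ℕ) : ℝ) * Real.log (B.P v) ≤ i * Real.log (β j) := by
  classical
  obtain ⟨S, hS⟩ : ∃ S : Finset ℕ, S = (univ : Finset (Fin r)).biUnion fun j =>
    (β j).primeFactors := ⟨_, rfl⟩
  have hSp : ∀ p ∈ S, p.Prime := by
    intro p hp
    rw [hS, mem_biUnion] at hp
    obtain ⟨j, -, hj⟩ := hp
    exact Nat.prime_of_mem_primeFactors hj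
  obtain ⟨en⟩ : Nonempty (S ≃ Fin S.card) := ⟨S.equivFin⟩
  obtain ⟨B, hB⟩ : ∃ B : Base S.card, ∀ v, B.P v = ((en.symm v : S) : ℕ) := by
    refine ⟨⟨fun v => ((en.symm v : S) : ℕ), fun v => (hSp _ (en.symm v).2).two_le, ?_⟩,
      fun v => rfl⟩
    intro v w hvw
    rw [Nat.isCoprime_iff_coprime]
    refine (Nat.coprime_primes (hSp _ (en.symm v).2) (hSp _ (en.symm w).2)).2 ?_
    intro h
    apply hvw
    exact en.symm.injective (Subtype.ext h)
  refine ⟨S.card, B, fun j v => (β j).factorization (B.P v), fun j i => ?_⟩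
  have hprod : ∏ v, (B.P v : ℕ) ^ (β j).factorization (B.P v) = β j := by
    have h1 : ∏ v, (B.P v : ℕ) ^ (β j).factorization (B.P v) =
        ∏ p ∈ S, p ^ (β j).factorization p := by
      rw [← Finset.prod_coe_sort S (fun p => p ^ (β j).factorization p),
        ← Equiv.prod_comp en.symm]
      refine Finset.prod_congr rfl fun v _ => ?_
      rw [hB v]
    rw [h1]
    have h2 : ∏ p ∈ S, p ^ (β j).factorization p =
        ∏ p ∈ (β j).primeFactors, p ^ (β j).factorization p := by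
      symm
      apply Finset.prod_subset
      · intro p hp
        rw [hS, mem_biUnion]
        exact ⟨j, mem_univ _, hp⟩
      · intro p _ hp
        rw [← Nat.support_factorization, Finsupp.notMem_support_iff] at hp
        rw [hp, pow_zero]
    rw [h2]
    exact Nat.prod_factorization_pow_eq_self (by have := hβ j; omega)
  have hun : (un B (fun v => i * (β j).factorization (B.P v)) : ℝ) = (β j : ℝ) ^ i := by
    unfold un
    push_cast
    have h3 : ∏ v, ((B.P v : ℝ)) ^ (i * (β j).factorization (B.P v)) =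
        (∏ v, ((B.P v : ℝ)) ^ (β j).factorization (B.P v)) ^ i := by
      rw [← Finset.prod_pow]
      refine Finset.prod_congr rfl fun v _ => ?_
      rw [← pow_mul, mul_comm]
    rw [h3]
    congr 1
    exact_mod_cast hprod
  refine ⟨hun, fun v => ?_⟩
  have h4 := un_log B (fun v => i * (β j).factorization (B.P v))
  rw [hun, Real.log_pow] at h4
  rw [h4]
  exact Finset.single_le_sum (f := fun v =>
    ((i * (β j).factorization (B.P v) : ℕ) : ℝ) * Real.log (B.P v))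
    (fun v _ => mul_nonneg (Nat.cast_nonneg _) (log_P B v).le) (mem_univ v)

/-- **Multiples of an algebraic number are not sums of numbers with few digit changes.** -/
theorem sums (ξ : ℝ) (halg : IsAlgebraic ℚ ξ) (hirr : Irrational ξ) (r : ℕ) (β : Fin r → ℕ)
    (hβ : ∀ j, 2 ≤ β j) (k : ℕ) (δ : ℝ) (hδ : 0 < δ) :
    ∃ N₀ : ℝ, ∀ N : ℝ, N₀ ≤ N → ∀ q : ℕ, 1 ≤ q → (1 + δ) * Real.log q ≤ N → ∀ y : Fin r → ℝ,
      (∃ p : ℤ, ∑ j, y j = q * ξ + p) →
      ∃ j, k < (chs (β j) (y j) ⌊N / Real.log (β j)⌋₊).card := by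
  classical
  obtain ⟨m, B, f, hf⟩ := base_of β hβ
  obtain ⟨D, hD⟩ : ∃ D : ℕ, D = ∏ j, (β j - 1) := ⟨_, rfl⟩
  have hD1 : 1 ≤ D := by
    rw [hD]
    have h0 : 0 < ∏ j, (β j - 1) := Finset.prod_pos fun j _ => by have := hβ j; omega
    exact h0
  obtain ⟨Dj, hDj⟩ : ∃ Dj : Fin r → ℕ, ∀ j, Dj j * (β j - 1) = D := by
    refine ⟨fun j => ∏ l ∈ univ.erase j, (β l - 1), fun j => ?_⟩
    rw [hD, Finset.prod_erase_mul _ _ (mem_univ j)]
  have hDjD : ∀ j, Dj j ≤ D := by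
    intro j
    rw [← hDj j]
    exact Nat.le_mul_of_pos_right _ (by have := hβ j; omega)
  obtain ⟨C, hC⟩ : ∃ C : ℕ, C = D * (2 * ∑ j, β j) := ⟨_, rfl⟩
  obtain ⟨δ', hδ'⟩ : ∃ δ' : ℝ, δ' = δ / (2 * (1 + δ)) := ⟨_, rfl⟩
  have hδ'0 : 0 < δ' := by rw [hδ']; positivity
  have halg' : IsAlgebraic ℚ ((D : ℝ) * ξ) := (isAlgebraic_natCast _).mul halg
  have hirr' : Irrational ((D : ℝ) * ξ) := hirr.natCast_mul (by omega)
  obtain ⟨N₁, hN₁⟩ := mult_approx B ((D : ℝ) * ξ) halg' hirr' (r * k) C δ' hδ'0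
  obtain ⟨K, hK⟩ : ∃ K : ℝ, K = ∑ j, (D : ℝ) * (β j : ℝ) ^ 2 + 1 := ⟨_, rfl⟩
  have hK0 : 0 < K := by
    rw [hK]
    have : 0 ≤ ∑ j, (D : ℝ) * (β j : ℝ) ^ 2 := Finset.sum_nonneg fun j _ => by positivity
    linarith
  obtain ⟨T, hT⟩ : ∃ T : ℝ, T = ∑ j, Real.log (β j) := ⟨_, rfl⟩
  have hlβ : ∀ j, 0 < Real.log (β j) := fun j =>
    Real.log_pos (by have := hβ j; exact_mod_cast (by omega : 1 < β j))
  have hTj : ∀ j, Real.log (β j) ≤ T := by
    intro j
    rw [hT]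
    exact Finset.single_le_sum (f := fun j => Real.log (β j)) (fun j _ => (hlβ j).le) (mem_univ j)
  refine ⟨max (max N₁ 0) (max T (|Real.log K| / δ' + 1)), fun N hN q hq1 hqN y hy => ?_⟩
  have hNN : N₁ ≤ N := ((le_max_left _ _).trans (le_max_left _ _)).trans hN
  have hN0 : 0 ≤ N := ((le_max_right _ _).trans (le_max_left _ _)).trans hN
  have hNT : T ≤ N := ((le_max_left _ _).trans (le_max_right _ _)).trans hN
  have hNK : |Real.log K| / δ' + 1 ≤ N := ((le_max_right _ _).trans (le_max_right _ _)).trans hN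
  obtain ⟨p, hp⟩ := hy
  by_contra hcon
  push Not at hcon
  have hq1R : (1 : ℝ) ≤ q := by exact_mod_cast hq1
  have hlq : 0 ≤ Real.log q := Real.log_nonneg hq1R
  obtain ⟨n, hn⟩ : ∃ n : Fin r → ℕ, ∀ j, n j = ⌊N / Real.log (β j)⌋₊ := ⟨_, fun _ => rfl⟩
  have hnle : ∀ j, (n j : ℝ) * Real.log (β j) ≤ N := by
    intro j
    have := Nat.floor_le (a := N / Real.log (β j)) (div_nonneg hN0 (hlβ j).le)
    rw [le_div_iff₀ (hlβ j), ← hn j] at this
    exact this
  have hnge : ∀ j, N - Real.log (β j) ≤ (n j : ℝ) * Real.log (β j) := by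
    intro j
    have := (Nat.lt_floor_add_one (N / Real.log (β j))).le
    rw [div_le_iff₀ (hlβ j), ← hn j] at this
    linarith
  have hn1 : ∀ j, 1 ≤ n j := by
    intro j
    rw [hn j]
    apply Nat.le_floor
    rw [le_div_iff₀ (hlβ j)]
    have := hTj j
    push_cast
    linarith
  have hcard : ∀ j, (chs (β j) (y j) (n j)).card ≤ k := by
    intro j
    rw [hn j]
    exact hcon j
  choose pl u hu hpl hsum using fun j => enum k (chs (β j) (y j) (n j)) (hcard j)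
  have hpln : ∀ j l, (pl j l : ℝ) * Real.log (β j) ≤ N := by
    intro j l
    rcases hpl j l with h | h
    · unfold chs at h
      rw [mem_filter, mem_Ico] at h
      have h1 : (pl j l : ℝ) ≤ n j := by exact_mod_cast h.1.2.le
      exact (mul_le_mul_of_nonneg_right h1 (hlβ j).le).trans (hnle j)
    · rw [h]
      simpa using hN0
  -- the coefficients
  obtain ⟨Δ, hΔ⟩ : ∃ Δ : Fin r → ℕ → ℤ, ∀ j i, Δ j i =
      dig (y j) (β j) (i + 1) - dig (y j) (β j) i := ⟨_, fun _ _ => rfl⟩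
  have hΔb : ∀ j i, |Δ j i| ≤ 2 * β j := by
    intro j i
    rw [hΔ]
    have h1 := dig_abs (y j) (β j) (by have := hβ j; omega) (i + 1)
    have h2 := dig_abs (y j) (β j) (by have := hβ j; omega) i
    have h3 := abs_sub (dig (y j) (β j) (i + 1)) (dig (y j) (β j) i)
    linarith
  have hfin := hN₁ N hNN
    (fun z v => pl (finProdFinEquiv.symm z).1 (finProdFinEquiv.symm z).2 *
      f (finProdFinEquiv.symm z).1 v)
    (fun z v => ((hf _ _).2 v).trans (hpln _ _))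
    (fun z => -(Dj (finProdFinEquiv.symm z).1 * (u (finProdFinEquiv.symm z).1
      (finProdFinEquiv.symm z).2 * Δ (finProdFinEquiv.symm z).1
        (pl (finProdFinEquiv.symm z).1 (finProdFinEquiv.symm z).2))))
    (fun z => by
      obtain ⟨j, hj⟩ : ∃ j, j = (finProdFinEquiv.symm z).1 := ⟨_, rfl⟩
      obtain ⟨l, hl⟩ : ∃ l, l = (finProdFinEquiv.symm z).2 := ⟨_, rfl⟩
      rw [← hj, ← hl, abs_neg, abs_mul, abs_mul, Nat.abs_cast]
      have h1 := hu j l
      have h2 := hΔb j (pl j l)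
      have h3 : |u j l| * |Δ j (pl j l)| ≤ 1 * (2 * β j) :=
        mul_le_mul h1 h2 (abs_nonneg _) (by norm_num)
      have h4 : (Dj j : ℤ) ≤ D := by exact_mod_cast hDjD j
      have h5 : (β j : ℤ) ≤ ((∑ j, β j : ℕ) : ℤ) := by
        exact_mod_cast Finset.single_le_sum (f := β) (fun j _ => Nat.zero_le _) (mem_univ j)
      calc (Dj j : ℤ) * (|u j l| * |Δ j (pl j l)|) ≤ D * (2 * ((∑ j, β j : ℕ) : ℤ)) :=
            mul_le_mul h4 (h3.trans (by linarith)) (by positivity) (by positivity)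
        _ = (C : ℤ) := by rw [hC]; push_cast; ring)
    q hq1 (by
      have : Real.log q ≤ (1 + δ) * Real.log q := by nlinarith
      linarith)
    (∑ j, (Dj j : ℤ) * ((β j - 1) * ⌊y j⌋ + dig (y j) (β j) 1) - D * p)
  -- the error
  have e1 : (q : ℝ) * (D * ξ) + ∑ z : Fin (r * k),
      ((-(Dj (finProdFinEquiv.symm z).1 * (u (finProdFinEquiv.symm z).1
      (finProdFinEquiv.symm z).2 * Δ (finProdFinEquiv.symm z).1
        (pl (finProdFinEquiv.symm z).1 (finProdFinEquiv.symm z).2))) : ℤ) : ℝ) *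
      ((un B (fun v => pl (finProdFinEquiv.symm z).1 (finProdFinEquiv.symm z).2 *
      f (finProdFinEquiv.symm z).1 v) : ℝ))⁻¹ -
      ((∑ j, (Dj j : ℤ) * ((β j - 1) * ⌊y j⌋ + dig (y j) (β j) 1) - D * p : ℤ) : ℝ) =
      ∑ j, (Dj j : ℝ) * (((β j : ℝ) - 1) * y j -
        (((β j - 1) * ⌊y j⌋ + dig (y j) (β j) 1 : ℤ) : ℝ) -
        ∑ i ∈ chs (β j) (y j) (n j), ((Δ j i : ℤ) : ℝ) * ((β j : ℝ) ^ i)⁻¹) := by
    rw [← Equiv.sum_comp (finProdFinEquiv (m := r) (n := k)), Fintype.sum_prod_type]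
    simp only [Equiv.symm_apply_apply]
    have e2 : ∀ j : Fin r, ∑ l : Fin k, ((-(Dj j * (u j l * Δ j (pl j l))) : ℤ) : ℝ) *
        ((un B (fun v => pl j l * f j v) : ℝ))⁻¹ =
        -((Dj j : ℝ) * ∑ i ∈ chs (β j) (y j) (n j), ((Δ j i : ℤ) : ℝ) * ((β j : ℝ) ^ i)⁻¹) := by
      intro j
      rw [← hsum j (fun i => ((Δ j i : ℤ) : ℝ) * ((β j : ℝ) ^ i)⁻¹), Finset.mul_sum,
        ← Finset.sum_neg_distrib]
      refine Finset.sum_congr rfl fun l _ => ?_
      rw [(hf j (pl j l)).1]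
      push_cast
      ring
    rw [Finset.sum_congr rfl fun j _ => e2 j]
    have e3 : (D : ℝ) * ∑ j, y j = ∑ j, (Dj j : ℝ) * (((β j : ℝ) - 1) * y j) := by
      rw [Finset.mul_sum]
      refine Finset.sum_congr rfl fun j _ => ?_
      have h1 : (D : ℝ) = Dj j * ((β j : ℝ) - 1) := by
        rw [← hDj j, Nat.cast_mul, Nat.cast_sub (by have := hβ j; omega)]
        simp
      rw [h1]
      ring
    have e4 : (q : ℝ) * (D * ξ) = D * ∑ j, y j - D * p := by
      rw [hp]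
      ring
    rw [e4, e3]
    simp only [mul_sub, Finset.sum_sub_distrib, Finset.sum_neg_distrib]
    push_cast
    ring
  rw [e1] at hfin
  have h6 : |∑ j, (Dj j : ℝ) * (((β j : ℝ) - 1) * y j -
        (((β j - 1) * ⌊y j⌋ + dig (y j) (β j) 1 : ℤ) : ℝ) -
        ∑ i ∈ chs (β j) (y j) (n j), ((Δ j i : ℤ) : ℝ) * ((β j : ℝ) ^ i)⁻¹)| ≤
      K * Real.exp (-N) := by
    refine (Finset.abs_sum_le_sum_abs _ _).trans ?_
    calc ∑ j, |(Dj j : ℝ) * (((β j : ℝ) - 1) * y j -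
        (((β j - 1) * ⌊y j⌋ + dig (y j) (β j) 1 : ℤ) : ℝ) -
        ∑ i ∈ chs (β j) (y j) (n j), ((Δ j i : ℤ) : ℝ) * ((β j : ℝ) ^ i)⁻¹)| ≤
        ∑ j, (D : ℝ) * (β j : ℝ) ^ 2 * Real.exp (-N) := by
          refine Finset.sum_le_sum fun j _ => ?_
          rw [abs_mul, Nat.abs_cast]
          have h7 := changes_repr (β j) (hβ j) (y j) (n j) (hn1 j)
          simp only [← hΔ] at h7
          have h8 : (β j : ℝ) * ((β j : ℝ) ^ n j)⁻¹ ≤ (β j : ℝ) ^ 2 * Real.exp (-N) := by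
            have hβ0 : (0 : ℝ) < β j := by have := hβ j; positivity
            have h9 : (β j : ℝ) ^ n j = Real.exp (n j * Real.log (β j)) := rpow_exp _ (hβ j) _
            have h10 : ((β j : ℝ) ^ n j)⁻¹ ≤ β j * Real.exp (-N) := by
              rw [h9, ← Real.exp_neg]
              nth_rw 2 [← Real.exp_log hβ0]
              rw [← Real.exp_add]
              apply Real.exp_le_exp.2
              have := hnge j
              linarith
            calc (β j : ℝ) * ((β j : ℝ) ^ n j)⁻¹ ≤ β j * (β j * Real.exp (-N)) :=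
                  mul_le_mul_of_nonneg_left h10 hβ0.le
              _ = _ := by ring
          have h11 : (Dj j : ℝ) ≤ D := by exact_mod_cast hDjD j
          calc _ ≤ (D : ℝ) * ((β j : ℝ) ^ 2 * Real.exp (-N)) :=
                mul_le_mul h11 (h7.trans h8) (abs_nonneg _) (Nat.cast_nonneg _)
            _ = _ := by ring
      _ ≤ K * Real.exp (-N) := by
          rw [← Finset.sum_mul, hK]
          apply mul_le_mul_of_nonneg_right _ (Real.exp_pos _).le
          linarith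
  have h7 := lt_of_lt_of_le hfin h6
  have h8 := Real.log_lt_log (Real.exp_pos _) h7
  rw [Real.log_exp, Real.log_mul hK0.ne' (Real.exp_pos _).ne', Real.log_exp] at h8
  have h9 : |Real.log K| ≤ δ' * (N - 1) := by
    have : |Real.log K| / δ' ≤ N - 1 := by linarith
    rw [div_le_iff₀ hδ'0] at this
    linarith
  have h10 := le_abs_self (Real.log K)
  have h11 : Real.log q ≤ (1 - 2 * δ') * N := by
    have h12 : (1 + δ) * ((1 - 2 * δ') * N) = N := by
      rw [hδ']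
      field_simp
      ring
    have h13 : (1 + δ) * Real.log q ≤ (1 + δ) * ((1 - 2 * δ') * N) := by rw [h12]; exact hqN
    exact le_of_mul_le_mul_left h13 (by linarith)
  nlinarith

end Pool.Agent.Q50.SP
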