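import Pool.Agent.Q50.SP.Thm
import Pool.Agent.Q50.SP.Approx
import Pool.Agent.W47.JL.Single

/-!
# Error complexity of the digits of algebraic numbers
-/

set_option autoImplicit false

namespace Pool.Agent.Q50.SP

open Finset Polynomial
open Pool.Agent.H831R3.LC (W dig dig_abs)
open Pool.Agent.W47.JL (M1 M1_ge eval_le err params err_ge err_sq)

/-- the error term is small -/
theorem err_small (η : ℝ) (hη : 0 < η) : ∃ C : ℝ, 0 ≤ C ∧ ∀ m : ℕ, err m ≤ η * m + C := by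
  obtain ⟨κ, hκ⟩ : ∃ κ : ℝ, κ = η ^ 2 := ⟨_, rfl⟩
  have hκ0 : 0 < κ := by rw [hκ]; positivity
  refine ⟨2 * η + |(1 + Real.log κ)| / (2 * η) , by positivity, fun m => ?_⟩
  have hm0 : (0 : ℝ) ≤ m := Nat.cast_nonneg m
  have hsq := err_sq m
  have h0 := err_ge m
  have h1 : Real.log (κ * ((m : ℝ) + 2)) ≤ κ * ((m : ℝ) + 2) - 1 :=
    Real.log_le_sub_one_of_pos (by positivity)
  rw [Real.log_mul hκ0.ne' (by positivity)] at h1
  have h2 : Real.log ((m : ℝ) + 2) ≤ κ * ((m : ℝ) + 2) + |1 + Real.log κ| := by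
    have := neg_abs_le (1 + Real.log κ)
    linarith
  obtain ⟨Z, hZ⟩ : ∃ Z : ℝ, Z = |1 + Real.log κ| := ⟨_, rfl⟩
  have hZ0 : 0 ≤ Z := by rw [hZ]; exact abs_nonneg _
  rw [← hZ] at h2 ⊢
  obtain ⟨y, hy⟩ : ∃ y : ℝ, y = Z / (2 * η) := ⟨_, rfl⟩
  have hy0 : 0 ≤ y := by rw [hy]; positivity
  have hyZ : Z = 2 * η * y := by rw [hy]; field_simp
  rw [← hy]
  have h3 : err m ^ 2 ≤ (η * m + (2 * η + y)) ^ 2 := by
    rw [hsq]
    calc ((m : ℝ) + 1) * Real.log ((m : ℝ) + 2) ≤ ((m : ℝ) + 1) * (κ * ((m : ℝ) + 2) + Z) :=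
          mul_le_mul_of_nonneg_left h2 (by linarith)
      _ ≤ (η * m + (2 * η + y)) ^ 2 := by
          rw [hκ, hyZ]
          nlinarith [mul_nonneg hη.le hy0, mul_nonneg (mul_nonneg hη.le hy0) hm0,
            mul_nonneg (sq_nonneg η) hm0, sq_nonneg η, sq_nonneg y]
  exact (abs_le_of_sq_le_sq' h3 (by positivity)).2

/-- **Joint `k`-error linear complexity of algebraic numbers.** -/
theorem main (b : ℕ) (hb : 2 ≤ b) (J : ℕ) (hJ : 1 ≤ J) (ξ : Fin J → ℝ)
    (halg : ∀ j, IsAlgebraic ℚ (ξ j)) (hind : Indep ξ) (k : ℕ) (ε : ℝ) (hε : 0 < ε) :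
    ∃ L₀ : ℕ, ∀ L : ℕ, L₀ ≤ L → ∀ (m : ℕ) (s : Fin J → ℕ → ℤ), (∀ j i, |s j i| ≤ b) →
      (∃ E : Finset ℕ, E.card ≤ k ∧ ∀ i < L, i ∉ E → ∀ j, s j i = dig (ξ j) b (i + 1)) →
      (∃ c : ℕ → ℚ, ∀ j i, i + m < L → (s j (i + m) : ℚ) = ∑ l ∈ range m, c l * (s j (i + l) : ℚ)) →
      ((J : ℝ) / (J + k + 1) - ε) * L ≤ m := by
  have hbR : (2 : ℝ) ≤ b := by exact_mod_cast hb
  have hb0 : (0 : ℝ) < b := by linarith
  have hlb : 0.69 ≤ Real.log b := by
    have h1 := Real.log_two_gt_d9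
    have h2 := Real.log_le_log (by norm_num : (0 : ℝ) < 2) hbR
    linarith
  have hlb0 : 0 < Real.log b := by linarith
  have hJ0 : (1 : ℝ) ≤ J := by exact_mod_cast hJ
  have hk0' : (0 : ℝ) ≤ k := Nat.cast_nonneg k
  obtain ⟨θ, hθ⟩ : ∃ θ : ℝ, θ = (J : ℝ) / (J + k + 1) := ⟨_, rfl⟩
  have hθ0 : 0 < θ := by rw [hθ]; positivity
  have hθ1 : θ ≤ 1 := by
    rw [hθ, div_le_one (by positivity)]
    linarith
  rw [← hθ]
  obtain ⟨δ, hδ⟩ : ∃ δ : ℝ, δ = ε / 4 := ⟨_, rfl⟩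
  have hδ0 : 0 < δ := by rw [hδ]; positivity
  obtain ⟨N₀, hN₀⟩ := sparse_approx b hb J hJ ξ halg hind k (2 * b) δ hδ0
  obtain ⟨C1, hC1, herr⟩ := err_small (ε / 60) (by positivity)
  obtain ⟨c2, hc2⟩ : ∃ c2 : ℝ, c2 = Real.log (1 + 2 * k) / Real.log b := ⟨_, rfl⟩
  have hc20 : 0 ≤ c2 := by
    rw [hc2]
    exact div_nonneg (Real.log_nonneg (by linarith)) hlb0.le
  obtain ⟨C3, hC3⟩ : ∃ C3 : ℝ, C3 = 15 * C1 + c2 + 1 := ⟨_, rfl⟩
  refine ⟨max N₀ ⌈C3 / (ε / 4)⌉₊, fun L hL m s hs hE hrec => ?_⟩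
  have hLN : N₀ ≤ L := (le_max_left _ _).trans hL
  have hLC : C3 ≤ ε / 4 * L := by
    have h1 : C3 / (ε / 4) ≤ L := (Nat.le_ceil _).trans (by exact_mod_cast (le_max_right _ _).trans hL)
    rw [div_le_iff₀ (by positivity)] at h1
    linarith
  have hL0 : (0 : ℝ) ≤ L := Nat.cast_nonneg L
  have hm0 : (0 : ℝ) ≤ m := Nat.cast_nonneg m
  rcases le_or_gt L m with hmL | hmL
  · have h1 : (L : ℝ) ≤ m := by exact_mod_cast hmL
    nlinarith [mul_nonneg hε.le hL0]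
  have hmLR : (m : ℝ) ≤ L := by exact_mod_cast hmL.le
  have herrm := herr m
  have herr2 : 15 * err m ≤ ε / 4 * L + 15 * C1 := by nlinarith
  obtain ⟨k0, K, hk0, hK, hpar⟩ := params m
  have hpar1 : M1 b m k0 K ≤ m + 15 * err m := hpar b hbR
  have hM1 := M1_ge b m k0 K hb
  have hk00 : (0 : ℝ) ≤ k0 := Nat.cast_nonneg k0
  have hM10 : 0 ≤ M1 b m k0 K := by linarith
  -- the trivial case
  have htriv : (L : ℝ) ≤ M1 b m k0 K + 1 → (θ - ε) * L ≤ m := by
    intro h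
    have h1 : (L : ℝ) ≤ m + (ε / 4 * L + 15 * C1) + 1 := by linarith
    have h2 : θ * L ≤ 1 * L := mul_le_mul_of_nonneg_right hθ1 hL0
    rw [sub_mul]
    have h3 : 0 ≤ ε * L := by positivity
    rw [hC3] at hLC
    linarith
  by_contra hcon
  push Not at hcon
  have hnt : M1 b m k0 K + 1 < L := by
    by_contra h
    push Not at h
    exact absurd (htriv h) (not_le.2 hcon)
  have hL' : m + k0 ≤ L := by
    have : ((m + k0 : ℕ) : ℝ) ≤ L := by push_cast; linarith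
    exact_mod_cast this
  obtain ⟨X, hX⟩ : ∃ X : ℝ, X = ((m : ℝ) + k0 + 1) * (((m : ℝ) + 1 + k0) * b) ^ K := ⟨_, rfl⟩
  have hX0 : 0 < X := by rw [hX]; positivity
  have hM1X : M1 b m k0 K * Real.log b = (m + k0) * Real.log b + Real.log X := by
    rw [M1, ← hX]
    field_simp
  have hbig : (m + k0 + 1) * ((m + 1 + k0) * b) ^ K * b < b ^ (L - (m + k0)) := by
    have h1 : X * b < (b : ℝ) ^ (L - (m + k0)) := by
      rw [← Real.log_lt_log_iff (by positivity) (by positivity), Real.log_mul hX0.ne' hb0.ne',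
        Real.log_pow, Nat.cast_sub hL']
      have h2 := mul_lt_mul_of_pos_right hnt hlb0
      push_cast
      linarith
    rw [hX] at h1
    exact_mod_cast h1
  obtain ⟨E, hEc, hdig⟩ := hE
  obtain ⟨c, hc⟩ := hrec
  -- truncate
  obtain ⟨a, ha⟩ : ∃ a : Fin J → ℕ → ℤ, a = fun j i => if i < L then s j i
    else dig (ξ j) b (i + 1) := ⟨_, rfl⟩
  have ha1 : ∀ j i, i < L → a j i = s j i := by
    intro j i hi
    rw [ha]; simp [hi]
  have ha2 : ∀ j i, |a j i| ≤ b := by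
    intro j i
    by_cases hi : i < L
    · rw [ha1 j i hi]; exact hs j i
    · rw [ha]; simp only [hi, if_false]
      exact dig_abs _ _ (by omega) _
  obtain ⟨E', hE'⟩ : ∃ E' : Finset ℕ, E' = E.filter (· < L) := ⟨_, rfl⟩
  have hE'c : E'.card ≤ k := by rw [hE']; exact (card_filter_le _ _).trans hEc
  have hE'L : ∀ i ∈ E', i < L := by
    intro i hi
    rw [hE'] at hi
    exact (mem_filter.1 hi).2
  have ha3 : ∀ j i, i ∉ E' → a j i = dig (ξ j) b (i + 1) := by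
    intro j i hi
    by_cases hiL : i < L
    · rw [ha1 j i hiL]
      refine hdig i hiL (fun h => hi ?_) j
      rw [hE']
      exact mem_filter.2 ⟨h, hiL⟩
    · rw [ha]; simp [hiL]
  obtain ⟨t, ht0, htd, htH, htr⟩ := Pool.Agent.W928.JL.small J a b (by omega)
    ha2 m k0 (L - (m + k0)) L K hk0 hK
    (by omega) c (fun j i hi => by
      rw [ha1 _ _ hi, hc j i hi]
      refine Finset.sum_congr rfl fun l hl => ?_
      rw [mem_range] at hl
      rw [ha1 _ _ (by omega)])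
  obtain ⟨t', htd', htH', htr', ht0'⟩ := Pool.Agent.W639.JL.desc J a b b
    (((m + 1 + k0) * b) ^ K) (m + k0)
    (L - (m + k0)) hb ha2 hbig t htd ht0 htH htr
  -- the denominator
  obtain ⟨q, hq⟩ : ∃ q : ℕ, q = (t'.eval (b : ℤ)).natAbs := ⟨_, rfl⟩
  have hq1 : 1 ≤ q := by rw [hq]; exact Int.natAbs_pos.2 ht0'
  have hqR : (q : ℝ) = |((t'.eval (b : ℤ) : ℤ) : ℝ)| := by
    rw [hq, Nat.cast_natAbs, Int.cast_abs]
  have hq1R : (1 : ℝ) ≤ q := by exact_mod_cast hq1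
  have hXe : (((m + k0 : ℕ) : ℝ) + 1) * (((m + 1 + k0) * b) ^ K : ℕ) = X := by
    rw [hX]; push_cast; ring
  have hqle : (q : ℝ) ≤ X * (b : ℝ) ^ (m + k0) := by
    have h1 := eval_le t' (((m + 1 + k0) * b) ^ K) (m + k0) b (by omega) htH' htd'
    rw [hqR, ← hXe]
    exact_mod_cast h1
  have hlogq : Real.log q ≤ M1 b m k0 K * Real.log b := by
    have h1 := Real.log_le_log (by linarith) hqle
    rw [Real.log_mul hX0.ne' (by positivity), Real.log_pow] at h1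
    rw [hM1X]
    push_cast at h1
    linarith
  have hqL : q ≤ b ^ L := by
    have h1 : (q : ℝ) ≤ (b : ℝ) ^ L := by
      rw [← Real.log_le_log_iff (by linarith) (by positivity), Real.log_pow]
      refine hlogq.trans ?_
      apply mul_le_mul_of_nonneg_right _ hlb0.le
      linarith
    exact_mod_cast h1
  -- the numerators
  have hp : ∀ j, ∃ p : ℤ, |(q : ℝ) * x' (ξ j) b (a j) E' - p| * (b : ℝ) ^ (L - (m + k0)) ≤
      X * (1 + 2 * k) := by
    intro j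
    obtain ⟨p, hp⟩ := approx' (ξ j) b (((m + 1 + k0) * b) ^ K) (L - (m + k0)) hb (a j) (ha2 j) E'
      (ha3 j) t' htH' (htr' j)
    have h1 : ((t'.natDegree : ℝ) + 1) * ((((m + 1 + k0) * b) ^ K : ℕ) : ℝ) * (1 + 2 * E'.card) ≤
        X * (1 + 2 * k) := by
      rw [← hXe]
      have h2 : (t'.natDegree : ℝ) ≤ ((m + k0 : ℕ) : ℝ) := by exact_mod_cast htd'
      have h3 : (E'.card : ℝ) ≤ k := by exact_mod_cast hE'c
      gcongr
    rcases abs_cases ((t'.eval (b : ℤ) : ℤ) : ℝ) with ⟨h2, _⟩ | ⟨h2, _⟩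
    · refine ⟨p, ?_⟩
      rw [hqR, h2]
      exact hp.trans h1
    · refine ⟨-p, ?_⟩
      rw [hqR, h2, ← abs_neg]
      refine le_trans (le_of_eq ?_) (hp.trans h1)
      congr 2
      push_cast
      ring
  choose p hp using hp
  -- the errors
  obtain ⟨n, u, hu, hn, hsum⟩ := enum k E' hE'c
  have hnb : ∀ i, n i + 1 ≤ L := by
    intro i
    rcases hn i with h | h
    · exact hE'L _ h
    · rw [h]; omega
  obtain ⟨j, hj⟩ := hN₀ L hLN (fun i => n i + 1) hnb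
    (fun i j => u i * (a j (n i) - dig (ξ j) b (n i + 1)))
    (fun i j => by
      rw [abs_mul]
      have h1 := ha2 j (n i)
      have h2 := dig_abs (ξ j) b (by omega) (n i + 1)
      have h3 := abs_sub (a j (n i)) (dig (ξ j) b (n i + 1))
      have h4 := hu i
      have h5 : |a j (n i) - dig (ξ j) b (n i + 1)| ≤ 2 * b := by linarith
      calc |u i| * |a j (n i) - dig (ξ j) b (n i + 1)| ≤ 1 * (2 * b) :=
            mul_le_mul h4 h5 (abs_nonneg _) (by norm_num)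
        _ = ((2 * b : ℕ) : ℤ) := by push_cast; ring) q hq1 hqL p
  have e1 : ξ j + ∑ i, ((u i * (a j (n i) - dig (ξ j) b (n i + 1)) : ℤ) : ℝ) *
      ((b : ℝ) ^ (n i + 1))⁻¹ = x' (ξ j) b (a j) E' := by
    unfold x'
    rw [← hsum (fun l => ((a j l - dig (ξ j) b (l + 1) : ℤ) : ℝ) * ((b : ℝ) ^ (l + 1))⁻¹)]
    congr 1
    refine Finset.sum_congr rfl fun i _ => ?_
    push_cast
    ring
  rw [e1] at hj
  have h2 := hp j
  have h3 : 0 < |(q : ℝ) * x' (ξ j) b (a j) E' - p j| := (Real.exp_pos _).trans hj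
  have h4 := Real.log_lt_log (Real.exp_pos _) hj
  rw [Real.log_exp] at h4
  have h5 := Real.log_le_log (by positivity) h2
  rw [Real.log_mul h3.ne' (by positivity), Real.log_pow, Real.log_mul hX0.ne' (by positivity),
    Nat.cast_sub hL'] at h5
  push_cast at h5
  have h6 : Real.log (1 + 2 * k) = c2 * Real.log b := by
    rw [hc2]
    field_simp
  rw [h6] at h5
  -- the conclusion
  have h7 : ((k : ℝ) + 1) / J * Real.log q ≤ (k + 1) / J * (M1 b m k0 K * Real.log b) :=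
    mul_le_mul_of_nonneg_left hlogq (by positivity)
  have h8 : (L : ℝ) * Real.log b - δ * (L * Real.log b) <
      (1 + (k + 1) / J) * (M1 b m k0 K * Real.log b) + c2 * Real.log b := by
    linarith
  have h9 : (L : ℝ) - δ * L < (1 + (k + 1) / J) * M1 b m k0 K + c2 := by
    have e : (L : ℝ) * Real.log b - δ * (L * Real.log b) = (L - δ * L) * Real.log b := by ring
    have e' : (1 + (k + 1) / (J : ℝ)) * (M1 b m k0 K * Real.log b) + c2 * Real.log b =
      ((1 + (k + 1) / J) * M1 b m k0 K + c2) * Real.log b := by ring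
    rw [e, e'] at h8
    exact lt_of_mul_lt_mul_right h8 hlb0.le
  have h10 : θ * (1 + (k + 1) / (J : ℝ)) = 1 := by
    rw [hθ]
    field_simp
    ring
  have h11 : θ * (L - δ * L) < M1 b m k0 K + θ * c2 := by
    have := mul_lt_mul_of_pos_left h9 hθ0
    calc θ * (L - δ * L) < θ * ((1 + (k + 1) / (J : ℝ)) * M1 b m k0 K + c2) := this
      _ = (θ * (1 + (k + 1) / (J : ℝ))) * M1 b m k0 K + θ * c2 := by ring
      _ = M1 b m k0 K + θ * c2 := by rw [h10]; ring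
  have h12 : θ * (δ * L) ≤ 1 * (δ * L) := mul_le_mul_of_nonneg_right hθ1 (by positivity)
  have h13 : θ * c2 ≤ 1 * c2 := mul_le_mul_of_nonneg_right hθ1 hc20
  rw [hδ] at h11 h12
  rw [hC3] at hLC
  rw [sub_mul] at hcon
  have h14 : 0 ≤ ε * L := by positivity
  nlinarith

end Pool.Agent.Q50.SP
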