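import Pool.Agent.Q50.SP.Germ

/-!
# Integral linear combinations of algebraic numbers plus sparse sums
-/

set_option autoImplicit false

namespace Pool.Agent.Q50.SP

open Filter Topology Pool.Agent.TH932.Abs Pool.Agent.TH932.Germs
open Pool.Agent.TH796.AL

variable {m : ℕ} (B : Base m)

lemma un_one_le (e : Fin m → ℕ) : (1 : ℝ) ≤ un B e := by
  have h1 := un_pos B e
  have h2 : (0 : ℤ) < un B e := by exact_mod_cast h1
  exact_mod_cast (by omega : (1 : ℤ) ≤ un B e)

lemma un_inv_le (e : Fin m → ℕ) : ((un B e : ℝ))⁻¹ ≤ 1 :=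
  inv_le_one_of_one_le₀ (un_one_le B e)

/-- limits of the quotients of the exponents of the multiplier -/
lemma expsG (δ : ℝ) (hδ : 0 < δ) (N : ℕ → ℝ) (hN : Tendsto N atTop atTop) (g : ℕ → Fin m → ℕ)
    (hg : ∀ᶠ t in (UU : Filter ℕ), δ * Real.log (un B (g t)) ≤ N t) :
    ∃ γ : Fin m → ℝ, (∀ v, 0 ≤ γ v) ∧ ∀ v, ∀ ε : ℝ, 0 < ε → ∀ᶠ t in (UU : Filter ℕ),
      (γ v - ε) * N t ≤ (g t v : ℝ) * Real.log (B.P v) ∧
        (g t v : ℝ) * Real.log (B.P v) ≤ (γ v + ε) * N t := by
  have hpos : ∀ᶠ t in (UU : Filter ℕ), 1 ≤ N t := ev_of_atTop (hN.eventually_ge_atTop 1)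
  have h1 : ∀ v, ∃ x ∈ Set.Icc 0 (1 / δ), Tendsto (fun t => ((g t v : ℝ) * Real.log (B.P v)) / N t)
      (UU : Filter ℕ) (𝓝 x) := by
    intro v
    refine ulim (fun t => ((g t v : ℝ) * Real.log (B.P v)) / N t) 0 (1 / δ) ?_
    filter_upwards [hg, hpos] with t ht hN1
    have := log_P B v
    refine ⟨by positivity, ?_⟩
    rw [div_le_div_iff₀ (by linarith) hδ, one_mul]
    rw [un_log] at ht
    have h2 : (g t v : ℝ) * Real.log (B.P v) ≤ ∑ v, (g t v : ℝ) * Real.log (B.P v) :=
      Finset.single_le_sum (f := fun v => (g t v : ℝ) * Real.log (B.P v))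
        (fun v _ => mul_nonneg (Nat.cast_nonneg _) (log_P B v).le) (Finset.mem_univ v)
    nlinarith
  choose γ hγ hγ2 using h1
  refine ⟨γ, fun v => (hγ v).1, fun v ε hε => ?_⟩
  filter_upwards [near (hγ2 v) ε hε, hpos] with t ht hN1
  have hN0 : (0 : ℝ) < N t := by linarith
  rw [le_div_iff₀ hN0, div_le_iff₀ hN0] at ht
  exact ht

/-- the sizes -/
lemma densH (N : ℕ → ℝ) (H : ℕ → ℝ) (hN : Tendsto N atTop atTop)
    (hq : ∀ᶠ t in (UU : Filter ℕ), 1 ≤ H t ∧ Real.log (H t) ≤ N t) :
    ∃ ρ : ℝ, 0 ≤ ρ ∧ ∀ ε : ℝ, 0 < ε → ∀ᶠ t in (UU : Filter ℕ),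
      (ρ - ε) * N t ≤ Real.log (H t) ∧ Real.log (H t) ≤ (ρ + ε) * N t := by
  have hpos : ∀ᶠ t in (UU : Filter ℕ), 1 ≤ N t := ev_of_atTop (hN.eventually_ge_atTop 1)
  obtain ⟨x, hx0, hx⟩ := ulim (fun t => Real.log (H t) / N t) 0 1 (by
    filter_upwards [hq, hpos] with t ht hN1
    refine ⟨div_nonneg (Real.log_nonneg ht.1) (by linarith), ?_⟩
    rw [div_le_one (by linarith)]
    exact ht.2)
  refine ⟨x, hx0.1, fun ε hε => ?_⟩
  filter_upwards [near hx ε hε, hpos] with t ht hN1
  have hN0 : (0 : ℝ) < N t := by linarith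
  rw [le_div_iff₀ hN0, div_le_iff₀ hN0] at ht
  exact ht

/-- the index set of the variables: the sparse terms, the integral part, the coefficients -/
abbrev Ix (k M : ℕ) : Type := Fin k ⊕ Option (Fin M)

/-- the variables -/
noncomputable def zz {k M : ℕ} (e : ℕ → Fin k → Fin m → ℕ) (g : ℕ → Fin m → ℕ)
    (q : ℕ → Fin M → ℤ) (p : ℕ → ℤ) : Ix k M → ℕ → ℝ
  | Sum.inl l, t => ((un B (e t l) : ℝ))⁻¹
  | Sum.inr none, t => p t
  | Sum.inr (some i), t => un B (g t) * q t i

/-- the integral multiples of the variables -/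
noncomputable def XX {k M : ℕ} (N : ℕ → ℝ) (e : ℕ → Fin k → Fin m → ℕ) (g : ℕ → Fin m → ℕ)
    (q : ℕ → Fin M → ℤ) (p : ℕ → ℤ) : Ix k M → ℕ → ℤ
  | Sum.inl l, t => un B (fun v => EE B (N t) v - e t l v)
  | Sum.inr none, t => un B (EE B (N t)) * p t
  | Sum.inr (some i), t => un B (fun v => EE B (N t) v + g t v) * q t i

lemma un_add (e e' : Fin m → ℕ) : un B (fun v => e v + e' v) = un B e * un B e' := by
  unfold un
  rw [← Finset.prod_mul_distrib]
  refine Finset.prod_congr rfl fun v _ => ?_
  rw [pow_add]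

lemma XX_eq {k M : ℕ} (N : ℕ → ℝ) (e : ℕ → Fin k → Fin m → ℕ) (g : ℕ → Fin m → ℕ)
    (q : ℕ → Fin M → ℤ) (p : ℕ → ℤ) (i : Ix k M) (t : ℕ)
    (he : ∀ i v, (e t i v : ℝ) * Real.log (B.P v) ≤ N t) :
    ((XX B N e g q p i t : ℤ) : ℝ) = un B (EE B (N t)) * zz B e g q p i t := by
  rcases i with l | _ | i
  · show ((un B (fun v => EE B (N t) v - e t l v) : ℤ) : ℝ) = _
    rw [un_sub B _ _ (he l)]
    rfl
  · show ((un B (EE B (N t)) * p t : ℤ) : ℝ) = _
    push_cast
    rfl
  · show ((un B (fun v => EE B (N t) v + g t v) * q t i : ℤ) : ℝ) = _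
    rw [un_add]
    push_cast
    show _ = (un B (EE B (N t)) : ℝ) * (un B (g t) * q t i)
    ring

lemma U_le (N : ℝ) (hN : 0 ≤ N) : (un B (EE B N) : ℝ) ≤ Real.exp (m * N) := by
  rw [← Real.exp_log (un_pos B _), un_log]
  apply Real.exp_le_exp.2
  calc ∑ v, (EE B N v : ℝ) * Real.log (B.P v) ≤ ∑ _v : Fin m, N :=
        Finset.sum_le_sum fun v _ => EE_le B _ hN v
    _ = m * N := by simp

/-- the coefficients of the form -/
noncomputable def lam {k M : ℕ} (a : Fin k → ℚ) (ω : Fin M → ℝ) : Ix k M → ℝ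
  | Sum.inl l => a l
  | Sum.inr none => -1
  | Sum.inr (some i) => ω i

/-- the constant `ρ` at the coefficients, zero elsewhere -/
def cst {k M : ℕ} (ρ : ℝ) : Ix k M → ℝ
  | Sum.inl _ => 0
  | Sum.inr none => 0
  | Sum.inr (some _) => ρ

/-- **Integral linear combinations of algebraic numbers plus sparse sums**, along sequences. -/
theorem dual_seq (N : ℕ → ℝ) (hN : Tendsto N atTop atTop) (δ : ℝ) (hδ : 0 < δ) (M k : ℕ)
    (ω : Fin M → ℝ) (halg : ∀ i, IsAlgebraic ℚ (ω i)) (hind : Indep ω)
    (q : ℕ → Fin M → ℤ) (p : ℕ → ℤ) (H : ℕ → ℝ) (g : ℕ → Fin m → ℕ)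
    (hq0 : ∀ᶠ t in (UU : Filter ℕ), q t ≠ 0)
    (hqH : ∀ᶠ t in (UU : Filter ℕ), ∀ i, |(q t i : ℝ)| ≤ H t)
    (hH : ∀ᶠ t in (UU : Filter ℕ), 1 ≤ H t ∧ Real.log (H t) ≤ N t)
    (hg : ∀ᶠ t in (UU : Filter ℕ), δ * Real.log (un B (g t)) ≤ N t)
    (a : Fin k → ℚ) (e : ℕ → Fin k → Fin m → ℕ)
    (he : ∀ᶠ t in (UU : Filter ℕ), ∀ i v, (e t i v : ℝ) * Real.log (B.P v) ≤ N t)
    (h : ∀ᶠ t in (UU : Filter ℕ),
        |(un B (g t) : ℝ) * ∑ i, (q t i : ℝ) * ω i + ∑ l, (a l : ℝ) * ((un B (e t l) : ℝ))⁻¹ - p t| ≤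
          Real.exp (-(M * Real.log (H t)) - δ * N t)) : False := by
  classical
  have hN0 : ∀ᶠ t in (UU : Filter ℕ), 0 ≤ N t := ev_of_atTop (hN.eventually_ge_atTop 0)
  obtain ⟨b, T, hTli, hT, hTs, hTb, hTnb⟩ := exists_basis (zz B e g q p)
    (Set.range (Sum.inl : Fin k → Ix k M))
  -- the form
  obtain ⟨C, hC⟩ : ∃ C : Ix k M → ℝ, ∀ β, C β = ∑ i, lam a ω i * T i β := ⟨_, fun _ => rfl⟩
  have hform : ∀ᶠ t in (UU : Filter ℕ), (un B (g t) : ℝ) * ∑ i, (q t i : ℝ) * ω i +
      ∑ l, (a l : ℝ) * ((un B (e t l) : ℝ))⁻¹ - p t = ∑ β, C β * zz B e g q p β t := by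
    filter_upwards [Filter.eventually_all.2 hT] with t ht
    have h1 : ∑ β, C β * zz B e g q p β t = ∑ i, lam a ω i * zz B e g q p i t := by
      calc ∑ β, C β * zz B e g q p β t = ∑ β, ∑ i, lam a ω i * T i β * zz B e g q p β t := by
            refine Finset.sum_congr rfl fun β _ => ?_
            rw [hC, Finset.sum_mul]
        _ = ∑ i, ∑ β, lam a ω i * T i β * zz B e g q p β t := Finset.sum_comm
        _ = ∑ i, lam a ω i * zz B e g q p i t := by
            refine Finset.sum_congr rfl fun i _ => ?_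
            rw [ht i, Finset.mul_sum]
            refine Finset.sum_congr rfl fun β _ => ?_
            ring
    rw [h1, Fintype.sum_sum_type, Fintype.sum_option]
    show _ = ∑ l, (a l : ℝ) * ((un B (e t l) : ℝ))⁻¹ + ((-1 : ℝ) * (p t : ℝ) +
      ∑ i, ω i * ((un B (g t) : ℝ) * q t i))
    rw [Finset.mul_sum]
    have h2 : ∑ i, (un B (g t) : ℝ) * ((q t i : ℝ) * ω i) =
        ∑ i, ω i * ((un B (g t) : ℝ) * q t i) := Finset.sum_congr rfl fun i _ => by ring
    rw [h2]
    ring
  -- its coefficients at the integral variables do not vanish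
  have hC0 : ∀ β : Option (Fin M), Sum.inr β ∈ b → C (Sum.inr β) ≠ 0 := by
    intro β hβ hzero
    rw [hC, Fintype.sum_sum_type, Fintype.sum_option] at hzero
    have h1 : ∀ l : Fin k, T (Sum.inl l) (Sum.inr β) = 0 := fun l =>
      hTs _ ⟨l, rfl⟩ _ (by rintro ⟨l', hl'⟩; exact absurd hl' (by simp))
    simp only [h1, Rat.cast_zero, mul_zero, Finset.sum_const_zero, zero_add] at hzero
    have h2 : ∑ i : Fin M, ((T (Sum.inr (some i)) (Sum.inr β) : ℚ) : ℝ) * ω i =
        ((T (Sum.inr none) (Sum.inr β) : ℚ) : ℝ) := by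
      have h3 : (-1 : ℝ) * ((T (Sum.inr none) (Sum.inr β) : ℚ) : ℝ) +
        ∑ i : Fin M, ω i * ((T (Sum.inr (some i)) (Sum.inr β) : ℚ) : ℝ) = 0 := hzero
      have h4 : ∑ i : Fin M, ω i * ((T (Sum.inr (some i)) (Sum.inr β) : ℚ) : ℝ) =
        ∑ i : Fin M, ((T (Sum.inr (some i)) (Sum.inr β) : ℚ) : ℝ) * ω i :=
        Finset.sum_congr rfl fun i _ => mul_comm _ _
      rw [h4] at h3
      linarith
    have h3 := hind (fun i => T (Sum.inr (some i)) (Sum.inr β)) _ h2
    have h4 : ((T (Sum.inr none) (Sum.inr β) : ℚ) : ℝ) = 0 := by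
      rw [← h2]
      have : ∀ i : Fin M, T (Sum.inr (some i)) (Sum.inr β) = 0 := fun i => congrFun h3 i
      simp [this]
    have h5 := hTb _ hβ
    rcases β with _ | i
    · rw [h5] at h4
      norm_num at h4
    · have := congrFun h3 i
      simp only [Pi.zero_apply] at this
      rw [h5] at this
      norm_num at this
  have hCF := exists_field ω halg
  obtain ⟨F, hF, hωF⟩ := hCF
  have := hF
  have hCmem : ∀ β, C β ∈ F := by
    intro β
    rw [hC]
    refine sum_mem fun i _ => F.mul_mem ?_ (rat_mem F _)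
    rcases i with l | _ | i
    · exact rat_mem F _
    · exact F.neg_mem F.one_mem
    · exact hωF i
  obtain ⟨ν, hν⟩ := expsM B k N hN e he
  obtain ⟨γ, hγ0, hγ⟩ := expsG B δ hδ N hN g hg
  obtain ⟨ρ, hρ0, hρ⟩ := densH N H hN hH
  -- the choice of the variable which is replaced
  have hβ0 : ∃ β0 : Option (Fin M), Sum.inr β0 ∈ b ∧ (Sum.inr none ∈ b → β0 = none) := by
    by_contra hcon
    push Not at hcon
    have hno : ∀ β : Option (Fin M), (Sum.inr β : Ix k M) ∉ b := by
      intro β hβ
      by_cases hn : (Sum.inr none : Ix k M) ∈ b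
      · exact (hcon none hn).2 rfl
      · exact hn (hcon β hβ).1
    -- everything is bounded
    obtain ⟨R, hR⟩ : ∃ R : ℕ, ∀ i : Ix k M, ∑ β, |(T i β : ℝ)| ≤ R := by
      obtain ⟨R, hR⟩ := exists_nat_ge (∑ i : Ix k M, ∑ β, |(T i β : ℝ)|)
      exact ⟨R, fun i => (Finset.single_le_sum (f := fun i : Ix k M => ∑ β, |(T i β : ℝ)|)
        (fun i _ => Finset.sum_nonneg fun _ _ => abs_nonneg _) (Finset.mem_univ i)).trans hR⟩
    have hbd : ∀ i : Ix k M, ∀ᶠ t in (UU : Filter ℕ), |zz B e g q p i t| ≤ R := by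
      intro i
      filter_upwards [hT i] with t ht
      rw [ht]
      refine ((Finset.abs_sum_le_sum_abs _ _).trans (Finset.sum_le_sum fun β _ => ?_)).trans (hR i)
      rw [abs_mul]
      rcases β with l | β
      · show |(T i (Sum.inl l) : ℝ)| * |((un B (e t l) : ℝ))⁻¹| ≤ _
        rw [abs_of_pos (inv_pos.2 (un_pos B _))]
        exact mul_le_of_le_one_right (abs_nonneg _) (un_inv_le B _)
      · rw [hTnb i _ (hno β)]
        simp
    have hbd1 : ∀ᶠ t in (UU : Filter ℕ), ∀ i : Fin M, |un B (g t) * q t i| ≤ R := by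
      rw [Filter.eventually_all]
      intro i
      filter_upwards [hbd (Sum.inr (some i))] with t ht
      have : |(un B (g t) : ℝ) * q t i| ≤ R := ht
      exact_mod_cast this
    have hbd2 : ∀ᶠ t in (UU : Filter ℕ), |p t| ≤ R := by
      filter_upwards [hbd (Sum.inr none)] with t ht
      have : |(p t : ℝ)| ≤ R := ht
      exact_mod_cast this
    have hfin : ((Set.univ.pi fun _ : Fin M => Set.Icc (-(R : ℤ)) R) ×ˢ
        Set.Icc (-(R : ℤ)) R : Set ((Fin M → ℤ) × ℤ)).Finite :=
      (Set.Finite.pi fun _ => Set.finite_Icc _ _).prod (Set.finite_Icc _ _)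
    have hex : ∀ᶠ t in (UU : Filter ℕ), ∃ z ∈ ((Set.univ.pi fun _ : Fin M =>
        Set.Icc (-(R : ℤ)) R) ×ˢ Set.Icc (-(R : ℤ)) R : Set ((Fin M → ℤ) × ℤ)),
        ((fun i => un B (g t) * q t i), p t) = z := by
      filter_upwards [hbd1, hbd2] with t h1 h2
      exact ⟨_, ⟨fun i _ => abs_le.1 (h1 i), abs_le.1 h2⟩, rfl⟩
    obtain ⟨⟨q1, p1⟩, -, hz⟩ := (Ultrafilter.eventually_exists_mem_iff hfin).1 hex
    have hq1 : q1 ≠ 0 := by
      obtain ⟨t, h1, h2⟩ := (hz.and hq0).exists
      rw [Prod.mk.injEq] at h1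
      rw [← h1.1]
      intro h3
      apply h2
      funext i
      have h4 := congrFun h3 i
      simp only [Pi.zero_apply, mul_eq_zero] at h4
      rcases h4 with h4 | h4
      · have := un_pos B (g t)
        rw [h4] at this
        simp at this
      · exact h4
    have hirr : Irrational (∑ i, (q1 i : ℝ) * ω i + ((-p1 : ℤ) : ℝ)) := by
      refine Irrational.add_intCast ?_ _
      rintro ⟨c, hc⟩
      apply hq1
      have h1 := hind (fun i => (q1 i : ℚ)) c (by rw [hc]; push_cast; rfl)
      funext i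
      have := congrFun h1 i
      simpa using this
    refine sparse_sumM B N hN δ hδ k (∑ i, (q1 i : ℝ) * ω i + ((-p1 : ℤ) : ℝ)) ?_ hirr a e he ?_
    · exact (isAlgebraic_iff_isIntegral.2 (IsIntegral.sum _ fun i _ =>
        ((isAlgebraic_intCast _).mul (halg i)).isIntegral)).add (isAlgebraic_intCast _)
    · filter_upwards [h, hz, hH, hN0] with t ht hzt hHt hNt
      rw [Prod.mk.injEq] at hzt
      have e1 : (un B (g t) : ℝ) * ∑ i, (q t i : ℝ) * ω i = ∑ i, (q1 i : ℝ) * ω i := by
        rw [Finset.mul_sum]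
        refine Finset.sum_congr rfl fun i _ => ?_
        have h9 : un B (g t) * q t i = q1 i := congrFun hzt.1 i
        rw [← h9]
        push_cast
        ring
      rw [e1, hzt.2] at ht
      have e2 : ∑ i, (q1 i : ℝ) * ω i + ((-p1 : ℤ) : ℝ) +
          ∑ l, (a l : ℝ) * ((un B (e t l) : ℝ))⁻¹ =
          ∑ i, (q1 i : ℝ) * ω i + ∑ l, (a l : ℝ) * ((un B (e t l) : ℝ))⁻¹ - p1 := by
        push_cast
        ring
      rw [e2]
      refine ht.trans (Real.exp_le_exp.2 ?_)
      have := mul_nonneg (Nat.cast_nonneg M : (0 : ℝ) ≤ M) (Real.log_nonneg hHt.1)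
      linarith
  obtain ⟨β0, hβ0b, hβ0n⟩ := hβ0
  -- the subspace theorem
  obtain ⟨A, hA0, hA⟩ := sub_finM (ι := {β : Ix k M // β ∈ b}) B N hN F
    (fun β t => XX B N e g q p β.1 t)
    (fun i j => if i.1 = Sum.inr β0 then C j.1 else if i = j then 1 else 0)
    (by
      intro i j
      split_ifs
      · exact hCmem _
      · exact F.one_mem
      · exact F.zero_mem)
    (by
      intro c hc
      have h0 : c ⟨Sum.inr β0, hβ0b⟩ = 0 := by
        have h1 := hc ⟨Sum.inr β0, hβ0b⟩
        rw [Finset.sum_eq_single ⟨Sum.inr β0, hβ0b⟩] at h1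
        · simp only [if_true] at h1
          exact (mul_eq_zero.1 h1).resolve_right (hC0 _ hβ0b)
        · intro i _ hi
          have h2 : i.1 ≠ Sum.inr β0 := fun h => hi (Subtype.ext h)
          rw [if_neg h2, if_neg hi, mul_zero]
        · intro h
          exact absurd (Finset.mem_univ _) h
      intro j
      by_cases hj : j.1 = Sum.inr β0
      · have : j = ⟨Sum.inr β0, hβ0b⟩ := Subtype.ext hj
        rw [this]
        exact h0
      · have h1 := hc j
        rw [Finset.sum_eq_single j] at h1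
        · rw [if_neg hj, if_pos rfl, mul_one] at h1
          exact h1
        · intro i _ hi
          by_cases h2 : i.1 = Sum.inr β0
          · have : i = ⟨Sum.inr β0, hβ0b⟩ := Subtype.ext h2
            rw [this, h0, zero_mul]
          · rw [if_neg h2, if_neg hi, mul_zero]
        · intro h
          exact absurd (Finset.mem_univ _) h)
    (fun v β => match β.1 with
      | Sum.inl l => 1 - ν v l
      | Sum.inr none => 1
      | Sum.inr (some _) => 1 + γ v)
    (fun β => if β.1 = Sum.inr β0 then -m + M * ρ + δ else match β.1 with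
      | Sum.inl l => -(∑ v, (1 - ν v l))
      | Sum.inr none => 0
      | Sum.inr (some _) => -(m + ∑ v, γ v + ρ))
    (by
      intro v β ε hε
      obtain ⟨β, hβ⟩ := β
      rcases β with l | _ | i
      · exact wt_sub B k N hN e he ν hν v l ε hε
      · exact wt_unit B N hN v ε hε _ fun t => dvd_mul_right _ _
      · show ∀ᶠ t in (UU : Filter ℕ), ∃ k : ℕ, (B.P v : ℤ) ^ k ∣
            un B (fun v => EE B (N t) v + g t v) * q t i ∧ (1 + γ v - ε) * N t ≤ k * Real.log (B.P v)
        have h1 := ev_of_atTop (hN.eventually_ge_atTop (Real.log (B.P v) / (ε / 2)))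
        filter_upwards [h1, hγ v (ε / 2) (by positivity)] with t ht hγt
        refine ⟨EE B (N t) v + g t v, ?_, ?_⟩
        · refine Dvd.dvd.mul_right ?_ _
          unfold un
          exact Finset.dvd_prod_of_mem (fun v => (B.P v : ℤ) ^ (EE B (N t) v + g t v))
            (Finset.mem_univ v)
        · have h2 := EE_ge B (N t) v
          rw [div_le_iff₀ (by positivity)] at ht
          push_cast
          rw [add_mul]
          linarith [hγt.1])
    (by
      intro β ε hε
      obtain ⟨β, hβ⟩ := β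
      by_cases hββ : β = Sum.inr β0
      · simp only [hββ, if_true]
        filter_upwards [h, hform, he, hρ (ε / (M + 1)) (by positivity), hN0] with t ht hft het hρt hNt
        have e1 : ∑ j : {β : Ix k M // β ∈ b}, C j.1 * ((XX B N e g q p j.1 t : ℤ) : ℝ) =
            (un B (EE B (N t)) : ℝ) * ((un B (g t) : ℝ) * ∑ i, (q t i : ℝ) * ω i +
              ∑ l, (a l : ℝ) * ((un B (e t l) : ℝ))⁻¹ - p t) := by
          rw [hft, Finset.mul_sum]
          rw [Finset.sum_coe_sort b (fun j => C j * ((XX B N e g q p j t : ℤ) : ℝ))]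
          rw [← Finset.sum_subset (Finset.subset_univ b)]
          · refine Finset.sum_congr rfl fun j _ => ?_
            rw [XX_eq B N e g q p j t het]
            ring
          · intro j _ hj
            have : C j = 0 := by
              rw [hC]
              refine Finset.sum_eq_zero fun i _ => ?_
              rw [hTnb i j hj]
              simp
            rw [this]
            ring
        rw [e1, abs_mul, abs_of_pos (un_pos B _)]
        calc (un B (EE B (N t)) : ℝ) * _ ≤
            Real.exp (m * N t) * Real.exp (-(M * Real.log (H t)) - δ * N t) :=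
              mul_le_mul (U_le B _ hNt) ht (abs_nonneg _) (Real.exp_pos _).le
          _ ≤ _ := by
            rw [← Real.exp_add]
            apply Real.exp_le_exp.2
            have h1 : (M : ℝ) * ((ρ - ε / (M + 1)) * N t) ≤ M * Real.log (H t) :=
              mul_le_mul_of_nonneg_left hρt.1 (Nat.cast_nonneg M)
            have h2 : (M : ℝ) * (ε / (M + 1) * N t) ≤ ε * N t := by
              have : (M : ℝ) * (ε / (M + 1) * N t) = (M / (M + 1)) * (ε * N t) := by ring
              rw [this]
              apply mul_le_of_le_one_left (by positivity)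
              rw [div_le_one (by positivity)]
              linarith
            nlinarith
      · simp only [hββ, if_false]
        have e0 : ∀ t, ∑ j : {β : Ix k M // β ∈ b}, (if (⟨β, hβ⟩ : {β : Ix k M // β ∈ b}) = j
            then (1 : ℝ) else 0) * ((XX B N e g q p j.1 t : ℤ) : ℝ) =
            ((XX B N e g q p β t : ℤ) : ℝ) := by
          intro t
          rw [Finset.sum_eq_single ⟨β, hβ⟩]
          · simp
          · intro j _ hj
            rw [if_neg (fun h => hj h.symm), zero_mul]
          · intro h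
            exact absurd (Finset.mem_univ _) h
        simp only [e0]
        rcases β with l | _ | i
        · exact wt_size B k N hN e he ν hν l ε hε
        · exact absurd (by rw [hβ0n hβ]) hββ
        · filter_upwards [hqH, hH, hρ (ε / 2) (by positivity), Filter.eventually_all.2 fun v =>
            hγ v (ε / (2 * (m + 1))) (by positivity), hN0] with t hqt hHt hρt hγt hNt
          show |((un B (fun v => EE B (N t) v + g t v) * q t i : ℤ) : ℝ)| ≤
            Real.exp (-(-(m + ∑ v, γ v + ρ) - ε) * N t)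
          rw [un_add]
          push_cast
          have hH0 : 0 < H t := by linarith [hHt.1]
          rw [abs_mul, abs_mul, abs_of_pos (un_pos B _), abs_of_pos (un_pos B _)]
          have h1 : (un B (g t) : ℝ) ≤ Real.exp ((∑ v, γ v + ε / 2) * N t) := by
            rw [← Real.exp_log (un_pos B (g t)), un_log]
            apply Real.exp_le_exp.2
            calc ∑ v, (g t v : ℝ) * Real.log (B.P v) ≤
                ∑ v : Fin m, (γ v * N t + ε / (2 * (m + 1)) * N t) :=
                  Finset.sum_le_sum fun v _ => by have := (hγt v).2; linarith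
              _ = (∑ v, γ v) * N t + m * (ε / (2 * (m + 1)) * N t) := by
                  rw [Finset.sum_add_distrib, ← Finset.sum_mul, Finset.sum_const,
                    Finset.card_univ, Fintype.card_fin, nsmul_eq_mul]
              _ ≤ _ := by
                  have : (m : ℝ) * (ε / (2 * (m + 1)) * N t) = (m / (m + 1)) * (ε / 2 * N t) := by
                    field_simp
                  rw [this, add_mul]
                  have h3 : ((m : ℝ) / (m + 1)) * (ε / 2 * N t) ≤ ε / 2 * N t := by
                    apply mul_le_of_le_one_left (by positivity)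
                    rw [div_le_one (by positivity)]
                    linarith
                  linarith
          have h2 : |(q t i : ℝ)| ≤ Real.exp ((ρ + ε / 2) * N t) := by
            refine (hqt i).trans ?_
            rw [← Real.exp_log hH0]
            exact Real.exp_le_exp.2 hρt.2
          calc (un B (EE B (N t)) : ℝ) * (un B (g t) : ℝ) * |(q t i : ℝ)| ≤
              Real.exp (m * N t) * Real.exp ((∑ v, γ v + ε / 2) * N t) *
                Real.exp ((ρ + ε / 2) * N t) := by
                refine mul_le_mul (mul_le_mul (U_le B _ hNt) h1 (un_pos B _).le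
                  (Real.exp_pos _).le) h2 (abs_nonneg _) (by positivity)
            _ = _ := by
              rw [← Real.exp_add, ← Real.exp_add]
              congr 1
              ring)
    (by
      rw [Finset.sum_comm, ← Finset.sum_add_distrib]
      have h1 : ∀ β : {β : Ix k M // β ∈ b},
          (if β.1 = Sum.inr β0 then (M * ρ + δ : ℝ) else 0) - cst ρ β.1 ≤
          (∑ v, (match β.1 with
            | Sum.inl l => 1 - ν v l
            | Sum.inr none => (1 : ℝ)
            | Sum.inr (some _) => 1 + γ v)) +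
          (if β.1 = Sum.inr β0 then -m + M * ρ + δ else match β.1 with
            | Sum.inl l => -(∑ v, (1 - ν v l))
            | Sum.inr none => 0
            | Sum.inr (some _) => -(m + ∑ v, γ v + ρ)) := by
        rintro ⟨β, hβ⟩
        have hγs : 0 ≤ ∑ v, γ v := Finset.sum_nonneg fun v _ => hγ0 v
        by_cases hββ : β = Sum.inr β0
        · subst hββ
          simp only [if_true]
          rcases β0 with _ | i
          · simp only [cst, Finset.sum_const, Finset.card_univ, Fintype.card_fin, nsmul_eq_mul]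
            linarith
          · simp only [cst, Finset.sum_add_distrib, Finset.sum_const, Finset.card_univ,
              Fintype.card_fin, nsmul_eq_mul]
            linarith
        · simp only [hββ, if_false]
          rcases β with l | _ | i
          · simp only [cst]
            linarith
          · exact absurd (by rw [hβ0n hβ]) hββ
          · simp only [cst, Finset.sum_add_distrib, Finset.sum_const, Finset.card_univ,
              Fintype.card_fin, nsmul_eq_mul]
            linarith
      refine lt_of_lt_of_le ?_ (Finset.sum_le_sum fun β _ => h1 β)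
      rw [Finset.sum_sub_distrib]
      have h2 : ∑ β : {β : Ix k M // β ∈ b}, (if β.1 = Sum.inr β0 then (M * ρ + δ : ℝ) else 0) =
          M * ρ + δ := by
        rw [Finset.sum_eq_single ⟨Sum.inr β0, hβ0b⟩]
        · simp
        · intro β _ hβ
          exact if_neg fun h => hβ (Subtype.ext h)
        · intro h
          exact absurd (Finset.mem_univ _) h
      have h3 : ∑ β : {β : Ix k M // β ∈ b}, cst ρ β.1 ≤ M * ρ := by
        rw [Finset.sum_coe_sort b (fun β : Ix k M => cst ρ β)]
        refine (Finset.sum_le_sum_of_subset_of_nonneg (Finset.subset_univ b) ?_).trans ?_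
        · intro β _ _
          rcases β with l | _ | i
          · exact le_rfl
          · exact le_rfl
          · exact hρ0
        · rw [Fintype.sum_sum_type, Fintype.sum_option]
          simp [cst]
      rw [h2]
      linarith)
  -- the relation contradicts the independence
  obtain ⟨A', hA'⟩ : ∃ A' : Ix k M → ℚ, ∀ i, A' i = if hi : i ∈ b then (A ⟨i, hi⟩ : ℚ) else 0 :=
    ⟨_, fun _ => rfl⟩
  have hA'0 := hTli A' (fun i hi => by rw [hA', dif_neg hi]) (by
    filter_upwards [hA, he] with t ht het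
    have h1 : (un B (EE B (N t)) : ℝ) * ∑ i, (A' i : ℝ) * zz B e g q p i t = 0 := by
      rw [Finset.mul_sum, ← Finset.sum_subset (Finset.subset_univ b)]
      · rw [← Finset.sum_coe_sort b (fun i => (un B (EE B (N t)) : ℝ) *
          ((A' i : ℝ) * zz B e g q p i t))]
        have h2 : ((∑ i : {β : Ix k M // β ∈ b}, A i * XX B N e g q p i.1 t : ℤ) : ℝ) = 0 := by
          rw [ht]
          simp
        rw [← h2]
        push_cast
        refine Finset.sum_congr rfl fun i _ => ?_
        rw [XX_eq B N e g q p i.1 t het, hA', dif_pos i.2]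
        push_cast
        ring
      · intro i _ hi
        rw [hA', dif_neg hi]
        simp
    exact (mul_eq_zero.1 h1).resolve_left (un_pos B _).ne')
  apply hA0
  funext i
  have h1 := congrFun hA'0 i.1
  rw [hA', dif_pos i.2] at h1
  simpa using h1

end Pool.Agent.Q50.SP
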