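import Pool.Agent.Q50.SP.Dual
import Pool.Agent.Q50.SP.Changes

/-!
# Integral linear combinations of algebraic numbers are not sums of numbers with few digit changes
-/

set_option autoImplicit false

namespace Pool.Agent.Q50.SP

open Filter Topology Pool.Agent.TH932.Abs Pool.Agent.TH932.Germs
open Pool.Agent.TH796.AL Finset
open Pool.Agent.H831R3.LC (dig dig_abs dig_eq A)

lemma Indep.mul {J : ℕ} {ξ : Fin J → ℝ} (h : Indep ξ) (D : ℕ) (hD : 1 ≤ D) :
    Indep (fun j => (D : ℝ) * ξ j) := by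
  intro d c hd
  have h1 := h (fun j => D * d j) c (by
    rw [← hd]
    refine Finset.sum_congr rfl fun j _ => ?_
    push_cast
    ring)
  funext j
  have := congrFun h1 j
  simp only [Pi.zero_apply, mul_eq_zero] at this
  rcases this with h2 | h2
  · exfalso
    have : (D : ℚ) ≠ 0 := by exact_mod_cast (by omega : D ≠ 0)
    exact this h2
  · exact h2

/-- **Integral linear combinations of algebraic numbers plus sparse sums.** -/
theorem dual_approx {m : ℕ} (B : Base m) (M : ℕ) (ω : Fin M → ℝ) (halg : ∀ i, IsAlgebraic ℚ (ω i))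
    (hind : Indep ω) (k C : ℕ) (δ : ℝ) (hδ : 0 < δ) :
    ∃ N₀ : ℝ, ∀ N : ℝ, N₀ ≤ N → ∀ e : Fin k → Fin m → ℕ,
      (∀ i v, (e i v : ℝ) * Real.log (B.P v) ≤ N) → ∀ a : Fin k → ℤ, (∀ i, |a i| ≤ C) →
      ∀ g : Fin m → ℕ, δ * Real.log (un B g) ≤ N →
      ∀ q : Fin M → ℤ, q ≠ 0 → ∀ H : ℝ, 1 ≤ H → Real.log H ≤ N → (∀ i, |(q i : ℝ)| ≤ H) → ∀ p : ℤ,
      Real.exp (-(M * Real.log H) - δ * N) <
        |(un B g : ℝ) * ∑ i, (q i : ℝ) * ω i + ∑ i, (a i : ℝ) * ((un B (e i) : ℝ))⁻¹ - p| := by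
  by_contra hcon
  push Not at hcon
  choose N hN e he a ha g hg q hq0 H hH1 hH2 hqH p hp using fun t : ℕ => hcon (t : ℝ)
  have hNt : Tendsto N atTop atTop := tendsto_atTop_mono hN tendsto_natCast_atTop_atTop
  have hfin : (Set.univ.pi fun _ : Fin k => Set.Icc (-(C : ℤ)) C).Finite :=
    Set.Finite.pi fun _ => Set.finite_Icc _ _
  have hex : ∀ᶠ t in (UU : Filter ℕ), ∃ A ∈ (Set.univ.pi fun _ : Fin k =>
      Set.Icc (-(C : ℤ)) C), a t = A := by
    filter_upwards with t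
    exact ⟨a t, fun i _ => abs_le.1 (ha t i), rfl⟩
  obtain ⟨A, -, hA⟩ := (Ultrafilter.eventually_exists_mem_iff hfin).1 hex
  refine dual_seq B N hNt δ hδ M k ω halg hind q p H g ?_ ?_ ?_ ?_ (fun i => A i) e ?_ ?_
  · filter_upwards with t
    exact hq0 t
  · filter_upwards with t
    exact hqH t
  · filter_upwards with t
    exact ⟨hH1 t, hH2 t⟩
  · filter_upwards with t
    exact hg t
  · filter_upwards with t
    exact he t
  · filter_upwards [hA] with t ht
    have := hp t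
    rw [ht] at this
    simpa using this

/-- **Integral linear combinations of algebraic numbers are not sums of numbers with few digit
changes.** -/
theorem sumsD (M : ℕ) (ω : Fin M → ℝ) (halg : ∀ i, IsAlgebraic ℚ (ω i)) (hind : Indep ω) (r : ℕ)
    (β : Fin r → ℕ) (hβ : ∀ j, 2 ≤ β j) (k : ℕ) (δ : ℝ) (hδ : 0 < δ) :
    ∃ N₀ : ℝ, ∀ N : ℝ, N₀ ≤ N → ∀ (c : Fin r → ℕ) (q : Fin M → ℤ) (H : ℝ), q ≠ 0 → 1 ≤ H →
      (∀ i, |(q i : ℝ)| ≤ H) →
      δ * Real.log (∏ j, (β j : ℝ) ^ c j) + (M + δ) * Real.log H ≤ N → ∀ y : Fin r → ℝ,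
      (∃ p : ℤ, ∑ j, y j = (∏ j, (β j : ℝ) ^ c j) * ∑ i, (q i : ℝ) * ω i + p) →
      ∃ j, k < (chs (β j) (y j) ⌊N / Real.log (β j)⌋₊).card := by
  classical
  obtain ⟨m, B, f, hf⟩ := base_of β hβ
  obtain ⟨D, hD⟩ : ∃ D : ℕ, D = ∏ j, (β j - 1) := ⟨_, rfl⟩
  have hD1 : 1 ≤ D := by
    rw [hD]
    have h0 : 0 < ∏ j, (β j - 1) := Finset.prod_pos fun j _ => by have := hβ j; omega
    exact h0
  obtain ⟨Dj, hDj⟩ : ∃ Dj : Fin r → ℕ, ∀ j, Dj j * (β j - 1) = D := by
    refine ⟨fun j => ∏ l ∈ univ.erase j, (β l - 1), fun j => ?_⟩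
    rw [hD, Finset.prod_erase_mul _ _ (mem_univ j)]
  have hDjD : ∀ j, Dj j ≤ D := by
    intro j
    rw [← hDj j]
    exact Nat.le_mul_of_pos_right _ (by have := hβ j; omega)
  obtain ⟨C, hC⟩ : ∃ C : ℕ, C = D * (2 * ∑ j, β j) := ⟨_, rfl⟩
  obtain ⟨δ', hδ'⟩ : ∃ δ' : ℝ, δ' = δ / (2 * (M + 1 + δ)) := ⟨_, rfl⟩
  have hδ'0 : 0 < δ' := by rw [hδ']; positivity
  have hδ'δ : δ' ≤ δ := by
    rw [hδ']
    apply div_le_self hδ.le
    have : (0 : ℝ) ≤ M := Nat.cast_nonneg M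
    linarith
  obtain ⟨N₁, hN₁⟩ := dual_approx B M (fun i => (D : ℝ) * ω i)
    (fun i => (isAlgebraic_natCast _).mul (halg i)) (hind.mul D hD1) (r * k) C δ' hδ'0
  obtain ⟨K, hK⟩ : ∃ K : ℝ, K = ∑ j, (D : ℝ) * (β j : ℝ) ^ 2 + 1 := ⟨_, rfl⟩
  have hK0 : 0 < K := by
    rw [hK]
    have : 0 ≤ ∑ j, (D : ℝ) * (β j : ℝ) ^ 2 := Finset.sum_nonneg fun j _ => by positivity
    linarith
  obtain ⟨T, hT⟩ : ∃ T : ℝ, T = ∑ j, Real.log (β j) := ⟨_, rfl⟩
  have hlβ : ∀ j, 0 < Real.log (β j) := fun j =>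
    Real.log_pos (by have := hβ j; exact_mod_cast (by omega : 1 < β j))
  have hTj : ∀ j, Real.log (β j) ≤ T := by
    intro j
    rw [hT]
    exact Finset.single_le_sum (f := fun j => Real.log (β j)) (fun j _ => (hlβ j).le) (mem_univ j)
  refine ⟨max (max N₁ 0) (max T (|Real.log K| / δ' + 1)), fun N hN c q H hq0 hH1 hqH hqN y hy => ?_⟩
  have hNN : N₁ ≤ N := ((le_max_left _ _).trans (le_max_left _ _)).trans hN
  have hN0 : 0 ≤ N := ((le_max_right _ _).trans (le_max_left _ _)).trans hN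
  have hNT : T ≤ N := ((le_max_left _ _).trans (le_max_right _ _)).trans hN
  have hNK : |Real.log K| / δ' + 1 ≤ N := ((le_max_right _ _).trans (le_max_right _ _)).trans hN
  obtain ⟨p, hp⟩ := hy
  by_contra hcon
  push Not at hcon
  have hlH : 0 ≤ Real.log H := Real.log_nonneg hH1
  have hM1 : (1 : ℝ) ≤ M := by
    have : M ≠ 0 := by
      rintro rfl
      apply hq0
      funext i
      exact i.elim0
    exact_mod_cast Nat.one_le_iff_ne_zero.2 this
  -- the multiplier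
  obtain ⟨g, hg⟩ : ∃ g : Fin m → ℕ, (un B g : ℝ) = ∏ j, (β j : ℝ) ^ c j := by
    refine ⟨fun v => ∑ j, c j * f j v, ?_⟩
    have h1 : (un B (fun v => ∑ j, c j * f j v) : ℝ) = ∏ j, (un B (fun v => c j * f j v) : ℝ) := by
      unfold un
      push_cast
      rw [Finset.prod_comm]
      refine Finset.prod_congr rfl fun v _ => ?_
      rw [Finset.prod_pow_eq_pow_sum]
    rw [h1]
    exact Finset.prod_congr rfl fun j _ => (hf j (c j)).1
  have hlg : 0 ≤ Real.log (∏ j, (β j : ℝ) ^ c j) := by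
    rw [← hg]
    exact Real.log_nonneg (un_one_le B g)
  have hgN : δ' * Real.log (un B g) ≤ N := by
    rw [hg]
    have h1 := mul_le_mul_of_nonneg_right hδ'δ hlg
    have h2 : 0 ≤ (M + δ) * Real.log H := by positivity
    linarith
  have hHN : (M + δ) * Real.log H ≤ N := by
    have : 0 ≤ δ * Real.log (∏ j, (β j : ℝ) ^ c j) := by positivity
    linarith
  obtain ⟨n, hn⟩ : ∃ n : Fin r → ℕ, ∀ j, n j = ⌊N / Real.log (β j)⌋₊ := ⟨_, fun _ => rfl⟩
  have hnle : ∀ j, (n j : ℝ) * Real.log (β j) ≤ N := by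
    intro j
    have := Nat.floor_le (a := N / Real.log (β j)) (div_nonneg hN0 (hlβ j).le)
    rw [le_div_iff₀ (hlβ j), ← hn j] at this
    exact this
  have hnge : ∀ j, N - Real.log (β j) ≤ (n j : ℝ) * Real.log (β j) := by
    intro j
    have := (Nat.lt_floor_add_one (N / Real.log (β j))).le
    rw [div_le_iff₀ (hlβ j), ← hn j] at this
    linarith
  have hn1 : ∀ j, 1 ≤ n j := by
    intro j
    rw [hn j]
    apply Nat.le_floor
    rw [le_div_iff₀ (hlβ j)]
    have := hTj j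
    push_cast
    linarith
  have hcard : ∀ j, (chs (β j) (y j) (n j)).card ≤ k := by
    intro j
    rw [hn j]
    exact hcon j
  choose pl u hu hpl hsum using fun j => enum k (chs (β j) (y j) (n j)) (hcard j)
  have hpln : ∀ j l, (pl j l : ℝ) * Real.log (β j) ≤ N := by
    intro j l
    rcases hpl j l with h | h
    · unfold chs at h
      rw [mem_filter, mem_Ico] at h
      have h1 : (pl j l : ℝ) ≤ n j := by exact_mod_cast h.1.2.le
      exact (mul_le_mul_of_nonneg_right h1 (hlβ j).le).trans (hnle j)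
    · rw [h]
      simpa using hN0
  -- the coefficients
  obtain ⟨Δ, hΔ⟩ : ∃ Δ : Fin r → ℕ → ℤ, ∀ j i, Δ j i =
      dig (y j) (β j) (i + 1) - dig (y j) (β j) i := ⟨_, fun _ _ => rfl⟩
  have hΔb : ∀ j i, |Δ j i| ≤ 2 * β j := by
    intro j i
    rw [hΔ]
    have h1 := dig_abs (y j) (β j) (by have := hβ j; omega) (i + 1)
    have h2 := dig_abs (y j) (β j) (by have := hβ j; omega) i
    have h3 := abs_sub (dig (y j) (β j) (i + 1)) (dig (y j) (β j) i)
    linarith
  have hfin := hN₁ N hNN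
    (fun z v => pl (finProdFinEquiv.symm z).1 (finProdFinEquiv.symm z).2 *
      f (finProdFinEquiv.symm z).1 v)
    (fun z v => ((hf _ _).2 v).trans (hpln _ _))
    (fun z => -(Dj (finProdFinEquiv.symm z).1 * (u (finProdFinEquiv.symm z).1
      (finProdFinEquiv.symm z).2 * Δ (finProdFinEquiv.symm z).1
        (pl (finProdFinEquiv.symm z).1 (finProdFinEquiv.symm z).2))))
    (fun z => by
      obtain ⟨j, hj⟩ : ∃ j, j = (finProdFinEquiv.symm z).1 := ⟨_, rfl⟩
      obtain ⟨l, hl⟩ : ∃ l, l = (finProdFinEquiv.symm z).2 := ⟨_, rfl⟩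
      rw [← hj, ← hl, abs_neg, abs_mul, abs_mul, Nat.abs_cast]
      have h1 := hu j l
      have h2 := hΔb j (pl j l)
      have h3 : |u j l| * |Δ j (pl j l)| ≤ 1 * (2 * β j) :=
        mul_le_mul h1 h2 (abs_nonneg _) (by norm_num)
      have h4 : (Dj j : ℤ) ≤ D := by exact_mod_cast hDjD j
      have h5 : (β j : ℤ) ≤ ((∑ j, β j : ℕ) : ℤ) := by
        exact_mod_cast Finset.single_le_sum (f := β) (fun j _ => Nat.zero_le _) (mem_univ j)
      calc (Dj j : ℤ) * (|u j l| * |Δ j (pl j l)|) ≤ D * (2 * ((∑ j, β j : ℕ) : ℤ)) :=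
            mul_le_mul h4 (h3.trans (by linarith)) (by positivity) (by positivity)
        _ = (C : ℤ) := by rw [hC]; push_cast; ring)
    g hgN q hq0 H hH1 (by nlinarith) hqH
    (∑ j, (Dj j : ℤ) * ((β j - 1) * ⌊y j⌋ + dig (y j) (β j) 1) - D * p)
  -- the error
  have e1 : (un B g : ℝ) * ∑ i, (q i : ℝ) * (D * ω i) + ∑ z : Fin (r * k),
      ((-(Dj (finProdFinEquiv.symm z).1 * (u (finProdFinEquiv.symm z).1
      (finProdFinEquiv.symm z).2 * Δ (finProdFinEquiv.symm z).1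
        (pl (finProdFinEquiv.symm z).1 (finProdFinEquiv.symm z).2))) : ℤ) : ℝ) *
      ((un B (fun v => pl (finProdFinEquiv.symm z).1 (finProdFinEquiv.symm z).2 *
      f (finProdFinEquiv.symm z).1 v) : ℝ))⁻¹ -
      ((∑ j, (Dj j : ℤ) * ((β j - 1) * ⌊y j⌋ + dig (y j) (β j) 1) - D * p : ℤ) : ℝ) =
      ∑ j, (Dj j : ℝ) * (((β j : ℝ) - 1) * y j -
        (((β j - 1) * ⌊y j⌋ + dig (y j) (β j) 1 : ℤ) : ℝ) -
        ∑ i ∈ chs (β j) (y j) (n j), ((Δ j i : ℤ) : ℝ) * ((β j : ℝ) ^ i)⁻¹) := by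
    rw [← Equiv.sum_comp (finProdFinEquiv (m := r) (n := k)), Fintype.sum_prod_type]
    simp only [Equiv.symm_apply_apply]
    have e2 : ∀ j : Fin r, ∑ l : Fin k, ((-(Dj j * (u j l * Δ j (pl j l))) : ℤ) : ℝ) *
        ((un B (fun v => pl j l * f j v) : ℝ))⁻¹ =
        -((Dj j : ℝ) * ∑ i ∈ chs (β j) (y j) (n j), ((Δ j i : ℤ) : ℝ) * ((β j : ℝ) ^ i)⁻¹) := by
      intro j
      rw [← hsum j (fun i => ((Δ j i : ℤ) : ℝ) * ((β j : ℝ) ^ i)⁻¹), Finset.mul_sum,
        ← Finset.sum_neg_distrib]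
      refine Finset.sum_congr rfl fun l _ => ?_
      rw [(hf j (pl j l)).1]
      push_cast
      ring
    rw [Finset.sum_congr rfl fun j _ => e2 j]
    have e3 : (D : ℝ) * ∑ j, y j = ∑ j, (Dj j : ℝ) * (((β j : ℝ) - 1) * y j) := by
      rw [Finset.mul_sum]
      refine Finset.sum_congr rfl fun j _ => ?_
      have h1 : (D : ℝ) = Dj j * ((β j : ℝ) - 1) := by
        rw [← hDj j, Nat.cast_mul, Nat.cast_sub (by have := hβ j; omega)]
        simp
      rw [h1]
      ring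
    have e4 : (un B g : ℝ) * ∑ i, (q i : ℝ) * (D * ω i) = D * ∑ j, y j - D * p := by
      have e5 : ∑ i, (q i : ℝ) * (D * ω i) = D * ∑ i, (q i : ℝ) * ω i := by
        rw [Finset.mul_sum]
        exact Finset.sum_congr rfl fun i _ => by ring
      rw [hp, e5, hg]
      ring
    rw [e4, e3]
    simp only [mul_sub, Finset.sum_sub_distrib, Finset.sum_neg_distrib]
    push_cast
    ring
  rw [e1] at hfin
  have h6 : |∑ j, (Dj j : ℝ) * (((β j : ℝ) - 1) * y j -
        (((β j - 1) * ⌊y j⌋ + dig (y j) (β j) 1 : ℤ) : ℝ) -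
        ∑ i ∈ chs (β j) (y j) (n j), ((Δ j i : ℤ) : ℝ) * ((β j : ℝ) ^ i)⁻¹)| ≤
      K * Real.exp (-N) := by
    refine (Finset.abs_sum_le_sum_abs _ _).trans ?_
    calc ∑ j, |(Dj j : ℝ) * (((β j : ℝ) - 1) * y j -
        (((β j - 1) * ⌊y j⌋ + dig (y j) (β j) 1 : ℤ) : ℝ) -
        ∑ i ∈ chs (β j) (y j) (n j), ((Δ j i : ℤ) : ℝ) * ((β j : ℝ) ^ i)⁻¹)| ≤
        ∑ j, (D : ℝ) * (β j : ℝ) ^ 2 * Real.exp (-N) := by
          refine Finset.sum_le_sum fun j _ => ?_
          rw [abs_mul, Nat.abs_cast]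
          have h7 := changes_repr (β j) (hβ j) (y j) (n j) (hn1 j)
          simp only [← hΔ] at h7
          have h8 : (β j : ℝ) * ((β j : ℝ) ^ n j)⁻¹ ≤ (β j : ℝ) ^ 2 * Real.exp (-N) := by
            have hβ0 : (0 : ℝ) < β j := by have := hβ j; positivity
            have h9 : (β j : ℝ) ^ n j = Real.exp (n j * Real.log (β j)) := rpow_exp _ (hβ j) _
            have h10 : ((β j : ℝ) ^ n j)⁻¹ ≤ β j * Real.exp (-N) := by
              rw [h9, ← Real.exp_neg]
              nth_rw 2 [← Real.exp_log hβ0]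
              rw [← Real.exp_add]
              apply Real.exp_le_exp.2
              have := hnge j
              linarith
            calc (β j : ℝ) * ((β j : ℝ) ^ n j)⁻¹ ≤ β j * (β j * Real.exp (-N)) :=
                  mul_le_mul_of_nonneg_left h10 hβ0.le
              _ = _ := by ring
          have h11 : (Dj j : ℝ) ≤ D := by exact_mod_cast hDjD j
          calc _ ≤ (D : ℝ) * ((β j : ℝ) ^ 2 * Real.exp (-N)) :=
                mul_le_mul h11 (h7.trans h8) (abs_nonneg _) (Nat.cast_nonneg _)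
            _ = _ := by ring
      _ ≤ K * Real.exp (-N) := by
          rw [← Finset.sum_mul, hK]
          apply mul_le_mul_of_nonneg_right _ (Real.exp_pos _).le
          linarith
  have h7 := lt_of_lt_of_le hfin h6
  have h8 := Real.log_lt_log (Real.exp_pos _) h7
  rw [Real.log_exp, Real.log_mul hK0.ne' (Real.exp_pos _).ne', Real.log_exp] at h8
  have h9 : |Real.log K| ≤ δ' * (N - 1) := by
    have : |Real.log K| / δ' ≤ N - 1 := by linarith
    rw [div_le_iff₀ hδ'0] at this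
    linarith
  have h10 := le_abs_self (Real.log K)
  have h11 : (M : ℝ) * Real.log H ≤ (1 - 2 * δ') * N := by
    have h12 : (M + δ) * ((1 - 2 * δ') * N) ≥ M * N := by
      have h13 : 1 - 2 * δ' = (M + 1) / (M + 1 + δ) := by
        rw [hδ']
        field_simp
        ring
      rw [h13]
      have h14 : (M : ℝ) ≤ (M + δ) * ((M + 1) / (M + 1 + δ)) := by
        rw [mul_div_assoc', le_div_iff₀ (by positivity)]
        nlinarith
      nlinarith
    have h15 : (M + δ) * (M * Real.log H) ≤ (M + δ) * ((1 - 2 * δ') * N) := by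
      have : (M : ℝ) * ((M + δ) * Real.log H) ≤ M * N :=
        mul_le_mul_of_nonneg_left hHN (Nat.cast_nonneg M)
      linarith
    exact le_of_mul_le_mul_left h15 (by positivity)
  nlinarith

end Pool.Agent.Q50.SP
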