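import Pool.Agent.Q50.SP.Mult

/-!
# Bases of finite families of germs along the ultrafilter
-/

set_option autoImplicit false

namespace Pool.Agent.Q50.SP

open Filter Topology Pool.Agent.TH932.Abs Pool.Agent.TH932.Germs

/-- the functions which vanish along the ultrafilter -/
def Null : Submodule ℚ (ℕ → ℝ) where
  carrier := {f | ∀ᶠ t in (UU : Filter ℕ), f t = 0}
  add_mem' := by
    intro f g hf hg
    filter_upwards [hf, hg] with t h1 h2
    simp [h1, h2]
  zero_mem' := by
    show ∀ᶠ t in (UU : Filter ℕ), (0 : ℕ → ℝ) t = 0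
    filter_upwards with t
    rfl
  smul_mem' := by
    intro c f hf
    show ∀ᶠ t in (UU : Filter ℕ), (c • f) t = 0
    have hf' : ∀ᶠ t in (UU : Filter ℕ), f t = 0 := hf
    filter_upwards [hf'] with t h1
    simp [h1]

lemma mem_Null (f : ℕ → ℝ) : f ∈ Null ↔ ∀ᶠ t in (UU : Filter ℕ), f t = 0 := Iff.rfl

/-- a basis of the germs `z i`, which begins with a basis of those with index in `s` -/
lemma exists_basis {ι : Type} [Fintype ι] [DecidableEq ι] (z : ι → ℕ → ℝ) (s : Set ι) :
    ∃ (b : Finset ι) (T : ι → ι → ℚ),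
      (∀ c : ι → ℚ, (∀ i ∉ b, c i = 0) →
        (∀ᶠ t in (UU : Filter ℕ), ∑ i, (c i : ℝ) * z i t = 0) → c = 0) ∧
      (∀ i, ∀ᶠ t in (UU : Filter ℕ), z i t = ∑ β, (T i β : ℝ) * z β t) ∧
      (∀ i ∈ s, ∀ β ∉ s, T i β = 0) ∧
      (∀ i ∈ b, T i i = 1) ∧ (∀ i, ∀ β ∉ b, T i β = 0) := by
  classical
  obtain ⟨v, hv⟩ : ∃ v : ι → ((ℕ → ℝ) ⧸ Null), v = fun i => Null.mkQ (z i) := ⟨_, rfl⟩
  obtain ⟨b₁, hb₁s, -, hspan1, hli1⟩ := exists_linearIndepOn_extension (K := ℚ) (v := v)
    (linearIndepOn_empty ℚ v) (Set.empty_subset s)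
  obtain ⟨b, -, hb₁b, hspan, hli⟩ := exists_linearIndepOn_extension (K := ℚ) (v := v)
    hli1 (Set.subset_univ b₁)
  have hrep : ∀ (b' : Set ι) (i : ι), v i ∈ Submodule.span ℚ (v '' b') →
      ∃ c : ι → ℚ, (∀ β ∉ b', c β = 0) ∧
        ∀ᶠ t in (UU : Filter ℕ), z i t = ∑ β, (c β : ℝ) * z β t := by
    intro b' i hi
    rw [Finsupp.mem_span_image_iff_linearCombination] at hi
    obtain ⟨l, hl, hl2⟩ := hi
    refine ⟨l, fun β hβ => ?_, ?_⟩
    · by_contra h
      exact hβ (hl (by simpa using h))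
    · rw [Finsupp.linearCombination_apply, Finsupp.sum_fintype _ _ (by simp)] at hl2
      have h1 : Null.mkQ (∑ β, l β • z β - z i) = 0 := by
        rw [map_sub, map_sum, sub_eq_zero]
        simp only [map_smul]
        rw [hv] at hl2
        exact hl2
      rw [Submodule.mkQ_apply, Submodule.Quotient.mk_eq_zero, mem_Null] at h1
      filter_upwards [h1] with t ht
      have h2 : (∑ β, l β • z β - z i) t = ∑ β, (l β : ℝ) * z β t - z i t := by
        simp only [Pi.sub_apply, Finset.sum_apply, Pi.smul_apply, Rat.smul_def]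
      rw [h2] at ht
      linarith
  have h1 : ∀ i, ∃ c : ι → ℚ, (∀ᶠ t in (UU : Filter ℕ), z i t = ∑ β, (c β : ℝ) * z β t) ∧
      (i ∈ s → ∀ β ∉ s, c β = 0) ∧ (i ∈ b → c i = 1) ∧ ∀ β ∉ b, c β = 0 := by
    intro i
    by_cases hib : i ∈ b
    · refine ⟨Pi.single i 1, ?_, ?_, ?_, ?_⟩
      · filter_upwards with t
        rw [Finset.sum_eq_single i]
        · simp
        · intro β _ hβ
          simp [Pi.single_eq_of_ne hβ]
        · simp
      · intro his β hβ
        exact Pi.single_eq_of_ne (by rintro rfl; exact hβ his) _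
      · intro _
        simp
      · intro β hβ
        exact Pi.single_eq_of_ne (by rintro rfl; exact hβ hib) _
    · by_cases his : i ∈ s
      · obtain ⟨c, hc1, hc2⟩ := hrep b₁ i (hspan1 ⟨i, his, rfl⟩)
        exact ⟨c, hc2, fun _ β hβ => hc1 β fun h => hβ (hb₁s h), fun h => absurd h hib,
          fun β hβ => hc1 β fun h => hβ (hb₁b h)⟩
      · obtain ⟨c, hc1, hc2⟩ := hrep b i (hspan ⟨i, Set.mem_univ _, rfl⟩)
        exact ⟨c, hc2, fun h => absurd h his, fun h => absurd h hib, hc1⟩
  choose T hT1 hT2 hT3 hT4 using h1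
  refine ⟨b.toFinset, T, ?_, hT1, hT2, ?_, ?_⟩
  · intro c hc h
    have h2 : ∑ i ∈ b.toFinset, c i • v i = 0 := by
      have h3 : Null.mkQ (∑ i ∈ b.toFinset, c i • z i) = 0 := by
        rw [Submodule.mkQ_apply, Submodule.Quotient.mk_eq_zero, mem_Null]
        filter_upwards [h] with t ht
        rw [Finset.sum_apply]
        rw [← ht]
        have h4 : ∑ i, (c i : ℝ) * z i t = ∑ i ∈ b.toFinset, (c i : ℝ) * z i t := by
          symm
          apply Finset.sum_subset (Finset.subset_univ _)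
          intro i _ hi
          rw [hc i (by simpa using hi)]
          simp
        rw [h4]
        refine Finset.sum_congr rfl fun i _ => ?_
        rw [Pi.smul_apply, Rat.smul_def]
      rw [map_sum] at h3
      simp only [map_smul] at h3
      rw [hv]
      exact h3
    rw [linearIndepOn_iff'] at hli
    have h5 := hli b.toFinset c (by simp) h2
    funext i
    by_cases hi : i ∈ b.toFinset
    · exact h5 i hi
    · exact hc i hi
  · intro i hi
    exact hT3 i (by simpa using hi)
  · intro i β hβ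
    exact hT4 i β (by simpa using hβ)

end Pool.Agent.Q50.SP
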