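import Pool.Agent.Q50.SP.Sum

/-!
# Simultaneous rational approximation of sparse perturbations of algebraic numbers
-/

set_option autoImplicit false

namespace Pool.Agent.Q50.SP

open Filter Topology Pool.Agent.TH932.Abs Pool.Agent.TH932.Germs
open Pool.Agent.TH796.AL

/-- `1` and the `ξ j` are linearly independent over `ℚ` -/
def Indep {J : ℕ} (ξ : Fin J → ℝ) : Prop :=
  ∀ (d : Fin J → ℚ) (c : ℚ), ∑ j, (d j : ℝ) * ξ j = c → d = 0

lemma Indep.shift {J : ℕ} {ξ : Fin J → ℝ} (h : Indep ξ) (r : Fin J → ℚ) :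
    Indep (fun j => ξ j + r j) := by
  intro d c hd
  refine h d (c - ∑ j, d j * r j) ?_
  push_cast
  rw [← hd, ← Finset.sum_sub_distrib]
  refine Finset.sum_congr rfl fun j _ => ?_
  ring

/-- the sizes of the denominators -/
lemma dens (b : ℕ) (hb : 2 ≤ b) (N q : ℕ → ℕ) (hN : Tendsto N atTop atTop)
    (hq : ∀ᶠ t in (UU : Filter ℕ), 1 ≤ q t ∧ q t ≤ b ^ N t) :
    ∃ ρ : ℝ, ∀ ε : ℝ, 0 < ε → ∀ᶠ t in (UU : Filter ℕ),
      (ρ - ε) * (N t * Real.log b) ≤ Real.log (q t) ∧
        Real.log (q t) ≤ (ρ + ε) * (N t * Real.log b) := by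
  have hlb : 0 < Real.log b := Real.log_pos (by exact_mod_cast (by omega : 1 < b))
  have hpos : ∀ᶠ t in (UU : Filter ℕ), 1 ≤ N t := ev_of_atTop (hN.eventually_ge_atTop 1)
  obtain ⟨x, -, hx⟩ := ulim (fun t => Real.log (q t) / (N t * Real.log b)) 0 1 (by
    filter_upwards [hq, hpos] with t ht hN1
    have hN0 : (0 : ℝ) < N t := by exact_mod_cast hN1
    have hq1 : (1 : ℝ) ≤ q t := by exact_mod_cast ht.1
    refine ⟨div_nonneg (Real.log_nonneg hq1) (by positivity), ?_⟩
    rw [div_le_one (by positivity), ← Real.log_pow]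
    exact Real.log_le_log (by linarith) (by exact_mod_cast ht.2))
  refine ⟨x, fun ε hε => ?_⟩
  filter_upwards [near hx ε hε, hpos] with t ht hN1
  have hN0 : (0 : ℝ) < N t * Real.log b := by
    have : (0 : ℝ) < N t := by exact_mod_cast hN1
    positivity
  rw [le_div_iff₀ hN0, div_le_iff₀ hN0] at ht
  exact ht

/-- a common linear relation with large coefficients is absorbed -/
lemma absorb_const (L : ℕ → ℝ) (hL : Tendsto L atTop atTop) (C δ : ℝ) (hδ : 0 < δ) :
    ∀ᶠ t in (UU : Filter ℕ), C * Real.exp (-δ * L t) ≤ Real.exp (-(δ / 2) * L t) := by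
  apply ev_of_atTop
  have h1 : Tendsto (fun t => Real.exp (δ / 2 * L t)) atTop atTop :=
    Real.tendsto_exp_atTop.comp (hL.const_mul_atTop (by positivity))
  filter_upwards [h1.eventually_ge_atTop C] with t ht
  have e : Real.exp (-(δ / 2) * L t) = Real.exp (δ / 2 * L t) * Real.exp (-δ * L t) := by
    rw [← Real.exp_add]
    ring_nf
  rw [e]
  exact mul_le_mul_of_nonneg_right ht (Real.exp_pos _).le

/-- the linear relation given by the subspace theorem -/
theorem relation (b : ℕ) (hb : 2 ≤ b) (J : ℕ) (hJ : 1 ≤ J) (N : ℕ → ℕ)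
    (hN : Tendsto N atTop atTop) (δ : ℝ) (hδ : 0 < δ) (q : ℕ → ℕ) (p : ℕ → Fin J → ℤ)
    (hq : ∀ᶠ t in (UU : Filter ℕ), 1 ≤ q t ∧ q t ≤ b ^ N t) (k : ℕ)
    (ξ : Fin J → ℝ) (halg : ∀ j, IsAlgebraic ℚ (ξ j)) (a : Fin k → Fin J → ℚ)
    (n : ℕ → Fin k → ℕ) (hn : ∀ᶠ t in (UU : Filter ℕ), ∀ i, n t i ≤ N t)
    (h : ∀ᶠ t in (UU : Filter ℕ), ∀ j,
        |(q t : ℝ) * (ξ j + ∑ i, (a i j : ℝ) * ((b : ℝ) ^ n t i)⁻¹) - p t j| ≤
          Real.exp (-(((k : ℝ) + 1) / J * Real.log (q t)) - δ * (N t * Real.log b))) :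
    ∃ (A : ℤ) (B : Fin k → ℤ) (D : Fin J → ℤ), (A ≠ 0 ∨ B ≠ 0 ∨ D ≠ 0) ∧
      ∀ᶠ t in (UU : Filter ℕ), (q t : ℝ) * (A + ∑ i, (B i : ℝ) * ((b : ℝ) ^ n t i)⁻¹) +
        ∑ j, (D j : ℝ) * p t j = 0 := by
  have hlb : 0 < Real.log b := Real.log_pos (by exact_mod_cast (by omega : 1 < b))
  have hbR : (0 : ℝ) < b := by positivity
  have hJ0 : (0 : ℝ) < J := by exact_mod_cast hJ
  obtain ⟨ρ, hρ⟩ := dens b hb N q hN hq
  obtain ⟨ν, hν⟩ := exps k N hN n hn
  have hLN : ∀ t, (0 : ℝ) ≤ N t * Real.log b := fun t => by positivity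
  obtain ⟨F, hF, hξF⟩ := exists_field ξ halg
  have := hF
  have hscale : ∀ t, (((b : ℤ) ^ N t : ℤ) : ℝ) = (b : ℝ) ^ N t := fun t => by push_cast; rfl
  obtain ⟨R, hR0, hR⟩ := sub_fin (ι := Option (Fin k) ⊕ Fin J) b hb
    (fun t => (N t : ℝ) * Real.log b) (tendsto_L b hb N hN) F
    (fun i t => match i with
      | Sum.inl none => (b : ℤ) ^ N t * q t
      | Sum.inl (some i) => (b : ℤ) ^ (N t - n t i) * q t
      | Sum.inr j => (b : ℤ) ^ N t * p t j)
    (fun i j => match i, j with
      | Sum.inl i, Sum.inl j => if i = j then 1 else 0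
      | Sum.inl _, Sum.inr _ => 0
      | Sum.inr i, Sum.inl none => ξ i
      | Sum.inr i, Sum.inl (some j) => a j i
      | Sum.inr i, Sum.inr j => if i = j then -1 else 0)
    (by
      intro i j
      rcases i with i | i <;> rcases j with (_ | j) | j
      · show (if i = none then (1 : ℝ) else 0) ∈ F
        split_ifs
        · exact F.one_mem
        · exact F.zero_mem
      · show (if i = some j then (1 : ℝ) else 0) ∈ F
        split_ifs
        · exact F.one_mem
        · exact F.zero_mem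
      · exact F.zero_mem
      · exact hξF i
      · exact rat_mem F _
      · show (if i = j then (-1 : ℝ) else 0) ∈ F
        split_ifs
        · exact F.neg_mem F.one_mem
        · exact F.zero_mem)
    (by
      intro c hc
      have h0 : ∀ i, c (Sum.inr i) = 0 := by
        intro i
        have h1 := hc (Sum.inr i)
        rw [Fintype.sum_sum_type] at h1
        simpa using h1
      intro i
      rcases i with i | i
      · have h1 := hc (Sum.inl i)
        rw [Fintype.sum_sum_type] at h1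
        simp only [h0, zero_mul, Finset.sum_const_zero, add_zero] at h1
        simpa using h1
      · exact h0 i)
    (fun i => match i with
      | Sum.inl none => 1
      | Sum.inl (some i) => 1 - ν i
      | Sum.inr _ => 1)
    (fun i => match i with
      | Sum.inl none => -(1 + ρ)
      | Sum.inl (some i) => -(1 - ν i + ρ)
      | Sum.inr _ => -1 + (k + 1) / J * ρ + δ)
    (by
      intro i ε hε
      rcases i with (_ | i) | i
      · filter_upwards with t
        refine ⟨N t, dvd_mul_right _ _, ?_⟩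
        have := hLN t
        show (1 - ε) * (N t * Real.log b) ≤ N t * Real.log b
        nlinarith
      · filter_upwards [hν i ε hε, hn] with t ht htn
        refine ⟨N t - n t i, dvd_mul_right _ _, ?_⟩
        rw [Nat.cast_sub (htn i)]
        show (1 - ν i - ε) * (N t * Real.log b) ≤ (N t - n t i) * Real.log b
        nlinarith [mul_le_mul_of_nonneg_right ht.2 hlb.le]
      · filter_upwards with t
        refine ⟨N t, dvd_mul_right _ _, ?_⟩
        have := hLN t
        show (1 - ε) * (N t * Real.log b) ≤ N t * Real.log b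
        nlinarith)
    (by
      intro i ε hε
      rcases i with i | i
      · filter_upwards [hρ (ε / 2) (by positivity), hq,
          (show ∀ᶠ t in (UU : Filter ℕ), ∀ i, (ν i - ε / 2) * N t ≤ n t i ∧
            (n t i : ℝ) ≤ (ν i + ε / 2) * N t from
            Filter.eventually_all.2 fun i => hν i (ε / 2) (by positivity)), hn]
          with t ht hqt htν htn
        have hq0 : (0 : ℝ) < q t := by exact_mod_cast hqt.1
        rw [Fintype.sum_sum_type]
        show |∑ j : Option (Fin k), (if i = j then (1 : ℝ) else 0) * _ +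
          ∑ j : Fin J, (0 : ℝ) * _| ≤ _
        rw [show (∑ j : Fin J, (0 : ℝ) * (((b : ℤ) ^ N t * p t j : ℤ) : ℝ)) = 0 by simp, add_zero]
        simp only [ite_mul, one_mul, zero_mul, Finset.sum_ite_eq, Finset.mem_univ, if_true]
        rcases i with _ | i
        · show |(((b : ℤ) ^ N t * q t : ℤ) : ℝ)| ≤ Real.exp (-(-(1 + ρ) - ε) * (N t * Real.log b))
          push_cast
          rw [abs_of_pos (by positivity), rpow_exp b hb, ← Real.exp_log hq0, ← Real.exp_add]
          apply Real.exp_le_exp.2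
          have := hLN t
          nlinarith [ht.2]
        · show |(((b : ℤ) ^ (N t - n t i) * q t : ℤ) : ℝ)| ≤
            Real.exp (-(-(1 - ν i + ρ) - ε) * (N t * Real.log b))
          push_cast
          rw [abs_of_pos (by positivity), rpow_exp b hb, ← Real.exp_log hq0, ← Real.exp_add,
            Nat.cast_sub (htn i)]
          apply Real.exp_le_exp.2
          have := hLN t
          nlinarith [ht.2, mul_le_mul_of_nonneg_right (htν i).1 hlb.le]
      · filter_upwards [h, hρ (J / (k + 1) * ε) (by positivity), hn] with t ht hρt htn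
        have h1 := ht i
        rw [Fintype.sum_sum_type, Fintype.sum_option]
        show |ξ i * (((b : ℤ) ^ N t * q t : ℤ) : ℝ) +
          ∑ j, (a j i : ℝ) * (((b : ℤ) ^ (N t - n t j) * q t : ℤ) : ℝ) +
          ∑ j, (if i = j then (-1 : ℝ) else 0) * (((b : ℤ) ^ N t * p t j : ℤ) : ℝ)| ≤ _
        have e1 : ξ i * (((b : ℤ) ^ N t * q t : ℤ) : ℝ) +
          ∑ j, (a j i : ℝ) * (((b : ℤ) ^ (N t - n t j) * q t : ℤ) : ℝ) +
          ∑ j, (if i = j then (-1 : ℝ) else 0) * (((b : ℤ) ^ N t * p t j : ℤ) : ℝ) =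
            (b : ℝ) ^ N t *
              ((q t : ℝ) * (ξ i + ∑ i', (a i' i : ℝ) * ((b : ℝ) ^ n t i')⁻¹) - p t i) := by
          have e2 : ∑ j, (if i = j then (-1 : ℝ) else 0) * (((b : ℤ) ^ N t * p t j : ℤ) : ℝ) =
              -((b : ℝ) ^ N t * p t i) := by
            simp
          have e3 : ∑ j, (a j i : ℝ) * (((b : ℤ) ^ (N t - n t j) * q t : ℤ) : ℝ) =
              (b : ℝ) ^ N t * ((q t : ℝ) * ∑ i', (a i' i : ℝ) * ((b : ℝ) ^ n t i')⁻¹) := by
            rw [Finset.mul_sum, Finset.mul_sum]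
            refine Finset.sum_congr rfl fun j _ => ?_
            rw [Int.cast_mul, shift b hb _ _ (htn j)]
            push_cast
            ring
          rw [e2, e3]
          push_cast
          ring
        rw [e1, abs_mul, abs_of_pos (by positivity), rpow_exp b hb]
        calc Real.exp (N t * Real.log b) * |(q t : ℝ) *
              (ξ i + ∑ i', (a i' i : ℝ) * ((b : ℝ) ^ n t i')⁻¹) - p t i| ≤
            Real.exp (N t * Real.log b) * Real.exp (-(((k : ℝ) + 1) / J * Real.log (q t)) -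
              δ * (N t * Real.log b)) := mul_le_mul_of_nonneg_left h1 (Real.exp_pos _).le
          _ ≤ _ := by
            rw [← Real.exp_add]
            apply Real.exp_le_exp.2
            show _ ≤ -(-1 + (k + 1) / J * ρ + δ - ε) * (N t * Real.log b)
            have h2 : ((k : ℝ) + 1) / J * ((ρ - J / (k + 1) * ε) * (N t * Real.log b)) ≤
                ((k : ℝ) + 1) / J * Real.log (q t) :=
              mul_le_mul_of_nonneg_left hρt.1 (by positivity)
            have h3 : ((k : ℝ) + 1) / J * ((ρ - J / (k + 1) * ε) * (N t * Real.log b)) =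
                ((k + 1) / J * ρ - ε) * (N t * Real.log b) := by
              field_simp
            rw [h3] at h2
            linarith)
    (by
      rw [Fintype.sum_sum_type, Fintype.sum_sum_type, Fintype.sum_option, Fintype.sum_option]
      simp only [Finset.sum_const, Finset.card_univ, Fintype.card_fin, nsmul_eq_mul,
        Finset.sum_neg_distrib, Finset.sum_add_distrib, Finset.sum_sub_distrib]
      have h1 : (J : ℝ) * (-1 + (k + 1) / J * ρ + δ) = -J + (k + 1) * ρ + J * δ := by field_simp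
      rw [h1]
      have : 0 < (J : ℝ) * δ := by positivity
      linarith)
  refine ⟨R (Sum.inl none), fun i => R (Sum.inl (some i)), fun j => R (Sum.inr j), ?_, ?_⟩
  · by_contra hcon
    push Not at hcon
    obtain ⟨h1, h2, h3⟩ := hcon
    apply hR0
    funext i
    rcases i with (_ | i) | i
    · exact h1
    · exact congrFun h2 i
    · exact congrFun h3 i
  · filter_upwards [hR, hn] with t ht htn
    rw [Fintype.sum_sum_type, Fintype.sum_option] at ht
    have h1 : ((R (Sum.inl none) : ℤ) : ℝ) * (((b : ℤ) ^ N t * q t : ℤ) : ℝ) +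
        ∑ i, ((R (Sum.inl (some i)) : ℤ) : ℝ) * (((b : ℤ) ^ (N t - n t i) * q t : ℤ) : ℝ) +
        ∑ j, ((R (Sum.inr j) : ℤ) : ℝ) * (((b : ℤ) ^ N t * p t j : ℤ) : ℝ) = 0 := by
      exact_mod_cast ht
    have e3 : ∑ i, ((R (Sum.inl (some i)) : ℤ) : ℝ) * (((b : ℤ) ^ (N t - n t i) * q t : ℤ) : ℝ) =
        (b : ℝ) ^ N t * ((q t : ℝ) *
          ∑ i', ((R (Sum.inl (some i')) : ℤ) : ℝ) * ((b : ℝ) ^ n t i')⁻¹) := by
      rw [Finset.mul_sum, Finset.mul_sum]
      refine Finset.sum_congr rfl fun j _ => ?_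
      rw [Int.cast_mul, shift b hb _ _ (htn j)]
      push_cast
      ring
    have e4 : ∑ j, ((R (Sum.inr j) : ℤ) : ℝ) * (((b : ℤ) ^ N t * p t j : ℤ) : ℝ) =
        (b : ℝ) ^ N t * ∑ j, ((R (Sum.inr j) : ℤ) : ℝ) * p t j := by
      rw [Finset.mul_sum]
      refine Finset.sum_congr rfl fun j _ => ?_
      push_cast
      ring
    have e5 : (b : ℝ) ^ N t * ((q t : ℝ) * (((R (Sum.inl none) : ℤ) : ℝ) +
        ∑ i', ((R (Sum.inl (some i')) : ℤ) : ℝ) * ((b : ℝ) ^ n t i')⁻¹) +
        ∑ j, ((R (Sum.inr j) : ℤ) : ℝ) * p t j) = 0 := by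
      rw [← h1, e3, e4]
      push_cast
      ring
    exact (mul_eq_zero.1 e5).resolve_left (by positivity)

/-- **Simultaneous approximation** along sequences. -/
theorem joint_seq (b : ℕ) (hb : 2 ≤ b) (J : ℕ) (hJ : 1 ≤ J) (N : ℕ → ℕ)
    (hN : Tendsto N atTop atTop) (δ : ℝ) (hδ : 0 < δ) (q : ℕ → ℕ) (p : ℕ → Fin J → ℤ)
    (hq : ∀ᶠ t in (UU : Filter ℕ), 1 ≤ q t ∧ q t ≤ b ^ N t) (k : ℕ) :
    ∀ (ξ : Fin J → ℝ) (_ : ∀ j, IsAlgebraic ℚ (ξ j)) (_ : Indep ξ) (a : Fin k → Fin J → ℚ)
      (n : ℕ → Fin k → ℕ) (_ : ∀ᶠ t in (UU : Filter ℕ), ∀ i, n t i ≤ N t)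
      (_ : ∀ᶠ t in (UU : Filter ℕ), ∀ j,
        |(q t : ℝ) * (ξ j + ∑ i, (a i j : ℝ) * ((b : ℝ) ^ n t i)⁻¹) - p t j| ≤
          Real.exp (-(((k : ℝ) + 1) / J * Real.log (q t)) - δ * (N t * Real.log b))), False := by
  have hlb : 0 < Real.log b := Real.log_pos (by exact_mod_cast (by omega : 1 < b))
  have hbR : (0 : ℝ) < b := by positivity
  have hJ0 : (0 : ℝ) < J := by exact_mod_cast hJ
  -- the case of a relation which contains a numerator
  have main : ∀ (k : ℕ) (ξ : Fin J → ℝ) (_ : ∀ j, IsAlgebraic ℚ (ξ j)) (_ : Indep ξ)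
      (a : Fin k → Fin J → ℚ)
      (n : ℕ → Fin k → ℕ) (_ : ∀ᶠ t in (UU : Filter ℕ), ∀ i, n t i ≤ N t)
      (_ : ∀ᶠ t in (UU : Filter ℕ), ∀ j,
        |(q t : ℝ) * (ξ j + ∑ i, (a i j : ℝ) * ((b : ℝ) ^ n t i)⁻¹) - p t j| ≤
          Real.exp (-(((k : ℝ) + 1) / J * Real.log (q t)) - δ * (N t * Real.log b)))
      (A : ℤ) (B : Fin k → ℤ) (D : Fin J → ℤ) (_ : D ≠ 0)
      (_ : ∀ᶠ t in (UU : Filter ℕ), (q t : ℝ) * (A + ∑ i, (B i : ℝ) * ((b : ℝ) ^ n t i)⁻¹) +
        ∑ j, (D j : ℝ) * p t j = 0), False := by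
    intro k ξ halg hind a n hn h A B D hD hrel
    refine sparse_sum b hb N hN (δ / 2) (by positivity) k (∑ j, (D j : ℝ) * ξ j + A) ?_ ?_
      (fun i => ∑ j, D j * a i j + B i) n hn ?_
    · have h1 : ∀ s : Finset (Fin J), IsAlgebraic ℚ (∑ j ∈ s, (D j : ℝ) * ξ j) := by
        intro s
        induction s using Finset.induction_on with
        | empty => simpa using isAlgebraic_zero
        | insert i s hi ih =>
          rw [Finset.sum_insert hi]
          exact ((isAlgebraic_intCast (D i)).mul (halg i)).add ih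
      exact (h1 _).add (isAlgebraic_intCast A)
    · rintro ⟨r, hr⟩
      apply hD
      have h1 := hind (fun j => D j) (r - A) (by
        push_cast
        rw [hr]
        ring)
      funext j
      have := congrFun h1 j
      simp only [Pi.zero_apply] at this ⊢
      exact_mod_cast this
    · filter_upwards [h, hrel, hq, absorb_const (fun t => (N t : ℝ) * Real.log b)
        (tendsto_L b hb N hN) (∑ j, |(D j : ℝ)|) δ hδ] with t ht hr hqt habs
      have hq1 : (1 : ℝ) ≤ q t := by exact_mod_cast hqt.1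
      have hq0 : (0 : ℝ) < q t := by linarith
      refine le_trans ?_ habs
      have e1 : (q t : ℝ) * (∑ j, (D j : ℝ) * ξ j + A +
          ∑ i, ((∑ j, D j * a i j + B i : ℚ) : ℝ) * ((b : ℝ) ^ n t i)⁻¹) =
          ∑ j, (D j : ℝ) * ((q t : ℝ) *
            (ξ j + ∑ i, (a i j : ℝ) * ((b : ℝ) ^ n t i)⁻¹) - p t j) := by
        have e2 : ∑ j, (D j : ℝ) * ((q t : ℝ) *
            (ξ j + ∑ i, (a i j : ℝ) * ((b : ℝ) ^ n t i)⁻¹) - p t j) =
            (q t : ℝ) * (∑ j, (D j : ℝ) * ξ j +
              ∑ j, ∑ i, (D j : ℝ) * ((a i j : ℝ) * ((b : ℝ) ^ n t i)⁻¹)) -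
              ∑ j, (D j : ℝ) * p t j := by
          rw [mul_add, Finset.mul_sum, Finset.mul_sum, ← Finset.sum_add_distrib,
            ← Finset.sum_sub_distrib]
          refine Finset.sum_congr rfl fun j _ => ?_
          rw [← Finset.mul_sum]
          ring
        have e3 : ∑ i, ((∑ j, D j * a i j + B i : ℚ) : ℝ) * ((b : ℝ) ^ n t i)⁻¹ =
            ∑ j, ∑ i, (D j : ℝ) * ((a i j : ℝ) * ((b : ℝ) ^ n t i)⁻¹) +
            ∑ i, (B i : ℝ) * ((b : ℝ) ^ n t i)⁻¹ := by
          rw [Finset.sum_comm, ← Finset.sum_add_distrib]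
          refine Finset.sum_congr rfl fun i _ => ?_
          push_cast
          rw [add_mul, Finset.sum_mul]
          congr 1
          refine Finset.sum_congr rfl fun j _ => ?_
          ring
        rw [e2, e3]
        linear_combination hr
      have h2 : |∑ j, (D j : ℝ) * ξ j + A +
          ∑ i, ((∑ j, D j * a i j + B i : ℚ) : ℝ) * ((b : ℝ) ^ n t i)⁻¹| ≤
          |(q t : ℝ) * (∑ j, (D j : ℝ) * ξ j + A +
          ∑ i, ((∑ j, D j * a i j + B i : ℚ) : ℝ) * ((b : ℝ) ^ n t i)⁻¹)| := by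
        rw [abs_mul, abs_of_pos hq0]
        exact le_mul_of_one_le_left (abs_nonneg _) hq1
      refine h2.trans ?_
      rw [e1]
      refine (Finset.abs_sum_le_sum_abs _ _).trans ?_
      rw [Finset.sum_mul]
      refine Finset.sum_le_sum fun j _ => ?_
      rw [abs_mul]
      apply mul_le_mul_of_nonneg_left _ (abs_nonneg _)
      refine (ht j).trans (Real.exp_le_exp.2 ?_)
      have : 0 ≤ ((k : ℝ) + 1) / J * Real.log (q t) :=
        mul_nonneg (by positivity) (Real.log_nonneg hq1)
      linarith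
  induction k with
  | zero =>
    intro ξ halg hind a n hn h
    obtain ⟨A, B, D, hne, hrel⟩ := relation b hb J hJ N hN δ hδ q p hq 0 ξ halg a n hn h
    by_cases hD : D = 0
    · obtain ⟨t, ht, hqt⟩ := (hrel.and hq).exists
      have hq0 : (0 : ℝ) < q t := by exact_mod_cast hqt.1
      rw [hD] at ht
      simp only [Finset.univ_eq_empty, Finset.sum_empty, add_zero, Pi.zero_apply, Int.cast_zero,
        zero_mul, Finset.sum_const_zero] at ht
      have hA : A = 0 := by
        have := (mul_eq_zero.1 ht).resolve_left hq0.ne'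
        exact_mod_cast this
      rcases hne with h1 | h1 | h1
      · exact h1 hA
      · exact h1 (Subsingleton.elim _ _)
      · exact h1 hD
    · exact main 0 ξ halg hind a n hn h A B D hD hrel
  | succ k ih =>
    intro ξ halg hind a n hn h
    obtain ⟨A, B, D, hne, hrel⟩ := relation b hb J hJ N hN δ hδ q p hq (k + 1) ξ halg a n hn h
    by_cases hD : D = 0
    · have hrel' : ∀ᶠ t in (UU : Filter ℕ), (A : ℝ) +
          ∑ i, (B i : ℝ) * ((b : ℝ) ^ n t i)⁻¹ = 0 := by
        filter_upwards [hrel, hq] with t ht hqt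
        have hq0 : (0 : ℝ) < q t := by exact_mod_cast hqt.1
        rw [hD] at ht
        simp only [Pi.zero_apply, Int.cast_zero, zero_mul, Finset.sum_const_zero, add_zero] at ht
        exact (mul_eq_zero.1 ht).resolve_left hq0.ne'
      obtain ⟨j, hj⟩ : ∃ j, B j ≠ 0 := by
        by_contra hcon
        push Not at hcon
        obtain ⟨t, ht⟩ := hrel'.exists
        simp only [hcon, Int.cast_zero, zero_mul, Finset.sum_const_zero, add_zero] at ht
        rcases hne with h1 | h1 | h1
        · exact h1 (by exact_mod_cast ht)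
        · exact h1 (funext hcon)
        · exact h1 hD
      have hjR : (B j : ℝ) ≠ 0 := by exact_mod_cast hj
      refine ih (fun l => ξ l + ((-(a j l * A / B j) : ℚ) : ℝ)) ?_ (hind.shift _)
        (fun i l => a (j.succAbove i) l - a j l * B (j.succAbove i) / B j)
        (fun t i => n t (j.succAbove i)) ?_ ?_
      · intro l
        exact (halg l).add (isAlgebraic_algebraMap _)
      · filter_upwards [hn] with t ht i
        exact ht _
      · filter_upwards [h, hrel', hq] with t ht hr hqt l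
        have hq1 : (1 : ℝ) ≤ q t := by exact_mod_cast hqt.1
        have e1 : ξ l + ((-(a j l * A / B j) : ℚ) : ℝ) +
            ∑ i : Fin k, ((a (j.succAbove i) l - a j l * B (j.succAbove i) / B j : ℚ) : ℝ) *
              ((b : ℝ) ^ n t (j.succAbove i))⁻¹ =
            ξ l + ∑ i, (a i l : ℝ) * ((b : ℝ) ^ n t i)⁻¹ := by
          rw [Fin.sum_univ_succAbove _ j] at hr ⊢
          have h2 : ((b : ℝ) ^ n t j)⁻¹ = -((A : ℝ) + ∑ i : Fin k,
              (B (j.succAbove i) : ℝ) * ((b : ℝ) ^ n t (j.succAbove i))⁻¹) / B j := by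
            rw [eq_div_iff hjR]
            linarith
          rw [h2]
          push_cast
          simp only [sub_mul, Finset.sum_sub_distrib]
          have h3 : ∑ x : Fin k, (a j l : ℝ) * B (j.succAbove x) / B j *
              ((b : ℝ) ^ n t (j.succAbove x))⁻¹ = a j l / B j * ∑ i : Fin k,
              (B (j.succAbove i) : ℝ) * ((b : ℝ) ^ n t (j.succAbove i))⁻¹ := by
            rw [Finset.mul_sum]
            refine Finset.sum_congr rfl fun i _ => ?_
            ring
          rw [h3]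
          field_simp
          ring
        rw [e1]
        refine (ht l).trans (Real.exp_le_exp.2 ?_)
        have h4 : 0 ≤ Real.log (q t) / J := div_nonneg (Real.log_nonneg hq1) hJ0.le
        have h5 : ((k + 1 : ℕ) + 1 : ℝ) / J * Real.log (q t) =
            ((k : ℝ) + 1) / J * Real.log (q t) + Real.log (q t) / J := by
          push_cast
          ring
        rw [h5]
        linarith
    · exact main (k + 1) ξ halg hind a n hn h A B D hD hrel

end Pool.Agent.Q50.SP
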