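import Pool.Agent.Q50.SP.Multi

/-!
# Multiples of an algebraic number plus a sparse sum
-/

set_option autoImplicit false

namespace Pool.Agent.Q50.SP

open Filter Topology Pool.Agent.TH932.Abs Pool.Agent.TH932.Germs
open Pool.Agent.TH796.AL

variable {m : ℕ} (B : Base m)

/-- the sizes of the denominators -/
lemma densM (N : ℕ → ℝ) (q : ℕ → ℕ) (hN : Tendsto N atTop atTop)
    (hq : ∀ᶠ t in (UU : Filter ℕ), 1 ≤ q t ∧ Real.log (q t) ≤ N t) :
    ∃ ρ : ℝ, ∀ ε : ℝ, 0 < ε → ∀ᶠ t in (UU : Filter ℕ),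
      (ρ - ε) * N t ≤ Real.log (q t) ∧ Real.log (q t) ≤ (ρ + ε) * N t := by
  have hpos : ∀ᶠ t in (UU : Filter ℕ), 1 ≤ N t := ev_of_atTop (hN.eventually_ge_atTop 1)
  obtain ⟨x, -, hx⟩ := ulim (fun t => Real.log (q t) / N t) 0 1 (by
    filter_upwards [hq, hpos] with t ht hN1
    have hq1 : (1 : ℝ) ≤ q t := by exact_mod_cast ht.1
    refine ⟨div_nonneg (Real.log_nonneg hq1) (by linarith), ?_⟩
    rw [div_le_one (by linarith)]
    exact ht.2)
  refine ⟨x, fun ε hε => ?_⟩
  filter_upwards [near hx ε hε, hpos] with t ht hN1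
  have hN0 : (0 : ℝ) < N t := by linarith
  rw [le_div_iff₀ hN0, div_le_iff₀ hN0] at ht
  exact ht

/-- bounded multipliers -/
lemma bounded_case (N : ℕ → ℝ) (hN : Tendsto N atTop atTop) (δ : ℝ) (hδ : 0 < δ)
    (q : ℕ → ℕ) (p : ℕ → ℤ) (hq : ∀ᶠ t in (UU : Filter ℕ), 1 ≤ q t ∧ Real.log (q t) ≤ N t)
    (k : ℕ) (ξ : ℝ) (halg : IsAlgebraic ℚ ξ) (hirr : Irrational ξ) (a : Fin k → ℚ)
    (e : ℕ → Fin k → Fin m → ℕ)
    (he : ∀ᶠ t in (UU : Filter ℕ), ∀ i v, (e t i v : ℝ) * Real.log (B.P v) ≤ N t)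
    (h : ∀ᶠ t in (UU : Filter ℕ),
        |(q t : ℝ) * ξ + ∑ i, (a i : ℝ) * ((un B (e t i) : ℝ))⁻¹ - p t| ≤
          Real.exp (-Real.log (q t) - δ * N t))
    (Q : ℕ) (hQ : ∀ᶠ t in (UU : Filter ℕ), q t ≤ Q) : False := by
  have hN0 : ∀ᶠ t in (UU : Filter ℕ), 0 ≤ N t := ev_of_atTop (hN.eventually_ge_atTop 0)
  have hun : ∀ e : Fin m → ℕ, ((un B e : ℝ))⁻¹ ≤ 1 := by
    intro e
    apply inv_le_one_of_one_le₀
    have : (1 : ℤ) ≤ un B e := by
      have := un_pos B e
      have h2 : (0 : ℤ) < un B e := by exact_mod_cast this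
      omega
    exact_mod_cast this
  obtain ⟨R, hR⟩ : ∃ R : ℕ, (Q : ℝ) * |ξ| + ∑ i, |(a i : ℝ)| + 1 ≤ R := exists_nat_ge _
  have hp : ∀ᶠ t in (UU : Filter ℕ), |p t| ≤ R := by
    filter_upwards [h, hQ, hq, hN0] with t ht hQt hqt hNt
    have hq1 : (1 : ℝ) ≤ q t := by exact_mod_cast hqt.1
    have h1 : Real.exp (-Real.log (q t) - δ * N t) ≤ 1 := by
      rw [Real.exp_le_one_iff]
      have := Real.log_nonneg hq1
      have : 0 ≤ δ * N t := by positivity
      linarith
    have h2 : |∑ i, (a i : ℝ) * ((un B (e t i) : ℝ))⁻¹| ≤ ∑ i, |(a i : ℝ)| := by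
      refine (Finset.abs_sum_le_sum_abs _ _).trans (Finset.sum_le_sum fun i _ => ?_)
      rw [abs_mul, abs_of_pos (inv_pos.2 (un_pos B _))]
      exact mul_le_of_le_one_right (abs_nonneg _) (hun _)
    have h3 : |(q t : ℝ) * ξ| ≤ Q * |ξ| := by
      rw [abs_mul, abs_of_nonneg (by linarith)]
      have : (q t : ℝ) ≤ Q := by exact_mod_cast hQt
      exact mul_le_mul_of_nonneg_right this (abs_nonneg _)
    have h4 : |(p t : ℝ)| ≤ |(q t : ℝ) * ξ| + |∑ i, (a i : ℝ) * ((un B (e t i) : ℝ))⁻¹| +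
        |(q t : ℝ) * ξ + ∑ i, (a i : ℝ) * ((un B (e t i) : ℝ))⁻¹ - p t| := by
      have e1 : (p t : ℝ) = (q t : ℝ) * ξ + ∑ i, (a i : ℝ) * ((un B (e t i) : ℝ))⁻¹ -
        ((q t : ℝ) * ξ + ∑ i, (a i : ℝ) * ((un B (e t i) : ℝ))⁻¹ - p t) := by ring
      calc |(p t : ℝ)| = |(q t : ℝ) * ξ + ∑ i, (a i : ℝ) * ((un B (e t i) : ℝ))⁻¹ -
        ((q t : ℝ) * ξ + ∑ i, (a i : ℝ) * ((un B (e t i) : ℝ))⁻¹ - p t)| := by rw [← e1]
        _ ≤ |(q t : ℝ) * ξ + ∑ i, (a i : ℝ) * ((un B (e t i) : ℝ))⁻¹| +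
          |(q t : ℝ) * ξ + ∑ i, (a i : ℝ) * ((un B (e t i) : ℝ))⁻¹ - p t| := abs_sub _ _
        _ ≤ _ := by
          gcongr
          exact abs_add_le _ _
    have h5 : |(p t : ℝ)| ≤ R := by linarith
    exact_mod_cast h5
  have hfin : (Set.Icc 0 Q ×ˢ Set.Icc (-(R : ℤ)) R : Set (ℕ × ℤ)).Finite :=
    (Set.finite_Icc _ _).prod (Set.finite_Icc _ _)
  have hex : ∀ᶠ t in (UU : Filter ℕ), ∃ z ∈ (Set.Icc 0 Q ×ˢ Set.Icc (-(R : ℤ)) R : Set (ℕ × ℤ)),
      (q t, p t) = z := by
    filter_upwards [hQ, hp] with t h1 h2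
    exact ⟨(q t, p t), ⟨⟨Nat.zero_le _, h1⟩, abs_le.1 h2⟩, rfl⟩
  obtain ⟨⟨q0, p0⟩, -, hz⟩ := (Ultrafilter.eventually_exists_mem_iff hfin).1 hex
  have hq0 : 1 ≤ q0 := by
    obtain ⟨t, h1, h2⟩ := (hz.and hq).exists
    rw [Prod.mk.injEq] at h1
    rw [← h1.1]
    exact h2.1
  refine sparse_sumM B N hN δ hδ k ((q0 : ℝ) * ξ + ((-p0 : ℤ) : ℝ)) ?_ ?_ a e he ?_
  · exact ((isAlgebraic_natCast _).mul halg).add (isAlgebraic_intCast _)
  · exact (hirr.natCast_mul (by omega)).add_intCast _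
  · filter_upwards [h, hz, hq] with t ht hzt hqt
    rw [Prod.mk.injEq] at hzt
    rw [hzt.1, hzt.2] at ht
    have hq1 : (1 : ℝ) ≤ q0 := by exact_mod_cast hq0
    have e1 : (q0 : ℝ) * ξ + ((-p0 : ℤ) : ℝ) + ∑ i, (a i : ℝ) * ((un B (e t i) : ℝ))⁻¹ =
        (q0 : ℝ) * ξ + ∑ i, (a i : ℝ) * ((un B (e t i) : ℝ))⁻¹ - p0 := by
      push_cast
      ring
    rw [e1]
    refine ht.trans (Real.exp_le_exp.2 ?_)
    have := Real.log_nonneg hq1
    linarith

/-- the linear relation given by the subspace theorem -/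
theorem relationM (N : ℕ → ℝ) (hN : Tendsto N atTop atTop) (δ : ℝ) (hδ : 0 < δ)
    (q : ℕ → ℕ) (p : ℕ → ℤ) (hq : ∀ᶠ t in (UU : Filter ℕ), 1 ≤ q t ∧ Real.log (q t) ≤ N t)
    (k : ℕ) (ξ : ℝ) (halg : IsAlgebraic ℚ ξ) (a : Fin k → ℚ)
    (e : ℕ → Fin k → Fin m → ℕ)
    (he : ∀ᶠ t in (UU : Filter ℕ), ∀ i v, (e t i v : ℝ) * Real.log (B.P v) ≤ N t)
    (h : ∀ᶠ t in (UU : Filter ℕ),
        |(q t : ℝ) * ξ + ∑ i, (a i : ℝ) * ((un B (e t i) : ℝ))⁻¹ - p t| ≤
          Real.exp (-Real.log (q t) - δ * N t)) :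
    ∃ (A D : ℤ) (C : Fin k → ℤ), (A ≠ 0 ∨ D ≠ 0 ∨ C ≠ 0) ∧
      ∀ᶠ t in (UU : Filter ℕ), (A : ℝ) * q t + D * p t +
        ∑ i, (C i : ℝ) * ((un B (e t i) : ℝ))⁻¹ = 0 := by
  have hN0 : ∀ᶠ t in (UU : Filter ℕ), 0 ≤ N t := ev_of_atTop (hN.eventually_ge_atTop 0)
  obtain ⟨F, hF, hξF⟩ := exists_field (J := 1) (fun _ => ξ) (fun _ => halg)
  have := hF
  obtain ⟨ν, hν⟩ := expsM B k N hN e he
  obtain ⟨ρ, hρ⟩ := densM N q hN hq
  have hU : ∀ t, 0 ≤ N t → (un B (EE B (N t)) : ℝ) ≤ Real.exp (m * N t) := by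
    intro t hNt
    rw [← Real.exp_log (un_pos B _), un_log]
    apply Real.exp_le_exp.2
    calc ∑ v, (EE B (N t) v : ℝ) * Real.log (B.P v) ≤ ∑ _v : Fin m, N t :=
          Finset.sum_le_sum fun v _ => EE_le B _ hNt v
      _ = m * N t := by simp
  obtain ⟨A, hA0, hA⟩ := sub_finM (ι := Option (Option (Fin k))) B N hN F
    (fun i t => match i with
      | none => un B (EE B (N t)) * q t
      | some none => un B (EE B (N t)) * p t
      | some (some i) => un B (fun v => EE B (N t) v - e t i v))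
    (fun i j => match i, j with
      | none, none => 1
      | none, some _ => 0
      | some none, none => ξ
      | some none, some none => -1
      | some none, some (some j) => a j
      | some (some _), none => 0
      | some (some _), some none => 0
      | some (some i), some (some j) => if i = j then 1 else 0)
    (by
      intro i j
      rcases i with _ | _ | i <;> rcases j with _ | _ | j
      · exact F.one_mem
      · exact F.zero_mem
      · exact F.zero_mem
      · exact hξF 0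
      · exact F.neg_mem F.one_mem
      · exact rat_mem F _
      · exact F.zero_mem
      · exact F.zero_mem
      · show (if i = j then (1 : ℝ) else 0) ∈ F
        split_ifs
        · exact F.one_mem
        · exact F.zero_mem)
    (by
      intro c hc
      have h0 : c (some none) = 0 := by
        have h1 := hc (some none)
        rw [Fintype.sum_option, Fintype.sum_option] at h1
        simp only [mul_zero, Finset.sum_const_zero, add_zero, zero_add] at h1
        linarith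
      have h2 : c none = 0 := by
        have h1 := hc none
        rw [Fintype.sum_option, Fintype.sum_option] at h1
        simp only [mul_zero, Finset.sum_const_zero, add_zero, h0, zero_mul, mul_one] at h1
        exact h1
      intro i
      rcases i with _ | _ | i
      · exact h2
      · exact h0
      · have h1 := hc (some (some i))
        rw [Fintype.sum_option, Fintype.sum_option, h0, h2] at h1
        simpa using h1)
    (fun v i => match i with
      | none => 1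
      | some none => 1
      | some (some i) => 1 - ν v i)
    (fun i => match i with
      | none => -(m + ρ)
      | some none => -m + ρ + δ
      | some (some i) => -(∑ v, (1 - ν v i)))
    (by
      intro v i ε hε
      rcases i with _ | _ | i
      · exact wt_unit B N hN v ε hε _ fun t => dvd_mul_right _ _
      · exact wt_unit B N hN v ε hε _ fun t => dvd_mul_right _ _
      · exact wt_sub B k N hN e he ν hν v i ε hε)
    (by
      intro i ε hε
      rcases i with _ | _ | i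
      · filter_upwards [hρ ε hε, hq, hN0] with t ht hqt hNt
        have hq0 : (0 : ℝ) < q t := by exact_mod_cast hqt.1
        rw [Fintype.sum_option]
        show |(1 : ℝ) * ((un B (EE B (N t)) * q t : ℤ) : ℝ) + ∑ j, (0 : ℝ) * _| ≤ _
        simp only [zero_mul, Finset.sum_const_zero, add_zero, one_mul]
        push_cast
        rw [abs_of_pos (mul_pos (un_pos B _) hq0)]
        calc (un B (EE B (N t)) : ℝ) * q t ≤ Real.exp (m * N t) * Real.exp (Real.log (q t)) := by
              rw [Real.exp_log hq0]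
              exact mul_le_mul_of_nonneg_right (hU t hNt) hq0.le
          _ ≤ _ := by
            rw [← Real.exp_add]
            apply Real.exp_le_exp.2
            show _ ≤ -(-(m + ρ) - ε) * N t
            linarith [ht.2]
      · filter_upwards [h, he, hρ ε hε, hN0] with t ht het hρt hNt
        rw [Fintype.sum_option, Fintype.sum_option]
        show |ξ * ((un B (EE B (N t)) * q t : ℤ) : ℝ) + ((-1 : ℝ) * ((un B (EE B (N t)) * p t : ℤ) : ℝ)
          + ∑ i, (a i : ℝ) * ((un B (fun v => EE B (N t) v - e t i v) : ℤ) : ℝ))| ≤ _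
        have e1 : ξ * ((un B (EE B (N t)) * q t : ℤ) : ℝ) +
            ((-1 : ℝ) * ((un B (EE B (N t)) * p t : ℤ) : ℝ)
            + ∑ i, (a i : ℝ) * ((un B (fun v => EE B (N t) v - e t i v) : ℤ) : ℝ)) =
            (un B (EE B (N t)) : ℝ) *
              ((q t : ℝ) * ξ + ∑ i, (a i : ℝ) * ((un B (e t i) : ℝ))⁻¹ - p t) := by
          have e2 : ∑ i, (a i : ℝ) * ((un B (fun v => EE B (N t) v - e t i v) : ℤ) : ℝ) =
              (un B (EE B (N t)) : ℝ) * ∑ i, (a i : ℝ) * ((un B (e t i) : ℝ))⁻¹ := by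
            rw [Finset.mul_sum]
            refine Finset.sum_congr rfl fun i _ => ?_
            rw [un_sub B _ _ (het i)]
            ring
          rw [e2]
          push_cast
          ring
        rw [e1, abs_mul, abs_of_pos (un_pos B _)]
        calc (un B (EE B (N t)) : ℝ) *
              |(q t : ℝ) * ξ + ∑ i, (a i : ℝ) * ((un B (e t i) : ℝ))⁻¹ - p t| ≤
            Real.exp (m * N t) * Real.exp (-Real.log (q t) - δ * N t) :=
              mul_le_mul (hU t hNt) ht (abs_nonneg _) (Real.exp_pos _).le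
          _ ≤ _ := by
            rw [← Real.exp_add]
            apply Real.exp_le_exp.2
            show _ ≤ -(-m + ρ + δ - ε) * N t
            linarith [hρt.1]
      · filter_upwards [wt_size B k N hN e he ν hν i ε hε] with t ht
        rw [Fintype.sum_option, Fintype.sum_option]
        show |(0 : ℝ) * _ + ((0 : ℝ) * _ + ∑ j, (if i = j then (1 : ℝ) else 0) *
          ((un B (fun v => EE B (N t) v - e t j v) : ℤ) : ℝ))| ≤ _
        simp only [zero_mul, zero_add, ite_mul, one_mul, Finset.sum_ite_eq, Finset.mem_univ,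
          if_true]
        exact ht)
    (by
      simp only [Fintype.sum_option, Finset.sum_add_distrib, Finset.sum_const,
        Finset.card_univ, Fintype.card_fin, nsmul_eq_mul, mul_one, Finset.sum_neg_distrib]
      rw [Finset.sum_comm]
      linarith)
  refine ⟨A none, A (some none), fun i => A (some (some i)), ?_, ?_⟩
  · by_contra hcon
    push Not at hcon
    obtain ⟨h1, h2, h3⟩ := hcon
    apply hA0
    funext i
    rcases i with _ | _ | i
    · exact h1
    · exact h2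
    · exact congrFun h3 i
  · filter_upwards [hA, he] with t ht het
    rw [Fintype.sum_option, Fintype.sum_option] at ht
    have h1 : ((A none : ℤ) : ℝ) * ((un B (EE B (N t)) * q t : ℤ) : ℝ) +
        (((A (some none) : ℤ) : ℝ) * ((un B (EE B (N t)) * p t : ℤ) : ℝ) +
        ∑ i, ((A (some (some i)) : ℤ) : ℝ) *
          ((un B (fun v => EE B (N t) v - e t i v) : ℤ) : ℝ)) = 0 := by
      exact_mod_cast ht
    have e2 : ∑ i, ((A (some (some i)) : ℤ) : ℝ) *
          ((un B (fun v => EE B (N t) v - e t i v) : ℤ) : ℝ) =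
        (un B (EE B (N t)) : ℝ) * ∑ i, ((A (some (some i)) : ℤ) : ℝ) *
          ((un B (e t i) : ℝ))⁻¹ := by
      rw [Finset.mul_sum]
      refine Finset.sum_congr rfl fun i _ => ?_
      rw [un_sub B _ _ (het i)]
      ring
    have e5 : (un B (EE B (N t)) : ℝ) * ((A none : ℝ) * q t + A (some none) * p t +
        ∑ i, (A (some (some i)) : ℝ) * ((un B (e t i) : ℝ))⁻¹) = 0 := by
      rw [← h1, e2]
      push_cast
      ring
    exact (mul_eq_zero.1 e5).resolve_left (un_pos B _).ne'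

/-- **Multiples plus sparse sums**, along sequences. -/
theorem mult_seq (N : ℕ → ℝ) (hN : Tendsto N atTop atTop) (δ : ℝ) (hδ : 0 < δ)
    (q : ℕ → ℕ) (p : ℕ → ℤ) (hq : ∀ᶠ t in (UU : Filter ℕ), 1 ≤ q t ∧ Real.log (q t) ≤ N t)
    (ξ : ℝ) (halg : IsAlgebraic ℚ ξ) (hirr : Irrational ξ) (k : ℕ) :
    ∀ (a : Fin k → ℚ) (e : ℕ → Fin k → Fin m → ℕ)
      (_ : ∀ᶠ t in (UU : Filter ℕ), ∀ i v, (e t i v : ℝ) * Real.log (B.P v) ≤ N t)
      (_ : ∀ᶠ t in (UU : Filter ℕ),
        |(q t : ℝ) * ξ + ∑ i, (a i : ℝ) * ((un B (e t i) : ℝ))⁻¹ - p t| ≤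
          Real.exp (-Real.log (q t) - δ * N t)), False := by
  have hN0 : ∀ᶠ t in (UU : Filter ℕ), 0 ≤ N t := ev_of_atTop (hN.eventually_ge_atTop 0)
  have hun : ∀ e : Fin m → ℕ, ((un B e : ℝ))⁻¹ ≤ 1 := by
    intro e
    apply inv_le_one_of_one_le₀
    have : (1 : ℤ) ≤ un B e := by
      have := un_pos B e
      have h2 : (0 : ℤ) < un B e := by exact_mod_cast this
      omega
    exact_mod_cast this
  have hsum : ∀ (k : ℕ) (c : Fin k → ℝ) (e : Fin k → Fin m → ℕ),
      |∑ i, c i * ((un B (e i) : ℝ))⁻¹| ≤ ∑ i, |c i| := by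
    intro k c e
    refine (Finset.abs_sum_le_sum_abs _ _).trans (Finset.sum_le_sum fun i _ => ?_)
    rw [abs_mul, abs_of_pos (inv_pos.2 (un_pos B _))]
    exact mul_le_of_le_one_right (abs_nonneg _) (hun _)
  -- relations containing `q` or `p`
  have main : ∀ (k : ℕ) (a : Fin k → ℚ) (e : ℕ → Fin k → Fin m → ℕ)
      (_ : ∀ᶠ t in (UU : Filter ℕ), ∀ i v, (e t i v : ℝ) * Real.log (B.P v) ≤ N t)
      (_ : ∀ᶠ t in (UU : Filter ℕ),
        |(q t : ℝ) * ξ + ∑ i, (a i : ℝ) * ((un B (e t i) : ℝ))⁻¹ - p t| ≤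
          Real.exp (-Real.log (q t) - δ * N t)) (A D : ℤ) (C : Fin k → ℤ) (_ : A ≠ 0 ∨ D ≠ 0)
      (_ : ∀ᶠ t in (UU : Filter ℕ), (A : ℝ) * q t + D * p t +
        ∑ i, (C i : ℝ) * ((un B (e t i) : ℝ))⁻¹ = 0), False := by
    intro k a e he h A D C hAD hrel
    -- `|(A + D ξ) q| ≤ const`
    have hne : (A : ℝ) + D * ξ ≠ 0 := by
      intro h0
      by_cases hD : D = 0
      · rw [hD] at h0
        simp only [Int.cast_zero, zero_mul, add_zero] at h0
        rcases hAD with h1 | h1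
        · exact h1 (by exact_mod_cast h0)
        · exact h1 hD
      · have h1 : Irrational ((D : ℝ) * ξ) := hirr.intCast_mul hD
        have h2 : Irrational ((A : ℝ) + D * ξ) := h1.intCast_add A
        exact h2.ne_zero h0
    obtain ⟨Q, hQ⟩ : ∃ Q : ℕ, (∑ i, |(C i : ℝ)| + |(D : ℝ)| * (∑ i, |(a i : ℝ)| + 1)) /
        |(A : ℝ) + D * ξ| ≤ Q := exists_nat_ge _
    refine bounded_case B N hN δ hδ q p hq k ξ halg hirr a e he h Q ?_
    filter_upwards [h, hrel, hq, hN0] with t ht hr hqt hNt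
    have hq1 : (1 : ℝ) ≤ q t := by exact_mod_cast hqt.1
    have h1 : Real.exp (-Real.log (q t) - δ * N t) ≤ 1 := by
      rw [Real.exp_le_one_iff]
      have := Real.log_nonneg hq1
      have : 0 ≤ δ * N t := by positivity
      linarith
    have h2 := hsum k (fun i => (a i : ℝ)) (e t)
    have h3 := hsum k (fun i => (C i : ℝ)) (e t)
    obtain ⟨y, hy⟩ : ∃ y : ℝ, y = (q t : ℝ) * ξ + ∑ i, (a i : ℝ) * ((un B (e t i) : ℝ))⁻¹ - p t :=
      ⟨_, rfl⟩
    rw [← hy] at ht
    have e1 : ((A : ℝ) + D * ξ) * q t = -(∑ i, (C i : ℝ) * ((un B (e t i) : ℝ))⁻¹) +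
        D * (y - ∑ i, (a i : ℝ) * ((un B (e t i) : ℝ))⁻¹) := by
      rw [hy]
      linear_combination hr
    have h4 : |(A : ℝ) + D * ξ| * q t ≤
        ∑ i, |(C i : ℝ)| + |(D : ℝ)| * (∑ i, |(a i : ℝ)| + 1) := by
      have e2 : |(A : ℝ) + D * ξ| * q t = |((A : ℝ) + D * ξ) * q t| := by
        rw [abs_mul, abs_of_nonneg (by linarith : (0 : ℝ) ≤ q t)]
      rw [e2, e1]
      refine (abs_add_le _ _).trans ?_
      rw [abs_neg, abs_mul]
      have h5 : |y - ∑ i, (a i : ℝ) * ((un B (e t i) : ℝ))⁻¹| ≤ ∑ i, |(a i : ℝ)| + 1 := by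
        refine (abs_sub _ _).trans ?_
        linarith
      exact add_le_add h3 (mul_le_mul_of_nonneg_left h5 (abs_nonneg _))
    have h5 : (q t : ℝ) ≤ Q := by
      refine le_trans ?_ hQ
      rw [le_div_iff₀ (abs_pos.2 hne)]
      linarith
    exact_mod_cast h5
  induction k with
  | zero =>
    intro a e he h
    obtain ⟨A, D, C, hne, hrel⟩ := relationM B N hN δ hδ q p hq 0 ξ halg a e he h
    refine main 0 a e he h A D C ?_ hrel
    rcases hne with h1 | h1 | h1
    · exact Or.inl h1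
    · exact Or.inr h1
    · exact absurd (Subsingleton.elim _ _) h1
  | succ k ih =>
    intro a e he h
    obtain ⟨A, D, C, hne, hrel⟩ := relationM B N hN δ hδ q p hq (k + 1) ξ halg a e he h
    by_cases hAD : A ≠ 0 ∨ D ≠ 0
    · exact main (k + 1) a e he h A D C hAD hrel
    push Not at hAD
    obtain ⟨hA, hD⟩ := hAD
    obtain ⟨j, hj⟩ : ∃ j, C j ≠ 0 := by
      by_contra hcon
      push Not at hcon
      rcases hne with h1 | h1 | h1
      · exact h1 hA
      · exact h1 hD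
      · exact h1 (funext hcon)
    have hjR : (C j : ℝ) ≠ 0 := by exact_mod_cast hj
    refine ih (fun i => a (j.succAbove i) - a j * C (j.succAbove i) / C j)
      (fun t i => e t (j.succAbove i)) ?_ ?_
    · filter_upwards [he] with t ht i v
      exact ht _ v
    · filter_upwards [h, hrel] with t ht hr
      rw [hA, hD] at hr
      simp only [Int.cast_zero, zero_mul, zero_add] at hr
      have e1 : (q t : ℝ) * ξ + ∑ i : Fin k,
            ((a (j.succAbove i) - a j * C (j.succAbove i) / C j : ℚ) : ℝ) *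
            ((un B (e t (j.succAbove i)) : ℝ))⁻¹ - p t =
          (q t : ℝ) * ξ + ∑ i, (a i : ℝ) * ((un B (e t i) : ℝ))⁻¹ - p t := by
        rw [Fin.sum_univ_succAbove _ j] at hr ⊢
        have h2 : ((un B (e t j) : ℝ))⁻¹ = -(∑ i : Fin k,
            (C (j.succAbove i) : ℝ) * ((un B (e t (j.succAbove i)) : ℝ))⁻¹) / C j := by
          rw [eq_div_iff hjR]
          linarith
        rw [h2]
        push_cast
        simp only [sub_mul, Finset.sum_sub_distrib]
        have h3 : ∑ x : Fin k, (a j : ℝ) * C (j.succAbove x) / C j *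
            ((un B (e t (j.succAbove x)) : ℝ))⁻¹ = a j / C j * ∑ i : Fin k,
            (C (j.succAbove i) : ℝ) * ((un B (e t (j.succAbove i)) : ℝ))⁻¹ := by
          rw [Finset.mul_sum]
          refine Finset.sum_congr rfl fun i _ => ?_
          ring
        rw [h3]
        ring
      rw [e1]
      exact ht

/-- **Multiples plus sparse sums.** -/
theorem mult_approx (ξ : ℝ) (halg : IsAlgebraic ℚ ξ) (hirr : Irrational ξ) (k C : ℕ) (δ : ℝ)
    (hδ : 0 < δ) :
    ∃ N₀ : ℝ, ∀ N : ℝ, N₀ ≤ N → ∀ e : Fin k → Fin m → ℕ,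
      (∀ i v, (e i v : ℝ) * Real.log (B.P v) ≤ N) → ∀ a : Fin k → ℤ, (∀ i, |a i| ≤ C) →
      ∀ q : ℕ, 1 ≤ q → Real.log q ≤ N → ∀ p : ℤ,
      Real.exp (-Real.log q - δ * N) <
        |(q : ℝ) * ξ + ∑ i, (a i : ℝ) * ((un B (e i) : ℝ))⁻¹ - p| := by
  by_contra hcon
  push Not at hcon
  choose N hN e he a ha q hq1 hq2 p hp using fun t : ℕ => hcon (t : ℝ)
  have hNt : Tendsto N atTop atTop := tendsto_atTop_mono hN tendsto_natCast_atTop_atTop
  have hfin : (Set.univ.pi fun _ : Fin k => Set.Icc (-(C : ℤ)) C).Finite :=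
    Set.Finite.pi fun _ => Set.finite_Icc _ _
  have hex : ∀ᶠ t in (UU : Filter ℕ), ∃ A ∈ (Set.univ.pi fun _ : Fin k =>
      Set.Icc (-(C : ℤ)) C), a t = A := by
    filter_upwards with t
    exact ⟨a t, fun i _ => abs_le.1 (ha t i), rfl⟩
  obtain ⟨A, -, hA⟩ := (Ultrafilter.eventually_exists_mem_iff hfin).1 hex
  refine mult_seq B N hNt δ hδ q p ?_ ξ halg hirr k (fun i => A i) e ?_ ?_
  · filter_upwards with t
    exact ⟨hq1 t, hq2 t⟩
  · filter_upwards with t
    exact he t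
  · filter_upwards [hA] with t ht
    have := hp t
    rw [ht] at this
    simpa using this

end Pool.Agent.Q50.SP
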