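import Pool.Agent.Q50.SP.Joint

/-!
# Sparse perturbations with denominators composed of given primes
-/

set_option autoImplicit false

namespace Pool.Agent.Q50.SP

open Filter Topology Pool.Agent.TH932.Abs Pool.Agent.TH932.Germs
open Pool.Agent.TH796.AL

/-- **The subspace theorem** over a finite index set. -/
theorem sub_finM {ι : Type} [Fintype ι] [DecidableEq ι] {m : ℕ} (B : Base m) (L : ℕ → ℝ)
    (hL : Tendsto L atTop atTop)
    (F : IntermediateField ℚ ℝ) [hFd : FiniteDimensional ℚ F] (X : ι → ℕ → ℤ)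
    (c : ι → ι → ℝ) (hcF : ∀ i j, c i j ∈ F)
    (hc : ∀ a : ι → ℝ, (∀ j, ∑ i, a i * c i j = 0) → ∀ i, a i = 0)
    (w : Fin m → ι → ℝ) (wI : ι → ℝ)
    (hw : ∀ v i, ∀ ε : ℝ, 0 < ε → ∀ᶠ t in (UU : Filter ℕ), ∃ k : ℕ,
      (B.P v : ℤ) ^ k ∣ X i t ∧ (w v i - ε) * L t ≤ k * Real.log (B.P v))
    (hwI : ∀ i, ∀ ε : ℝ, 0 < ε → ∀ᶠ t in (UU : Filter ℕ),
      |∑ j, c i j * X j t| ≤ Real.exp (-(wI i - ε) * L t))
    (hpos : 0 < ∑ v, ∑ i, w v i + ∑ i, wI i) :
    ∃ a : ι → ℤ, a ≠ 0 ∧ ∀ᶠ t in (UU : Filter ℕ), ∑ i, a i * X i t = 0 := by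
  classical
  obtain ⟨n, ⟨e⟩⟩ : ∃ n : ℕ, Nonempty (ι ≃ Fin n) := ⟨Fintype.card ι, ⟨Fintype.equivFin ι⟩⟩
  obtain ⟨a, ha0, ha⟩ := Pool.Agent.Q4.SubApp.sub_app B L hL F n
    (fun i => X (e.symm i)) (fun i j => c (e.symm i) (e.symm j)) (fun i j => hcF _ _)
    (fun a h i => by
      have h1 := hc (fun i => a (e i)) (fun j => by
        have h2 := h (e j)
        rw [← Equiv.sum_comp e] at h2
        simpa using h2) (e.symm i)
      simpa using h1)
    (fun v i => w v (e.symm i)) (fun i => wI (e.symm i))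
    (fun v i ε hε => hw v (e.symm i) ε hε)
    (fun i ε hε => by
      filter_upwards [hwI (e.symm i) ε hε] with t ht
      rw [← Equiv.sum_comp e.symm] at ht
      exact ht)
    (by
      have h1 : ∑ v : Fin m, ∑ i : Fin n, w v (e.symm i) = ∑ v, ∑ i, w v i :=
        Finset.sum_congr rfl fun v _ => Equiv.sum_comp e.symm (w v)
      have h2 : ∑ i : Fin n, wI (e.symm i) = ∑ i, wI i := Equiv.sum_comp e.symm wI
      rw [h1, h2]
      exact hpos)
  refine ⟨fun i => a (e i), fun h => ha0 ?_, ?_⟩
  · funext i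
    have := congrFun h (e.symm i)
    simpa using this
  · filter_upwards [ha] with t ht
    rw [← Equiv.sum_comp e] at ht
    simpa using ht

variable {m : ℕ} (B : Base m)

/-- the integer with the given exponents -/
def un (B : Base m) (e : Fin m → ℕ) : ℤ := ∏ v, (B.P v : ℤ) ^ e v

lemma un_pos (e : Fin m → ℕ) : (0 : ℝ) < (un B e : ℝ) := by
  unfold un
  push_cast
  refine Finset.prod_pos fun v _ => ?_
  have : 0 < B.P v := by have := B.two v; omega
  positivity

lemma un_log (e : Fin m → ℕ) : Real.log (un B e : ℝ) = ∑ v, (e v : ℝ) * Real.log (B.P v) := by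
  unfold un
  push_cast
  rw [Real.log_prod fun v _ => by
    have : 0 < B.P v := by have := B.two v; omega
    positivity]
  refine Finset.sum_congr rfl fun v _ => ?_
  rw [Real.log_pow]

lemma log_P (v : Fin m) : 0 < Real.log (B.P v) :=
  Real.log_pos (by have := B.two v; exact_mod_cast (by omega : 1 < B.P v))

/-- the maximal exponents -/
noncomputable def EE (B : Base m) (N : ℝ) (v : Fin m) : ℕ := ⌊N / Real.log (B.P v)⌋₊

lemma EE_le (N : ℝ) (hN : 0 ≤ N) (v : Fin m) : (EE B N v : ℝ) * Real.log (B.P v) ≤ N := by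
  have h := log_P B v
  have := Nat.floor_le (a := N / Real.log (B.P v)) (by positivity)
  rw [le_div_iff₀ h] at this
  exact this

lemma EE_ge (N : ℝ) (v : Fin m) : N - Real.log (B.P v) ≤ (EE B N v : ℝ) * Real.log (B.P v) := by
  have h := log_P B v
  have := (Nat.lt_floor_add_one (N / Real.log (B.P v))).le
  rw [div_le_iff₀ h] at this
  unfold EE
  linarith

lemma le_EE (N : ℝ) (v : Fin m) (e : ℕ) (h : (e : ℝ) * Real.log (B.P v) ≤ N) : e ≤ EE B N v := by
  have h0 := log_P B v
  apply Nat.le_floor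
  rw [le_div_iff₀ h0]
  exact h

lemma un_sub (N : ℝ) (e : Fin m → ℕ) (h : ∀ v, (e v : ℝ) * Real.log (B.P v) ≤ N) :
    (un B (fun v => EE B N v - e v) : ℝ) = un B (EE B N) * ((un B e : ℝ))⁻¹ := by
  have h1 : un B (fun v => EE B N v - e v) * un B e = un B (EE B N) := by
    unfold un
    rw [← Finset.prod_mul_distrib]
    refine Finset.prod_congr rfl fun v _ => ?_
    rw [← pow_add, Nat.sub_add_cancel (le_EE B N v _ (h v))]
  rw [← h1]
  push_cast
  have := (un_pos B e).ne'
  field_simp

/-- limits of the quotients of the exponents -/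
lemma expsM (k : ℕ) (N : ℕ → ℝ) (hN : Tendsto N atTop atTop) (e : ℕ → Fin k → Fin m → ℕ)
    (he : ∀ᶠ t in (UU : Filter ℕ), ∀ i v, (e t i v : ℝ) * Real.log (B.P v) ≤ N t) :
    ∃ ν : Fin m → Fin k → ℝ, ∀ v i, ∀ ε : ℝ, 0 < ε → ∀ᶠ t in (UU : Filter ℕ),
      (ν v i - ε) * N t ≤ (e t i v : ℝ) * Real.log (B.P v) ∧
        (e t i v : ℝ) * Real.log (B.P v) ≤ (ν v i + ε) * N t := by
  have hpos : ∀ᶠ t in (UU : Filter ℕ), 1 ≤ N t := ev_of_atTop (hN.eventually_ge_atTop 1)
  have h1 : ∀ v i, ∃ x : ℝ, Tendsto (fun t => ((e t i v : ℝ) * Real.log (B.P v)) / N t)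
      (UU : Filter ℕ) (𝓝 x) := by
    intro v i
    obtain ⟨x, -, hx⟩ := ulim (fun t => ((e t i v : ℝ) * Real.log (B.P v)) / N t) 0 1 (by
      filter_upwards [he, hpos] with t ht hN1
      have := log_P B v
      refine ⟨by positivity, ?_⟩
      rw [div_le_one (by linarith)]
      exact ht i v)
    exact ⟨x, hx⟩
  choose ν hν using h1
  refine ⟨ν, fun v i ε hε => ?_⟩
  filter_upwards [near (hν v i) ε hε, hpos] with t ht hN1
  have hN0 : (0 : ℝ) < N t := by linarith
  rw [le_div_iff₀ hN0, div_le_iff₀ hN0] at ht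
  exact ht

/-- divisibility weights -/
lemma wt_unit (N : ℕ → ℝ) (hN : Tendsto N atTop atTop) (v : Fin m) (ε : ℝ) (hε : 0 < ε)
    (X : ℕ → ℤ) (hX : ∀ t, un B (EE B (N t)) ∣ X t) :
    ∀ᶠ t in (UU : Filter ℕ), ∃ k : ℕ,
      (B.P v : ℤ) ^ k ∣ X t ∧ (1 - ε) * N t ≤ k * Real.log (B.P v) := by
  have h1 := ev_of_atTop (hN.eventually_ge_atTop (Real.log (B.P v) / ε))
  filter_upwards [h1] with t ht
  refine ⟨EE B (N t) v, ?_, ?_⟩
  · refine dvd_trans ?_ (hX t)
    unfold un
    exact Finset.dvd_prod_of_mem (fun v => (B.P v : ℤ) ^ EE B (N t) v) (Finset.mem_univ v)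
  · have h2 := EE_ge B (N t) v
    rw [div_le_iff₀ hε] at ht
    linarith

lemma wt_sub (k : ℕ) (N : ℕ → ℝ) (hN : Tendsto N atTop atTop) (e : ℕ → Fin k → Fin m → ℕ)
    (he : ∀ᶠ t in (UU : Filter ℕ), ∀ i v, (e t i v : ℝ) * Real.log (B.P v) ≤ N t)
    (ν : Fin m → Fin k → ℝ) (hν : ∀ v i, ∀ ε : ℝ, 0 < ε → ∀ᶠ t in (UU : Filter ℕ),
      (ν v i - ε) * N t ≤ (e t i v : ℝ) * Real.log (B.P v) ∧
        (e t i v : ℝ) * Real.log (B.P v) ≤ (ν v i + ε) * N t)
    (v : Fin m) (i : Fin k) (ε : ℝ) (hε : 0 < ε) :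
    ∀ᶠ t in (UU : Filter ℕ), ∃ k : ℕ,
      (B.P v : ℤ) ^ k ∣ un B (fun v => EE B (N t) v - e t i v) ∧
        (1 - ν v i - ε) * N t ≤ k * Real.log (B.P v) := by
  have h1 := ev_of_atTop (hN.eventually_ge_atTop (Real.log (B.P v) / (ε / 2)))
  filter_upwards [h1, hν v i (ε / 2) (by positivity), he] with t ht hνt het
  refine ⟨EE B (N t) v - e t i v, ?_, ?_⟩
  · unfold un
    exact Finset.dvd_prod_of_mem (fun v => (B.P v : ℤ) ^ (EE B (N t) v - e t i v))
      (Finset.mem_univ v)
  · have h2 := EE_ge B (N t) v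
    rw [div_le_iff₀ (by positivity)] at ht
    rw [Nat.cast_sub (le_EE B _ v _ (het i v)), sub_mul]
    linarith [hνt.2]

lemma wt_size (k : ℕ) (N : ℕ → ℝ) (hN : Tendsto N atTop atTop) (e : ℕ → Fin k → Fin m → ℕ)
    (he : ∀ᶠ t in (UU : Filter ℕ), ∀ i v, (e t i v : ℝ) * Real.log (B.P v) ≤ N t)
    (ν : Fin m → Fin k → ℝ) (hν : ∀ v i, ∀ ε : ℝ, 0 < ε → ∀ᶠ t in (UU : Filter ℕ),
      (ν v i - ε) * N t ≤ (e t i v : ℝ) * Real.log (B.P v) ∧
        (e t i v : ℝ) * Real.log (B.P v) ≤ (ν v i + ε) * N t)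
    (i : Fin k) (ε : ℝ) (hε : 0 < ε) :
    ∀ᶠ t in (UU : Filter ℕ), |((un B (fun v => EE B (N t) v - e t i v) : ℤ) : ℝ)| ≤
      Real.exp (-(-(∑ v, (1 - ν v i)) - ε) * N t) := by
  have h0 : ∀ᶠ t in (UU : Filter ℕ), 0 ≤ N t := ev_of_atTop (hN.eventually_ge_atTop 0)
  filter_upwards [h0, Filter.eventually_all.2 fun v => hν v i (ε / (m + 1)) (by positivity), he]
    with t ht hνt het
  rw [abs_of_pos (un_pos B _), ← Real.exp_log (un_pos B _), un_log]
  apply Real.exp_le_exp.2
  have h1 : ∑ v, (((EE B (N t) v - e t i v : ℕ) : ℝ) * Real.log (B.P v)) ≤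
      ∑ v : Fin m, ((1 - ν v i) * N t + ε / (m + 1) * N t) := by
    refine Finset.sum_le_sum fun v _ => ?_
    rw [Nat.cast_sub (le_EE B _ v _ (het i v)), sub_mul]
    have h2 := EE_le B (N t) ht v
    have h3 := (hνt v).1
    linarith
  refine h1.trans ?_
  rw [Finset.sum_add_distrib, ← Finset.sum_mul, Finset.sum_const, Finset.card_univ,
    Fintype.card_fin, nsmul_eq_mul]
  have h4 : (m : ℝ) * (ε / (m + 1) * N t) ≤ ε * N t := by
    have : (m : ℝ) * (ε / (m + 1) * N t) = (m / (m + 1)) * (ε * N t) := by ring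
    rw [this]
    apply mul_le_of_le_one_left (by positivity)
    rw [div_le_one (by positivity)]
    linarith
  linarith

/-- **Sparse sums with denominators composed of given primes.** -/
theorem sparse_sumM (N : ℕ → ℝ) (hN : Tendsto N atTop atTop) (δ : ℝ)
    (hδ : 0 < δ) (k : ℕ) :
    ∀ (ξ : ℝ) (_ : IsAlgebraic ℚ ξ) (_ : Irrational ξ) (a : Fin k → ℚ)
      (e : ℕ → Fin k → Fin m → ℕ)
      (_ : ∀ᶠ t in (UU : Filter ℕ), ∀ i v, (e t i v : ℝ) * Real.log (B.P v) ≤ N t)
      (_ : ∀ᶠ t in (UU : Filter ℕ), |ξ + ∑ i, (a i : ℝ) * ((un B (e t i) : ℝ))⁻¹| ≤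
        Real.exp (-δ * N t)), False := by
  have hN0 : ∀ᶠ t in (UU : Filter ℕ), 0 ≤ N t := ev_of_atTop (hN.eventually_ge_atTop 0)
  induction k with
  | zero =>
    intro ξ halg hirr a e he h
    have hξ : 0 < |ξ| := abs_pos.2 hirr.ne_zero
    have h1 : Tendsto (fun t => Real.exp (-δ * N t)) atTop (𝓝 0) := by
      refine Real.tendsto_exp_atBot.comp ?_
      exact hN.const_mul_atTop_of_neg (by linarith : -δ < 0)
    have h2 := ev_of_atTop (h1.eventually (gt_mem_nhds hξ))
    obtain ⟨t, h3, h4⟩ := (h.and h2).exists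
    simp only [Finset.univ_eq_empty, Finset.sum_empty, add_zero] at h3
    linarith
  | succ k ih =>
    intro ξ halg hirr a e he h
    obtain ⟨F, hF, hξF⟩ := exists_field (J := 1) (fun _ => ξ) (fun _ => halg)
    have := hF
    obtain ⟨ν, hν⟩ := expsM B (k + 1) N hN e he
    obtain ⟨A, hA0, hA⟩ := sub_finM (ι := Option (Fin (k + 1))) B N hN F
      (fun i t => match i with
        | none => un B (EE B (N t))
        | some i => un B (fun v => EE B (N t) v - e t i v))
      (fun i j => match i, j with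
        | none, none => ξ
        | none, some j => a j
        | some i, none => 0
        | some i, some j => if i = j then 1 else 0)
      (by
        intro i j
        rcases i with _ | i <;> rcases j with _ | j
        · exact hξF 0
        · exact rat_mem F _
        · exact F.zero_mem
        · show (if i = j then (1 : ℝ) else 0) ∈ F
          split_ifs
          · exact F.one_mem
          · exact F.zero_mem)
      (by
        intro c hc
        have h0 : c none = 0 := by
          have h1 := hc none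
          rw [Fintype.sum_option] at h1
          simp only [mul_zero, Finset.sum_const_zero, add_zero] at h1
          exact (mul_eq_zero.1 h1).resolve_right hirr.ne_zero
        intro i
        rcases i with _ | i
        · exact h0
        · have h1 := hc (some i)
          rw [Fintype.sum_option, h0, zero_mul, zero_add] at h1
          simpa using h1)
      (fun v i => match i with
        | none => 1
        | some i => 1 - ν v i)
      (fun i => match i with
        | none => -m + δ
        | some i => -(∑ v, (1 - ν v i)))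
      (by
        intro v i ε hε
        rcases i with _ | i
        · exact wt_unit B N hN v ε hε _ fun t => dvd_rfl
        · exact wt_sub B (k + 1) N hN e he ν hν v i ε hε)
      (by
        intro i ε hε
        rcases i with _ | i
        · filter_upwards [h, he, hN0] with t ht het hNt
          rw [Fintype.sum_option]
          show |ξ * (un B (EE B (N t)) : ℝ) +
            ∑ i, (a i : ℝ) * ((un B (fun v => EE B (N t) v - e t i v) : ℤ) : ℝ)| ≤ _
          have e1 : ξ * (un B (EE B (N t)) : ℝ) +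
              ∑ i, (a i : ℝ) * ((un B (fun v => EE B (N t) v - e t i v) : ℤ) : ℝ) =
              (un B (EE B (N t)) : ℝ) * (ξ + ∑ i, (a i : ℝ) * ((un B (e t i) : ℝ))⁻¹) := by
            rw [mul_add, Finset.mul_sum]
            congr 1
            · ring
            · refine Finset.sum_congr rfl fun i _ => ?_
              rw [un_sub B _ _ (het i)]
              ring
          rw [e1, abs_mul, abs_of_pos (un_pos B _)]
          have h5 : (un B (EE B (N t)) : ℝ) ≤ Real.exp (m * N t) := by
            rw [← Real.exp_log (un_pos B _), un_log]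
            apply Real.exp_le_exp.2
            calc ∑ v, (EE B (N t) v : ℝ) * Real.log (B.P v) ≤ ∑ _v : Fin m, N t :=
                  Finset.sum_le_sum fun v _ => EE_le B _ hNt v
              _ = m * N t := by simp
          calc (un B (EE B (N t)) : ℝ) * |ξ + ∑ i, (a i : ℝ) * ((un B (e t i) : ℝ))⁻¹| ≤
              Real.exp (m * N t) * Real.exp (-δ * N t) :=
                mul_le_mul h5 ht (abs_nonneg _) (Real.exp_pos _).le
            _ ≤ _ := by
              rw [← Real.exp_add]
              apply Real.exp_le_exp.2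
              show _ ≤ -(-m + δ - ε) * N t
              nlinarith
        · filter_upwards [wt_size B (k + 1) N hN e he ν hν i ε hε] with t ht
          rw [Fintype.sum_option]
          show |(0 : ℝ) * _ + ∑ j, (if i = j then (1 : ℝ) else 0) *
            ((un B (fun v => EE B (N t) v - e t j v) : ℤ) : ℝ)| ≤ _
          simp only [zero_mul, zero_add, ite_mul, one_mul, Finset.sum_ite_eq, Finset.mem_univ,
            if_true]
          exact ht)
      (by
        simp only [Fintype.sum_option, Finset.sum_add_distrib, Finset.sum_const,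
          Finset.card_univ, Fintype.card_fin, nsmul_eq_mul, mul_one, Finset.sum_neg_distrib]
        rw [Finset.sum_comm]
        linarith)
    -- elimination
    have hrel : ∀ᶠ t in (UU : Filter ℕ), (A none : ℝ) +
        ∑ i, (A (some i) : ℝ) * ((un B (e t i) : ℝ))⁻¹ = 0 := by
      filter_upwards [hA, he] with t ht het
      rw [Fintype.sum_option] at ht
      have h1 : ((A none : ℤ) : ℝ) * (un B (EE B (N t)) : ℝ) +
          ∑ i, ((A (some i) : ℤ) : ℝ) * ((un B (fun v => EE B (N t) v - e t i v) : ℤ) : ℝ) = 0 := by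
        exact_mod_cast ht
      have e1 : ((A none : ℤ) : ℝ) * (un B (EE B (N t)) : ℝ) +
          ∑ i, ((A (some i) : ℤ) : ℝ) * ((un B (fun v => EE B (N t) v - e t i v) : ℤ) : ℝ) =
          (un B (EE B (N t)) : ℝ) *
            ((A none : ℝ) + ∑ i, (A (some i) : ℝ) * ((un B (e t i) : ℝ))⁻¹) := by
        rw [mul_add, Finset.mul_sum]
        congr 1
        · ring
        · refine Finset.sum_congr rfl fun i _ => ?_
          rw [un_sub B _ _ (het i)]
          ring
      rw [e1] at h1
      exact (mul_eq_zero.1 h1).resolve_left (un_pos B _).ne'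
    obtain ⟨j, hj⟩ : ∃ j, A (some j) ≠ 0 := by
      by_contra hcon
      push Not at hcon
      obtain ⟨t, ht⟩ := hrel.exists
      simp only [hcon, Int.cast_zero, zero_mul, Finset.sum_const_zero, add_zero] at ht
      apply hA0
      funext i
      rcases i with _ | i
      · exact_mod_cast ht
      · exact hcon i
    have hjR : (A (some j) : ℝ) ≠ 0 := by exact_mod_cast hj
    refine ih (ξ + ((-(a j * A none / A (some j)) : ℚ) : ℝ)) ?_ ?_
      (fun i => a (j.succAbove i) - a j * A (some (j.succAbove i)) / A (some j))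
      (fun t i => e t (j.succAbove i)) ?_ ?_
    · exact halg.add (isAlgebraic_algebraMap _)
    · exact hirr.add_ratCast _
    · filter_upwards [he] with t ht i v
      exact ht _ v
    · filter_upwards [h, hrel] with t ht hr
      have e1 : ξ + ((-(a j * A none / A (some j)) : ℚ) : ℝ) +
          ∑ i : Fin k, ((a (j.succAbove i) - a j * A (some (j.succAbove i)) / A (some j) : ℚ) : ℝ) *
            ((un B (e t (j.succAbove i)) : ℝ))⁻¹ =
          ξ + ∑ i, (a i : ℝ) * ((un B (e t i) : ℝ))⁻¹ := by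
        rw [Fin.sum_univ_succAbove _ j] at hr ⊢
        have h2 : ((un B (e t j) : ℝ))⁻¹ = -((A none : ℝ) + ∑ i : Fin k,
            (A (some (j.succAbove i)) : ℝ) * ((un B (e t (j.succAbove i)) : ℝ))⁻¹) /
              A (some j) := by
          rw [eq_div_iff hjR]
          linarith
        rw [h2]
        push_cast
        simp only [sub_mul, Finset.sum_sub_distrib]
        have h3 : ∑ x : Fin k, (a j : ℝ) * A (some (j.succAbove x)) / A (some j) *
            ((un B (e t (j.succAbove x)) : ℝ))⁻¹ = a j / A (some j) * ∑ i : Fin k,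
            (A (some (j.succAbove i)) : ℝ) * ((un B (e t (j.succAbove i)) : ℝ))⁻¹ := by
          rw [Finset.mul_sum]
          refine Finset.sum_congr rfl fun i _ => ?_
          ring
        rw [h3]
        field_simp
        ring
      rw [e1]
      exact ht

end Pool.Agent.Q50.SP
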