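import Pool.Agent.Q50.SP.Dual

/-!
# Rational approximations whose numerator and denominator are short sums
-/

set_option autoImplicit false

namespace Pool.Agent.Q50.SP

open Filter Topology Pool.Agent.TH932.Abs Pool.Agent.TH932.Germs
open Pool.Agent.TH796.AL

variable {m : ℕ} (B : Base m)

/-- limits of normalised nonnegative sequences -/
lemma lim_ratio (N : ℕ → ℝ) (hN : Tendsto N atTop atTop) (C : ℝ) (f : ℕ → ℝ)
    (hf : ∀ᶠ t in (UU : Filter ℕ), 0 ≤ f t ∧ f t ≤ C * N t) :
    ∃ x : ℝ, 0 ≤ x ∧ ∀ ε : ℝ, 0 < ε → ∀ᶠ t in (UU : Filter ℕ),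
      (x - ε) * N t ≤ f t ∧ f t ≤ (x + ε) * N t := by
  have hpos : ∀ᶠ t in (UU : Filter ℕ), 1 ≤ N t := ev_of_atTop (hN.eventually_ge_atTop 1)
  obtain ⟨x, hx0, hx⟩ := ulim (fun t => f t / N t) 0 C (by
    filter_upwards [hf, hpos] with t ht hN1
    refine ⟨div_nonneg ht.1 (by linarith), ?_⟩
    rw [div_le_iff₀ (by linarith)]
    exact ht.2)
  refine ⟨x, hx0.1, fun ε hε => ?_⟩
  filter_upwards [near hx ε hε, hpos] with t ht hN1
  have hN0 : (0 : ℝ) < N t := by linarith
  rw [le_div_iff₀ hN0, div_le_iff₀ hN0] at ht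
  exact ht

/-- **Approximations `p / q` with `q = ∑ s_j A_j u_j`, `p = ∑ r_j A_j u_j`**, along sequences. -/
theorem rep_seq (N : ℕ → ℝ) (hN : Tendsto N atTop atTop) (δ C : ℝ) (hδ : 0 < δ)
    (K : ℕ) (ξ : ℝ) (halg : IsAlgebraic ℚ ξ) (hirr : Irrational ξ) (s r : Fin K → ℚ)
    (A : ℕ → Fin K → ℤ) (g : ℕ → Fin K → Fin m → ℕ)
    (hA : ∀ᶠ t in (UU : Filter ℕ), ∀ j, Real.log (max |(A t j : ℝ)| 1) ≤ C * N t)
    (hg : ∀ᶠ t in (UU : Filter ℕ), ∀ j, Real.log (un B (g t j)) ≤ C * N t)
    (hq : ∀ᶠ t in (UU : Filter ℕ), Real.exp (N t) ≤ |∑ j, (s j : ℝ) * (A t j * un B (g t j))|)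
    (h : ∀ᶠ t in (UU : Filter ℕ),
      |ξ * ∑ j, (s j : ℝ) * (A t j * un B (g t j)) - ∑ j, (r j : ℝ) * (A t j * un B (g t j))| ≤
        Real.exp (N t - ∑ j, Real.log (max |(A t j : ℝ)| 1) - δ * N t)) : False := by
  classical
  have hN0 : ∀ᶠ t in (UU : Filter ℕ), 0 ≤ N t := ev_of_atTop (hN.eventually_ge_atTop 0)
  obtain ⟨z, hz⟩ : ∃ z : Fin K → ℕ → ℝ, ∀ j t, z j t = A t j * un B (g t j) := ⟨_, fun _ _ => rfl⟩
  simp only [← hz] at hq h
  obtain ⟨b, T, hTli, hT, -, hTb, hTnb⟩ := exists_basis z ∅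
  -- the sizes
  obtain ⟨α, hα0, hα⟩ : ∃ α : Fin K → ℝ, (∀ j, 0 ≤ α j) ∧ ∀ j, ∀ ε : ℝ, 0 < ε →
      ∀ᶠ t in (UU : Filter ℕ), (α j - ε) * N t ≤ Real.log (max |(A t j : ℝ)| 1) ∧
        Real.log (max |(A t j : ℝ)| 1) ≤ (α j + ε) * N t := by
    have h1 : ∀ j, ∃ x : ℝ, 0 ≤ x ∧ ∀ ε : ℝ, 0 < ε → ∀ᶠ t in (UU : Filter ℕ),
        (x - ε) * N t ≤ Real.log (max |(A t j : ℝ)| 1) ∧
          Real.log (max |(A t j : ℝ)| 1) ≤ (x + ε) * N t := fun j =>
      lim_ratio N hN C _ (by
        filter_upwards [hA] with t ht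
        exact ⟨Real.log_nonneg (le_max_right _ _), ht j⟩)
    choose α h2 h3 using h1
    exact ⟨α, h2, h3⟩
  obtain ⟨γ, hγ0, hγ⟩ : ∃ γ : Fin m → Fin K → ℝ, (∀ v j, 0 ≤ γ v j) ∧ ∀ v j, ∀ ε : ℝ, 0 < ε →
      ∀ᶠ t in (UU : Filter ℕ), (γ v j - ε) * N t ≤ (g t j v : ℝ) * Real.log (B.P v) ∧
        (g t j v : ℝ) * Real.log (B.P v) ≤ (γ v j + ε) * N t := by
    have h1 : ∀ v j, ∃ x : ℝ, 0 ≤ x ∧ ∀ ε : ℝ, 0 < ε → ∀ᶠ t in (UU : Filter ℕ),
        (x - ε) * N t ≤ (g t j v : ℝ) * Real.log (B.P v) ∧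
          (g t j v : ℝ) * Real.log (B.P v) ≤ (x + ε) * N t := fun v j =>
      lim_ratio N hN C _ (by
        filter_upwards [hg] with t ht
        have h2 := ht j
        rw [un_log] at h2
        refine ⟨mul_nonneg (Nat.cast_nonneg _) (log_P B v).le, le_trans ?_ h2⟩
        exact Finset.single_le_sum (f := fun v => (g t j v : ℝ) * Real.log (B.P v))
          (fun v _ => mul_nonneg (Nat.cast_nonneg _) (log_P B v).le) (Finset.mem_univ v))
    choose γ h2 h3 using h1
    exact ⟨γ, h2, h3⟩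
  -- the size of the products
  have hsize : ∀ j, ∀ ε : ℝ, 0 < ε → ∀ᶠ t in (UU : Filter ℕ),
      |z j t| ≤ Real.exp ((α j + ∑ v, γ v j + ε) * N t) := by
    intro j ε hε
    filter_upwards [hα j (ε / 2) (by positivity), Filter.eventually_all.2 fun v =>
      hγ v j (ε / (2 * (m + 1))) (by positivity), hN0] with t h1 h2 hNt
    rw [hz, abs_mul, abs_of_pos (un_pos B _)]
    have h3 : |(A t j : ℝ)| ≤ Real.exp ((α j + ε / 2) * N t) := by
      refine (le_max_left _ 1).trans ?_
      rw [← Real.exp_log (lt_of_lt_of_le one_pos (le_max_right |(A t j : ℝ)| 1))]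
      exact Real.exp_le_exp.2 h1.2
    have h4 : (un B (g t j) : ℝ) ≤ Real.exp ((∑ v, γ v j + ε / 2) * N t) := by
      rw [← Real.exp_log (un_pos B (g t j)), un_log]
      apply Real.exp_le_exp.2
      calc ∑ v, (g t j v : ℝ) * Real.log (B.P v) ≤
          ∑ v : Fin m, (γ v j * N t + ε / (2 * (m + 1)) * N t) :=
            Finset.sum_le_sum fun v _ => by have := (h2 v).2; linarith
        _ = (∑ v, γ v j) * N t + m * (ε / (2 * (m + 1)) * N t) := by
            rw [Finset.sum_add_distrib, ← Finset.sum_mul, Finset.sum_const,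
              Finset.card_univ, Fintype.card_fin, nsmul_eq_mul]
        _ ≤ _ := by
            have : (m : ℝ) * (ε / (2 * (m + 1)) * N t) = (m / (m + 1)) * (ε / 2 * N t) := by
              field_simp
            rw [this, add_mul]
            have h3 : ((m : ℝ) / (m + 1)) * (ε / 2 * N t) ≤ ε / 2 * N t := by
              apply mul_le_of_le_one_left (by positivity)
              rw [div_le_one (by positivity)]
              linarith
            linarith
    calc |(A t j : ℝ)| * (un B (g t j) : ℝ) ≤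
        Real.exp ((α j + ε / 2) * N t) * Real.exp ((∑ v, γ v j + ε / 2) * N t) :=
          mul_le_mul h3 h4 (un_pos B _).le (Real.exp_pos _).le
      _ = _ := by
        rw [← Real.exp_add]
        congr 1
        ring
  -- the coefficients
  obtain ⟨S, hS⟩ : ∃ S : Fin K → ℚ, ∀ β, S β = ∑ j, s j * T j β := ⟨_, fun _ => rfl⟩
  obtain ⟨R, hR⟩ : ∃ R : Fin K → ℚ, ∀ β, R β = ∑ j, r j * T j β := ⟨_, fun _ => rfl⟩
  have hcomb : ∀ (s S : Fin K → ℚ), (∀ β, S β = ∑ j, s j * T j β) →
      ∀ᶠ t in (UU : Filter ℕ), ∑ j, (s j : ℝ) * z j t = ∑ β, (S β : ℝ) * z β t := by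
    intro s S hS
    filter_upwards [Filter.eventually_all.2 hT] with t ht
    calc ∑ j, (s j : ℝ) * z j t = ∑ j, ∑ β, (s j : ℝ) * (T j β : ℝ) * z β t := by
          refine Finset.sum_congr rfl fun j _ => ?_
          rw [ht j, Finset.mul_sum]
          refine Finset.sum_congr rfl fun β _ => ?_
          ring
      _ = ∑ β, ∑ j, (s j : ℝ) * (T j β : ℝ) * z β t := Finset.sum_comm
      _ = _ := by
          refine Finset.sum_congr rfl fun β _ => ?_
          rw [hS, ← Finset.sum_mul]
          push_cast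
          rfl
  have hqS := hcomb s S hS
  have hpR := hcomb r R hR
  have hSnb : ∀ β ∉ b, S β = 0 := fun β hβ => by
    rw [hS]
    exact Finset.sum_eq_zero fun j _ => by rw [hTnb j β hβ, mul_zero]
  have hRnb : ∀ β ∉ b, R β = 0 := fun β hβ => by
    rw [hR]
    exact Finset.sum_eq_zero fun j _ => by rw [hTnb j β hβ, mul_zero]
  -- the choice of the variable
  obtain ⟨κ, hκ⟩ : ∃ κ : ℝ, κ = ∑ β, |(S β : ℝ)| + 1 := ⟨_, rfl⟩
  have hκ1 : 1 ≤ κ := by
    rw [hκ]
    have : 0 ≤ ∑ β, |(S β : ℝ)| := Finset.sum_nonneg fun _ _ => abs_nonneg _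
    linarith
  have hex : ∀ᶠ t in (UU : Filter ℕ), ∃ β, S β ≠ 0 ∧ Real.exp (N t) ≤ κ * |z β t| := by
    filter_upwards [hq, hqS] with t h1 h2
    by_contra hcon
    push Not at hcon
    rw [h2] at h1
    have h3 : |∑ β, (S β : ℝ) * z β t| ≤ ∑ β, |(S β : ℝ)| * (Real.exp (N t) / κ) := by
      refine (Finset.abs_sum_le_sum_abs _ _).trans (Finset.sum_le_sum fun β _ => ?_)
      rw [abs_mul]
      by_cases h0 : S β = 0
      · rw [h0]
        simp
      · refine mul_le_mul_of_nonneg_left ?_ (abs_nonneg _)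
        rw [le_div_iff₀ (by linarith), mul_comm]
        exact (hcon β h0).le
    rw [← Finset.sum_mul] at h3
    have h4 : (∑ β, |(S β : ℝ)|) * (Real.exp (N t) / κ) < Real.exp (N t) := by
      rw [mul_div_assoc', div_lt_iff₀ (by linarith), mul_comm]
      apply mul_lt_mul_of_pos_left _ (Real.exp_pos _)
      rw [hκ]
      linarith
    linarith
  obtain ⟨β0, hβ0⟩ := Ultrafilter.eventually_exists_iff.1 hex
  have hS0 : S β0 ≠ 0 := by
    obtain ⟨t, ht⟩ := hβ0.exists
    exact ht.1
  have hβ0b : β0 ∈ b := by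
    by_contra hcon
    exact hS0 (hSnb β0 hcon)
  have hβ0s : 1 ≤ α β0 + ∑ v, γ v β0 := by
    by_contra hcon
    push Not at hcon
    obtain ⟨ε, hε⟩ : ∃ ε : ℝ, ε = (1 - (α β0 + ∑ v, γ v β0)) / 2 := ⟨_, rfl⟩
    have hε0 : 0 < ε := by rw [hε]; linarith
    have h1 := ev_of_atTop (hN.eventually_gt_atTop (Real.log κ / ε))
    obtain ⟨t, h2, h3, h4⟩ := (h1.and (hβ0.and (hsize β0 ε hε0))).exists
    have h5 : Real.exp (N t) ≤ κ * Real.exp ((α β0 + ∑ v, γ v β0 + ε) * N t) :=
      h3.2.trans (mul_le_mul_of_nonneg_left h4 (by linarith))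
    rw [← Real.exp_log (by linarith : 0 < κ), ← Real.exp_add] at h5
    have h6 := Real.exp_le_exp.1 h5
    rw [div_lt_iff₀ hε0] at h2
    have h7 : (α β0 + ∑ v, γ v β0 + ε) * N t = N t - ε * N t := by
      rw [hε]
      ring
    rw [h7] at h6
    linarith
  have hc0 : ξ * S β0 - R β0 ≠ 0 := by
    intro h0
    apply hirr
    refine ⟨R β0 / S β0, ?_⟩
    have : (S β0 : ℝ) ≠ 0 := by exact_mod_cast hS0
    push_cast
    field_simp
    linarith
  obtain ⟨F, hF, hξF⟩ := exists_field (J := 1) (fun _ => ξ) (fun _ => halg)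
  have := hF
  -- the subspace theorem
  obtain ⟨a, ha0, ha⟩ := sub_finM (ι := {β : Fin K // β ∈ b}) B N hN F
    (fun β t => A t β.1 * un B (g t β.1))
    (fun i j => if i.1 = β0 then ξ * S j.1 - R j.1 else if i = j then 1 else 0)
    (by
      intro i j
      split_ifs
      · exact F.sub_mem (F.mul_mem (hξF 0) (rat_mem F _)) (rat_mem F _)
      · exact F.one_mem
      · exact F.zero_mem)
    (by
      intro c hc
      have h0 : c ⟨β0, hβ0b⟩ = 0 := by
        have h1 := hc ⟨β0, hβ0b⟩
        rw [Finset.sum_eq_single ⟨β0, hβ0b⟩] at h1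
        · simp only [if_true] at h1
          exact (mul_eq_zero.1 h1).resolve_right hc0
        · intro i _ hi
          have h2 : i.1 ≠ β0 := fun h => hi (Subtype.ext h)
          rw [if_neg h2, if_neg hi, mul_zero]
        · intro h
          exact absurd (Finset.mem_univ _) h
      intro j
      by_cases hj : j.1 = β0
      · have : j = ⟨β0, hβ0b⟩ := Subtype.ext hj
        rw [this]
        exact h0
      · have h1 := hc j
        rw [Finset.sum_eq_single j] at h1
        · rw [if_neg hj, if_pos rfl, mul_one] at h1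
          exact h1
        · intro i _ hi
          by_cases h2 : i.1 = β0
          · have : i = ⟨β0, hβ0b⟩ := Subtype.ext h2
            rw [this, h0, zero_mul]
          · rw [if_neg h2, if_neg hi, mul_zero]
        · intro h
          exact absurd (Finset.mem_univ _) h)
    (fun v β => γ v β.1)
    (fun β => if β.1 = β0 then -(1 - ∑ j, α j - δ) else -(α β.1 + ∑ v, γ v β.1))
    (by
      intro v β ε hε
      filter_upwards [hγ v β.1 ε hε] with t ht
      refine ⟨g t β.1 v, ?_, ht.1⟩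
      refine Dvd.dvd.mul_left ?_ _
      unfold un
      exact Finset.dvd_prod_of_mem (fun v => (B.P v : ℤ) ^ (g t β.1 v)) (Finset.mem_univ v))
    (by
      intro β ε hε
      have hzX : ∀ β t, ((A t β * un B (g t β) : ℤ) : ℝ) = z β t := by
        intro β t
        rw [hz]
        push_cast
        rfl
      simp only [hzX]
      by_cases hββ : β.1 = β0
      · simp only [hββ, if_true]
        filter_upwards [h, hqS, hpR, Filter.eventually_all.2 fun j =>
          hα j (ε / (K + 1)) (by positivity), hN0] with t ht h1 h2 h3 hNt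
        have e1 : ∑ j : {β : Fin K // β ∈ b}, (ξ * S j.1 - R j.1) * z j.1 t =
            ξ * ∑ j, (s j : ℝ) * z j t - ∑ j, (r j : ℝ) * z j t := by
          rw [h1, h2, Finset.sum_coe_sort b (fun j => (ξ * S j - R j) * z j t),
            Finset.sum_subset (Finset.subset_univ b), Finset.mul_sum, ← Finset.sum_sub_distrib]
          · refine Finset.sum_congr rfl fun j _ => ?_
            ring
          · intro j _ hj
            rw [hSnb j hj, hRnb j hj]
            simp
        rw [e1]
        refine ht.trans (Real.exp_le_exp.2 ?_)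
        have h4 : ∑ j : Fin K, (α j - ε / (K + 1)) * N t ≤
            ∑ j, Real.log (max |(A t j : ℝ)| 1) := Finset.sum_le_sum fun j _ => (h3 j).1
        have h5 : ∑ j : Fin K, (α j - ε / (K + 1)) * N t =
            (∑ j, α j) * N t - K * (ε / (K + 1) * N t) := by
          rw [← Finset.sum_mul, Finset.sum_sub_distrib, Finset.sum_const, Finset.card_univ,
            Fintype.card_fin, nsmul_eq_mul]
          ring
        have h6 : (K : ℝ) * (ε / (K + 1) * N t) ≤ ε * N t := by
          have : (K : ℝ) * (ε / (K + 1) * N t) = (K / (K + 1)) * (ε * N t) := by ring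
          rw [this]
          apply mul_le_of_le_one_left (by positivity)
          rw [div_le_one (by positivity)]
          linarith
        have h7 : -(-(1 - ∑ j, α j - δ) - ε) * N t =
          N t - (∑ j, α j) * N t - δ * N t + ε * N t := by ring
        rw [h7]
        linarith
      · simp only [hββ, if_false]
        filter_upwards [hsize β.1 ε hε] with t ht
        have e1 : ∑ j : {β : Fin K // β ∈ b}, (if β = j then (1 : ℝ) else 0) * z j.1 t =
            z β.1 t := by
          rw [Finset.sum_eq_single β]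
          · simp
          · intro j _ hj
            rw [if_neg (fun h => hj h.symm), zero_mul]
          · intro h
            exact absurd (Finset.mem_univ _) h
        rw [e1]
        have e2 : -(-(α β.1 + ∑ v, γ v β.1) - ε) * N t = (α β.1 + ∑ v, γ v β.1 + ε) * N t := by
          ring
        rw [e2]
        exact ht)
    (by
      rw [Finset.sum_comm, ← Finset.sum_add_distrib]
      have h1 : ∀ β : {β : Fin K // β ∈ b}, (if β.1 = β0 then (∑ j, α j + δ : ℝ) else 0) - α β.1 ≤
          ∑ v, γ v β.1 +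
          (if β.1 = β0 then -(1 - ∑ j, α j - δ) else -(α β.1 + ∑ v, γ v β.1)) := by
        intro β
        by_cases hββ : β.1 = β0
        · simp only [hββ, if_true]
          linarith
        · simp only [hββ, if_false]
          linarith
      refine lt_of_lt_of_le ?_ (Finset.sum_le_sum fun β _ => h1 β)
      rw [Finset.sum_sub_distrib]
      have h2 : ∑ β : {β : Fin K // β ∈ b}, (if β.1 = β0 then (∑ j, α j + δ : ℝ) else 0) =
          ∑ j, α j + δ := by
        rw [Finset.sum_eq_single ⟨β0, hβ0b⟩]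
        · simp
        · intro β _ hβ
          exact if_neg fun h => hβ (Subtype.ext h)
        · intro h
          exact absurd (Finset.mem_univ _) h
      have h3 : ∑ β : {β : Fin K // β ∈ b}, α β.1 ≤ ∑ j, α j := by
        rw [Finset.sum_coe_sort b (fun β => α β)]
        exact Finset.sum_le_sum_of_subset_of_nonneg (Finset.subset_univ b) fun _ _ _ => hα0 _
      rw [h2]
      linarith)
  -- the relation contradicts the independence
  obtain ⟨A', hA'⟩ : ∃ A' : Fin K → ℚ, ∀ i, A' i = if hi : i ∈ b then (a ⟨i, hi⟩ : ℚ) else 0 :=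
    ⟨_, fun _ => rfl⟩
  have hA'0 := hTli A' (fun i hi => by rw [hA', dif_neg hi]) (by
    filter_upwards [ha] with t ht
    rw [← Finset.sum_subset (Finset.subset_univ b)]
    · rw [← Finset.sum_coe_sort b (fun i => (A' i : ℝ) * z i t)]
      have h2 : ((∑ i : {β : Fin K // β ∈ b}, a i * (A t i.1 * un B (g t i.1)) : ℤ) : ℝ) = 0 := by
        rw [ht]
        simp
      rw [← h2]
      push_cast
      refine Finset.sum_congr rfl fun i _ => ?_
      rw [hz, hA', dif_pos i.2]
      push_cast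
      ring
    · intro i _ hi
      rw [hA', dif_neg hi]
      simp)
  apply ha0
  funext i
  have h1 := congrFun hA'0 i.1
  rw [hA', dif_pos i.2] at h1
  simpa using h1

end Pool.Agent.Q50.SP
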