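import Pool.Agent.Q50.SP.Rep
import Pool.Agent.Q50.SP.Approx

/-!
# Rational approximations whose numerator and denominator are short sums, or have simple windows
-/

set_option autoImplicit false

namespace Pool.Agent.Q50.SP

open Filter Topology Pool.Agent.TH932.Abs Pool.Agent.TH932.Germs
open Pool.Agent.TH796.AL Finset

/-- **Approximations `p / q` with `q = ∑ A_j u_j`, `p = ∑ D_j v_j`.** -/
theorem rep_approx {m : ℕ} (B : Base m) (ξ : ℝ) (halg : IsAlgebraic ℚ ξ) (hirr : Irrational ξ)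
    (K L : ℕ) (C δ : ℝ) (hδ : 0 < δ) :
    ∃ Q₀ : ℝ, ∀ (q p : ℤ) (A : Fin K → ℤ) (g : Fin K → Fin m → ℕ) (D : Fin L → ℤ)
      (h : Fin L → Fin m → ℕ), Q₀ ≤ |(q : ℝ)| →
      q = ∑ j, A j * un B (g j) → p = ∑ j, D j * un B (h j) →
      (∀ j, Real.log (max |(A j : ℝ)| 1) ≤ C * Real.log |(q : ℝ)|) →
      (∀ j, Real.log (un B (g j)) ≤ C * Real.log |(q : ℝ)|) →
      (∀ j, Real.log (max |(D j : ℝ)| 1) ≤ C * Real.log |(q : ℝ)|) →
      (∀ j, Real.log (un B (h j)) ≤ C * Real.log |(q : ℝ)|) →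
      Real.exp ((1 - δ) * Real.log |(q : ℝ)| - ∑ j, Real.log (max |(A j : ℝ)| 1) -
        ∑ j, Real.log (max |(D j : ℝ)| 1)) < |ξ * q - p| := by
  by_contra hcon
  push Not at hcon
  choose q p A g D h hQ hq hp hA hg hD hh hle using fun t : ℕ => hcon (Real.exp (t : ℝ))
  obtain ⟨N, hN⟩ : ∃ N : ℕ → ℝ, ∀ t, N t = Real.log |(q t : ℝ)| := ⟨_, fun _ => rfl⟩
  have hqpos : ∀ t, 0 < |(q t : ℝ)| := fun t => lt_of_lt_of_le (Real.exp_pos _) (hQ t)
  have hNt : Tendsto N atTop atTop := by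
    refine tendsto_atTop_mono (fun t => ?_) tendsto_natCast_atTop_atTop
    rw [hN, Real.le_log_iff_exp_le (hqpos t)]
    exact hQ t
  have hlog : ∀ (x : ℤ), Real.log (max |((x : ℤ) : ℝ)| 1) = Real.log (max |(x : ℝ)| 1) :=
    fun _ => rfl
  refine rep_seq B N hNt δ C hδ (K + L) ξ halg hirr (Fin.append (fun _ => 1) (fun _ => 0))
    (Fin.append (fun _ => 0) (fun _ => 1)) (fun t => Fin.append (A t) (D t))
    (fun t => Fin.append (g t) (h t)) ?_ ?_ ?_ ?_
  · filter_upwards with t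
    intro j
    rw [hN]
    refine Fin.addCases (fun i => ?_) (fun i => ?_) j
    · rw [Fin.append_left]
      exact hA t i
    · rw [Fin.append_right]
      exact hD t i
  · filter_upwards with t
    intro j
    rw [hN]
    refine Fin.addCases (fun i => ?_) (fun i => ?_) j
    · rw [Fin.append_left]
      exact hg t i
    · rw [Fin.append_right]
      exact hh t i
  · filter_upwards with t
    have e1 : ∑ j : Fin (K + L), ((Fin.append (fun _ => 1) (fun _ => 0) j : ℚ) : ℝ) *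
        (((Fin.append (A t) (D t) j : ℤ) : ℝ) * (un B (Fin.append (g t) (h t) j) : ℝ)) = q t := by
      rw [Fin.sum_univ_add]
      simp only [Fin.append_left, Fin.append_right, Rat.cast_one, Rat.cast_zero, one_mul, zero_mul,
        Finset.sum_const_zero, add_zero]
      rw [hq t]
      push_cast
      rfl
    rw [e1, hN, Real.exp_log (hqpos t)]
  · filter_upwards with t
    have e1 : ∑ j : Fin (K + L), ((Fin.append (fun _ => 1) (fun _ => 0) j : ℚ) : ℝ) *
        (((Fin.append (A t) (D t) j : ℤ) : ℝ) * (un B (Fin.append (g t) (h t) j) : ℝ)) = q t := by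
      rw [Fin.sum_univ_add]
      simp only [Fin.append_left, Fin.append_right, Rat.cast_one, Rat.cast_zero, one_mul, zero_mul,
        Finset.sum_const_zero, add_zero]
      rw [hq t]
      push_cast
      rfl
    have e2 : ∑ j : Fin (K + L), ((Fin.append (fun _ => 0) (fun _ => 1) j : ℚ) : ℝ) *
        (((Fin.append (A t) (D t) j : ℤ) : ℝ) * (un B (Fin.append (g t) (h t) j) : ℝ)) = p t := by
      rw [Fin.sum_univ_add]
      simp only [Fin.append_left, Fin.append_right, Rat.cast_one, Rat.cast_zero, one_mul, zero_mul,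
        Finset.sum_const_zero, zero_add]
      rw [hp t]
      push_cast
      rfl
    rw [e1, e2]
    refine (hle t).trans (Real.exp_le_exp.2 ?_)
    rw [Fin.sum_univ_add]
    simp only [Fin.append_left, Fin.append_right]
    rw [hN]
    linarith

/-- integers composed of given primes -/
theorem base_S (S : Finset ℕ) : ∃ (m : ℕ) (B : Base m), ∀ u : ℕ, u ≠ 0 → u.primeFactors ⊆ S →
    ∃ g, un B g = u := by
  classical
  obtain ⟨P, hP⟩ : ∃ P : Finset ℕ, P = S.filter Nat.Prime := ⟨_, rfl⟩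
  have hPp : ∀ p ∈ P, p.Prime := by
    intro p hp
    rw [hP, mem_filter] at hp
    exact hp.2
  obtain ⟨en⟩ : Nonempty (P ≃ Fin P.card) := ⟨P.equivFin⟩
  obtain ⟨B, hB⟩ : ∃ B : Base P.card, ∀ v, B.P v = ((en.symm v : P) : ℕ) := by
    refine ⟨⟨fun v => ((en.symm v : P) : ℕ), fun v => (hPp _ (en.symm v).2).two_le, ?_⟩,
      fun v => rfl⟩
    intro v w hvw
    rw [Nat.isCoprime_iff_coprime]
    refine (Nat.coprime_primes (hPp _ (en.symm v).2) (hPp _ (en.symm w).2)).2 ?_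
    intro h
    apply hvw
    exact en.symm.injective (Subtype.ext h)
  refine ⟨P.card, B, fun u hu hS => ⟨fun v => u.factorization (B.P v), ?_⟩⟩
  have h1 : ∏ v, (B.P v : ℕ) ^ u.factorization (B.P v) = ∏ p ∈ P, p ^ u.factorization p := by
    rw [← Finset.prod_coe_sort P (fun p => p ^ u.factorization p), ← Equiv.prod_comp en.symm]
    refine Finset.prod_congr rfl fun v _ => ?_
    rw [hB v]
  have h2 : ∏ p ∈ P, p ^ u.factorization p = ∏ p ∈ u.primeFactors, p ^ u.factorization p := by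
    symm
    apply Finset.prod_subset
    · intro p hp
      rw [hP, mem_filter]
      exact ⟨hS hp, Nat.prime_of_mem_primeFactors hp⟩
    · intro p _ hp
      rw [← Nat.support_factorization, Finsupp.notMem_support_iff] at hp
      rw [hp, pow_zero]
  have h3 : ∏ v, (B.P v : ℕ) ^ u.factorization (B.P v) = u := by
    rw [h1, h2]
    exact Nat.prod_factorization_pow_eq_self hu
  unfold un
  exact_mod_cast h3

/-- the digit of `n` at the place `i` in base `b` -/
def dg (b n i : ℕ) : ℕ := n / b ^ i % b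

/-- the number of digit changes in the window of the places `s, …, s + g - 1` -/
def wch (b n s g : ℕ) : Finset ℕ := (Ico s (s + g - 1)).filter fun i => dg b n i ≠ dg b n (i + 1)

lemma dg_lt (b n i : ℕ) (hb : 2 ≤ b) : dg b n i < b := Nat.mod_lt _ (by omega)

lemma dg_eq (b n i : ℕ) : n / b ^ i = b * (n / b ^ (i + 1)) + dg b n i := by
  unfold dg
  rw [pow_succ, ← Nat.div_div_eq_div_mul]
  exact (Nat.div_add_mod _ _).symm

/-- the sum of the digits in a window -/
lemma window_sum (b n s : ℕ) : ∀ g : ℕ, n / b ^ s = b ^ g * (n / b ^ (s + g)) +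
    ∑ i ∈ range g, dg b n (s + i) * b ^ i := by
  intro g
  induction g with
  | zero => simp
  | succ g ih =>
    rw [ih, Finset.sum_range_succ, dg_eq b n (s + g), ← add_assoc s g 1, pow_succ]
    ring

/-- summation by parts -/
lemma window_parts (b n s : ℕ) (g : ℕ) :
    ((b : ℤ) - 1) * ∑ i ∈ range (g + 1), (dg b n (s + i) : ℤ) * (b : ℤ) ^ i =
      (dg b n (s + g) : ℤ) * (b : ℤ) ^ (g + 1) - dg b n s -
      ∑ i ∈ range g, ((dg b n (s + i + 1) : ℤ) - dg b n (s + i)) * (b : ℤ) ^ (i + 1) := by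
  induction g with
  | zero => simp; ring
  | succ g ih =>
    rw [Finset.sum_range_succ, mul_add, ih, Finset.sum_range_succ _ g, ← add_assoc s g 1]
    ring

/-- the representation of a number with a window with few changes -/
theorem digit_rep (b k n s g : ℕ) (hb : 2 ≤ b) (hn : b ^ (s + g) ≤ b * n)
    (hk : (wch b n s g).card ≤ k) :
    ∃ (A : Fin (k + 3) → ℤ) (e : Fin (k + 3) → ℕ), (∀ j, e j ≤ s + g) ∧
      ((b : ℤ) - 1) * n = ∑ j, A j * (b : ℤ) ^ e j ∧ (∀ j, |(A j : ℝ)| ≤ (b : ℝ) ^ 2 * n) ∧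
      (∏ j, max |(A j : ℝ)| 1) * (b : ℝ) ^ g ≤ (b : ℝ) ^ (k + 5) * n := by
  classical
  have hb0 : (0 : ℝ) < b := by positivity
  have hb2 : (2 : ℝ) ≤ b := by exact_mod_cast hb
  have hb1 : (1 : ℝ) ≤ b := by linarith
  have hn1 : 1 ≤ n := by
    rcases Nat.eq_zero_or_pos n with h | h
    · rw [h, mul_zero] at hn
      have : 0 < b ^ (s + g) := by positivity
      omega
    · exact h
  have hnR : (1 : ℝ) ≤ n := by exact_mod_cast hn1
  have hbb : (b : ℝ) ≤ (b : ℝ) ^ 2 * n := by nlinarith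
  rcases g with _ | g
  · refine ⟨Fin.cons (((b : ℤ) - 1) * n) 0, 0, fun j => Nat.zero_le _, ?_, ?_, ?_⟩
    · rw [Fin.sum_univ_succ]
      simp
    · intro j
      refine Fin.cases ?_ (fun i => ?_) j
      · rw [Fin.cons_zero]
        push_cast
        rw [abs_of_nonneg (mul_nonneg (by linarith) (by linarith))]
        apply mul_le_mul_of_nonneg_right _ (by linarith)
        nlinarith
      · rw [Fin.cons_succ]
        simp only [Pi.zero_apply, Int.cast_zero, abs_zero]
        positivity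
    · rw [Fin.prod_univ_succ, Fin.cons_zero]
      simp only [Fin.cons_succ, Pi.zero_apply, Int.cast_zero, abs_zero, pow_zero, mul_one]
      rw [max_eq_right zero_le_one, Finset.prod_const_one, mul_one]
      apply max_le
      · push_cast
        rw [abs_of_nonneg (mul_nonneg (by linarith) (by linarith))]
        apply mul_le_mul_of_nonneg_right _ (by linarith)
        calc (b : ℝ) - 1 ≤ b := by linarith
          _ = (b : ℝ) ^ 1 := (pow_one _).symm
          _ ≤ (b : ℝ) ^ (k + 5) := pow_le_pow_right₀ hb1 (by omega)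
      · calc (1 : ℝ) ≤ (b : ℝ) ^ (k + 5) * 1 := by rw [mul_one]; exact one_le_pow₀ hb1
          _ ≤ _ := mul_le_mul_of_nonneg_left hnR (by positivity)
  · obtain ⟨Δ, hΔ⟩ : ∃ Δ : ℕ → ℤ, ∀ x, Δ x = (dg b n (x + 1) : ℤ) - dg b n x := ⟨_, fun _ => rfl⟩
    have hdg : ∀ x, (0 : ℤ) ≤ dg b n x ∧ (dg b n x : ℤ) < b := fun x =>
      ⟨by positivity, by exact_mod_cast dg_lt b n x hb⟩
    have hΔb : ∀ x, |Δ x| ≤ b := by
      intro x
      rw [hΔ, abs_le]
      have h1 := hdg x
      have h2 := hdg (x + 1)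
      constructor <;> omega
    obtain ⟨x, u, hu, hx, hsum⟩ := enum k (wch b n s (g + 1)) hk
    obtain ⟨a₁, ha₁⟩ : ∃ a : ℤ, a = ((b : ℤ) - 1) * (n / b ^ (s + (g + 1)) : ℕ) +
      dg b n (s + g) := ⟨_, rfl⟩
    obtain ⟨a₃, ha₃⟩ : ∃ a : ℤ, a = ((b : ℤ) - 1) * (n % b ^ s : ℕ) := ⟨_, rfl⟩
    have hid : ((b : ℤ) - 1) * n = a₁ * (b : ℤ) ^ (s + (g + 1)) +
        (-(dg b n s : ℤ) * (b : ℤ) ^ s + (a₃ * (b : ℤ) ^ 0 +
        -∑ i ∈ range g, Δ (s + i) * (b : ℤ) ^ (s + i + 1))) := by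
      have h1 := window_sum b n s (g + 1)
      have h2 : (n : ℤ) = (b : ℤ) ^ s * (n / b ^ s : ℕ) + (n % b ^ s : ℕ) := by
        exact_mod_cast (Nat.div_add_mod n (b ^ s)).symm
      have h3 : ((n / b ^ s : ℕ) : ℤ) = (b : ℤ) ^ (g + 1) * (n / b ^ (s + (g + 1)) : ℕ) +
          ∑ i ∈ range (g + 1), (dg b n (s + i) : ℤ) * (b : ℤ) ^ i := by
        rw [h1]
        push_cast
        rfl
      have h4 := window_parts b n s g
      have h5 : ∑ i ∈ range g, Δ (s + i) * (b : ℤ) ^ (s + i + 1) = (b : ℤ) ^ s *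
          ∑ i ∈ range g, ((dg b n (s + i + 1) : ℤ) - dg b n (s + i)) * (b : ℤ) ^ (i + 1) := by
        rw [Finset.mul_sum]
        refine Finset.sum_congr rfl fun i _ => ?_
        rw [hΔ]
        ring
      rw [h5, ha₁, ha₃]
      have h6 : ((b : ℤ) - 1) * n = (b : ℤ) ^ s * (((b : ℤ) - 1) * (b : ℤ) ^ (g + 1) *
          (n / b ^ (s + (g + 1)) : ℕ) + ((b : ℤ) - 1) *
          ∑ i ∈ range (g + 1), (dg b n (s + i) : ℤ) * (b : ℤ) ^ i) +
          ((b : ℤ) - 1) * (n % b ^ s : ℕ) := by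
        rw [h2]
        push_cast [h3]
        ring
      rw [h6, h4]
      ring
    have hchsum : (∑ i ∈ range g, Δ (s + i) * (b : ℤ) ^ (s + i + 1) : ℤ) =
        ∑ y ∈ wch b n s (g + 1), Δ y * (b : ℤ) ^ (y + 1) := by
      have h1 : ∑ i ∈ range g, Δ (s + i) * (b : ℤ) ^ (s + i + 1) =
          ∑ y ∈ Ico s (s + g), Δ y * (b : ℤ) ^ (y + 1) := by
        rw [Finset.sum_Ico_eq_sum_range]
        have : s + g - s = g := by omega
        rw [this]
      rw [h1]
      have h2 : s + (g + 1) - 1 = s + g := by omega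
      unfold wch
      rw [h2, Finset.sum_filter]
      refine Finset.sum_congr rfl fun y _ => ?_
      split_ifs with h
      · rfl
      · push Not at h
        rw [hΔ, h, sub_self, zero_mul]
    have hchR : ∑ i, (u i : ℝ) * ((Δ (x i) : ℝ) * (b : ℝ) ^ (x i + 1)) =
        ((∑ y ∈ wch b n s (g + 1), Δ y * (b : ℤ) ^ (y + 1) : ℤ) : ℝ) := by
      rw [hsum (fun y => (Δ y : ℝ) * (b : ℝ) ^ (y + 1))]
      push_cast
      rfl
    have hchZ : ∑ i, (u i * Δ (x i)) * (b : ℤ) ^ (x i + 1) =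
        ∑ y ∈ wch b n s (g + 1), Δ y * (b : ℤ) ^ (y + 1) := by
      have : ((∑ i, (u i * Δ (x i)) * (b : ℤ) ^ (x i + 1) : ℤ) : ℝ) =
        ((∑ y ∈ wch b n s (g + 1), Δ y * (b : ℤ) ^ (y + 1) : ℤ) : ℝ) := by
        rw [← hchR]
        push_cast
        refine Finset.sum_congr rfl fun i _ => ?_
        ring
      exact_mod_cast this
    -- the sizes
    obtain ⟨Y, hY⟩ : ∃ Y : ℝ, Y = n / (b : ℝ) ^ (s + (g + 1)) := ⟨_, rfl⟩
    have hpow : (0 : ℝ) < (b : ℝ) ^ (s + (g + 1)) := by positivity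
    have hY1 : 1 ≤ b * Y := by
      rw [hY, mul_div_assoc', le_div_iff₀ hpow, one_mul]
      exact_mod_cast hn
    have hY0 : 0 < Y := by rw [hY]; positivity
    have hdiv : ((n / b ^ (s + (g + 1)) : ℕ) : ℝ) ≤ Y := by
      rw [hY]
      have := Nat.cast_div_le (α := ℝ) (m := n) (n := b ^ (s + (g + 1)))
      push_cast at this
      exact this
    have hdR : ∀ y, (0 : ℝ) ≤ dg b n y ∧ (dg b n y : ℝ) ≤ b - 1 := by
      intro y
      refine ⟨by positivity, ?_⟩
      have h1 : (dg b n y : ℤ) ≤ b - 1 := by have := (hdg y).2; omega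
      exact_mod_cast h1
    have ha₁R : (a₁ : ℝ) = ((b : ℝ) - 1) * ((n / b ^ (s + (g + 1)) : ℕ) : ℝ) +
        (dg b n (s + g) : ℝ) := by
      rw [ha₁]
      obtain ⟨X, hX⟩ : ∃ X : ℕ, X = n / b ^ (s + (g + 1)) := ⟨_, rfl⟩
      rw [← hX]
      push_cast
      rfl
    have ha₃R : (a₃ : ℝ) = ((b : ℝ) - 1) * ((n % b ^ s : ℕ) : ℝ) := by
      rw [ha₃]
      obtain ⟨X, hX⟩ : ∃ X : ℕ, X = n % b ^ s := ⟨_, rfl⟩
      rw [← hX]
      push_cast
      rfl
    have h1 : |(a₁ : ℝ)| ≤ (b : ℝ) ^ 2 * Y := by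
      rw [ha₁R]
      have h2 := hdR (s + g)
      rw [abs_of_nonneg (add_nonneg (mul_nonneg (by linarith) (Nat.cast_nonneg _)) h2.1)]
      nlinarith
    have h1' : max |(a₁ : ℝ)| 1 ≤ (b : ℝ) ^ 2 * Y := max_le h1 (by nlinarith)
    have h2 : |((-(dg b n s : ℤ) : ℤ) : ℝ)| ≤ b := by
      push_cast
      rw [abs_neg, abs_of_nonneg (hdR s).1]
      linarith [(hdR s).2]
    have h3 : |(a₃ : ℝ)| ≤ (b : ℝ) ^ (s + 1) := by
      rw [ha₃R]
      rw [abs_of_nonneg (mul_nonneg (by linarith) (Nat.cast_nonneg _))]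
      have h4 : ((n % b ^ s : ℕ) : ℝ) ≤ (b : ℝ) ^ s := by
        exact_mod_cast (Nat.mod_lt n (by positivity)).le
      calc ((b : ℝ) - 1) * ((n % b ^ s : ℕ) : ℝ) ≤ b * (b : ℝ) ^ s :=
            mul_le_mul (by linarith) h4 (Nat.cast_nonneg _) hb0.le
        _ = _ := by ring
    have h3' : |(a₃ : ℝ)| ≤ (b : ℝ) ^ 2 * n := by
      rw [ha₃R]
      rw [abs_of_nonneg (mul_nonneg (by linarith) (Nat.cast_nonneg _))]
      have h4 : ((n % b ^ s : ℕ) : ℝ) ≤ n := by exact_mod_cast Nat.mod_le _ _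
      calc ((b : ℝ) - 1) * ((n % b ^ s : ℕ) : ℝ) ≤ b * n :=
            mul_le_mul (by linarith) h4 (Nat.cast_nonneg _) hb0.le
        _ ≤ _ := by nlinarith
    have h4 : ∀ i, |((-(u i * Δ (x i)) : ℤ) : ℝ)| ≤ b := by
      intro i
      have h5 : |-(u i * Δ (x i))| ≤ b := by
        rw [abs_neg, abs_mul]
        calc |u i| * |Δ (x i)| ≤ 1 * b := mul_le_mul (hu i) (hΔb _) (abs_nonneg _) (by norm_num)
          _ = b := one_mul _
      exact_mod_cast h5
    refine ⟨Fin.cons a₁ (Fin.cons (-(dg b n s : ℤ)) (Fin.cons a₃ fun i : Fin k =>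
      -(u i * Δ (x i)))), Fin.cons (s + (g + 1)) (Fin.cons s (Fin.cons 0 fun i : Fin k =>
      x i + 1)), ?_, ?_, ?_, ?_⟩
    · intro j
      refine Fin.cases (by rw [Fin.cons_zero]) (fun j => ?_) j
      rw [Fin.cons_succ]
      refine Fin.cases (by rw [Fin.cons_zero]; omega) (fun j => ?_) j
      rw [Fin.cons_succ]
      refine Fin.cases (by rw [Fin.cons_zero]; omega) (fun j => ?_) j
      rw [Fin.cons_succ]
      rcases hx j with h | h
      · unfold wch at h
        rw [mem_filter, mem_Ico] at h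
        omega
      · omega
    · rw [Fin.sum_univ_succ, Fin.sum_univ_succ, Fin.sum_univ_succ]
      simp only [Fin.cons_zero, Fin.cons_succ]
      rw [hid, hchsum, ← hchZ, ← Finset.sum_neg_distrib]
      simp only [neg_mul]
    · intro j
      refine Fin.cases ?_ (fun j => ?_) j
      · rw [Fin.cons_zero]
        refine h1.trans (mul_le_mul_of_nonneg_left ?_ (by positivity))
        rw [hY]
        apply div_le_self (by linarith)
        exact one_le_pow₀ hb1
      rw [Fin.cons_succ]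
      refine Fin.cases ?_ (fun j => ?_) j
      · rw [Fin.cons_zero]
        exact h2.trans hbb
      rw [Fin.cons_succ]
      refine Fin.cases ?_ (fun j => ?_) j
      · rw [Fin.cons_zero]
        exact h3'
      rw [Fin.cons_succ]
      exact (h4 j).trans hbb
    · rw [Fin.prod_univ_succ, Fin.prod_univ_succ, Fin.prod_univ_succ]
      simp only [Fin.cons_zero, Fin.cons_succ]
      have h5 : ∏ i : Fin k, max |((-(u i * Δ (x i)) : ℤ) : ℝ)| 1 ≤ (b : ℝ) ^ k := by
        calc ∏ i : Fin k, max |((-(u i * Δ (x i)) : ℤ) : ℝ)| 1 ≤ ∏ _i : Fin k, (b : ℝ) :=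
              Finset.prod_le_prod (fun _ _ => by positivity) fun i _ => max_le (h4 i) hb1
          _ = _ := by simp
      have h6 : max |((-(dg b n s : ℤ) : ℤ) : ℝ)| 1 ≤ b := max_le h2 hb1
      have h7 : max |(a₃ : ℝ)| 1 ≤ (b : ℝ) ^ (s + 1) := max_le h3 (one_le_pow₀ hb1)
      calc max |(a₁ : ℝ)| 1 * (max |((-(dg b n s : ℤ) : ℤ) : ℝ)| 1 * (max |(a₃ : ℝ)| 1 *
          ∏ i : Fin k, max |((-(u i * Δ (x i)) : ℤ) : ℝ)| 1)) * (b : ℝ) ^ (g + 1) ≤
          ((b : ℝ) ^ 2 * Y) * (b * ((b : ℝ) ^ (s + 1) * (b : ℝ) ^ k)) * (b : ℝ) ^ (g + 1) := by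
            refine mul_le_mul_of_nonneg_right ?_ (by positivity)
            refine mul_le_mul h1' ?_ (by positivity) (by positivity)
            refine mul_le_mul h6 ?_ (by positivity) (by positivity)
            exact mul_le_mul h7 h5 (by positivity) (by positivity)
        _ = (b : ℝ) ^ (k + 4) * (Y * (b : ℝ) ^ (s + (g + 1))) := by ring
        _ = (b : ℝ) ^ (k + 4) * n := by rw [hY, div_mul_cancel₀ _ hpow.ne']
        _ ≤ _ := by
          apply mul_le_mul_of_nonneg_right _ (by linarith)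
          exact pow_le_pow_right₀ hb1 (by omega)

end Pool.Agent.Q50.SP
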