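import Pool.Agent.Q50.SP.Dual

/-!
# Simultaneous approximation of the multiples of algebraic numbers by sparse sums
-/

set_option autoImplicit false

namespace Pool.Agent.Q50.SP

open Filter Topology Pool.Agent.TH932.Abs Pool.Agent.TH932.Germs
open Pool.Agent.TH796.AL

variable {m : ℕ} (B : Base m)

/-- the variables -/
noncomputable def zs {k J : ℕ} (e : ℕ → Fin k → Fin m → ℕ) (g : ℕ → Fin m → ℕ)
    (q : ℕ → ℕ) (p : ℕ → Fin J → ℤ) : Ix k J → ℕ → ℝ
  | Sum.inl l, t => ((un B (e t l) : ℝ))⁻¹
  | Sum.inr none, t => un B (g t) * q t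
  | Sum.inr (some j), t => p t j

/-- the integral multiples of the variables -/
noncomputable def Xs {k J : ℕ} (N : ℕ → ℝ) (e : ℕ → Fin k → Fin m → ℕ) (g : ℕ → Fin m → ℕ)
    (q : ℕ → ℕ) (p : ℕ → Fin J → ℤ) : Ix k J → ℕ → ℤ
  | Sum.inl l, t => un B (fun v => EE B (N t) v - e t l v)
  | Sum.inr none, t => un B (fun v => EE B (N t) v + g t v) * q t
  | Sum.inr (some j), t => un B (EE B (N t)) * p t j

lemma Xs_eq {k J : ℕ} (N : ℕ → ℝ) (e : ℕ → Fin k → Fin m → ℕ) (g : ℕ → Fin m → ℕ)
    (q : ℕ → ℕ) (p : ℕ → Fin J → ℤ) (i : Ix k J) (t : ℕ)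
    (he : ∀ i v, (e t i v : ℝ) * Real.log (B.P v) ≤ N t) :
    ((Xs B N e g q p i t : ℤ) : ℝ) = un B (EE B (N t)) * zs B e g q p i t := by
  rcases i with l | _ | i
  · show ((un B (fun v => EE B (N t) v - e t l v) : ℤ) : ℝ) = _
    rw [un_sub B _ _ (he l)]
    rfl
  · show ((un B (fun v => EE B (N t) v + g t v) * q t : ℤ) : ℝ) = _
    rw [un_add]
    push_cast
    show _ = (un B (EE B (N t)) : ℝ) * (un B (g t) * q t)
    ring
  · show ((un B (EE B (N t)) * p t i : ℤ) : ℝ) = _
    push_cast
    rfl

/-- the coefficients of the form with index `j` -/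
noncomputable def lams {k J : ℕ} (a : Fin k → Fin J → ℚ) (ξ : Fin J → ℝ) (j : Fin J) :
    Ix k J → ℝ
  | Sum.inl l => a l j
  | Sum.inr none => ξ j
  | Sum.inr (some j') => if j = j' then -1 else 0

/-- the total weights -/
noncomputable def tot {k J : ℕ} (ρ δ : ℝ) : Ix k J → ℝ
  | Sum.inl _ => 0
  | Sum.inr none => -ρ
  | Sum.inr (some _) => ρ / J + δ

/-- bounded multipliers -/
lemma simul_bdd (N : ℕ → ℝ) (hN : Tendsto N atTop atTop) (δ : ℝ) (hδ : 0 < δ) (J k : ℕ)
    (j : Fin J) (ξ : Fin J → ℝ) (halg : ∀ i, IsAlgebraic ℚ (ξ i)) (hind : Indep ξ)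
    (q : ℕ → ℕ) (p : ℕ → Fin J → ℤ) (g : ℕ → Fin m → ℕ)
    (hq : ∀ᶠ t in (UU : Filter ℕ), 1 ≤ q t)
    (a : Fin k → Fin J → ℚ) (e : ℕ → Fin k → Fin m → ℕ)
    (he : ∀ᶠ t in (UU : Filter ℕ), ∀ i v, (e t i v : ℝ) * Real.log (B.P v) ≤ N t)
    (h : ∀ᶠ t in (UU : Filter ℕ), ∀ j,
        |(un B (g t) : ℝ) * q t * ξ j + ∑ l, (a l j : ℝ) * ((un B (e t l) : ℝ))⁻¹ - p t j| ≤
          Real.exp (-δ * N t))
    (R : ℕ) (hR : ∀ᶠ t in (UU : Filter ℕ), (un B (g t) : ℝ) * q t ≤ R) : False := by
  have hN0 : ∀ᶠ t in (UU : Filter ℕ), 0 ≤ N t := ev_of_atTop (hN.eventually_ge_atTop 0)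
  obtain ⟨S, hS⟩ : ∃ S : ℕ, (R : ℝ) * |ξ j| + ∑ l, |(a l j : ℝ)| + 1 ≤ S := exists_nat_ge _
  have hp : ∀ᶠ t in (UU : Filter ℕ), |p t j| ≤ S := by
    filter_upwards [h, hR, hN0] with t ht hRt hNt
    have h1 : Real.exp (-δ * N t) ≤ 1 := by
      rw [Real.exp_le_one_iff]
      have : 0 ≤ δ * N t := by positivity
      linarith
    have h2 : |∑ l, (a l j : ℝ) * ((un B (e t l) : ℝ))⁻¹| ≤ ∑ l, |(a l j : ℝ)| := by
      refine (Finset.abs_sum_le_sum_abs _ _).trans (Finset.sum_le_sum fun i _ => ?_)
      rw [abs_mul, abs_of_pos (inv_pos.2 (un_pos B _))]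
      exact mul_le_of_le_one_right (abs_nonneg _) (un_inv_le B _)
    have h3 : |(un B (g t) : ℝ) * q t * ξ j| ≤ R * |ξ j| := by
      have h5 := (un_pos B (g t)).le
      rw [abs_mul, abs_of_nonneg (by positivity)]
      exact mul_le_mul_of_nonneg_right hRt (abs_nonneg _)
    have h4 := ht j
    have e1 : (p t j : ℝ) = (un B (g t) : ℝ) * q t * ξ j +
        ∑ l, (a l j : ℝ) * ((un B (e t l) : ℝ))⁻¹ -
        ((un B (g t) : ℝ) * q t * ξ j + ∑ l, (a l j : ℝ) * ((un B (e t l) : ℝ))⁻¹ - p t j) := by
      ring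
    have h5 : |(p t j : ℝ)| ≤ S := by
      rw [e1]
      refine (abs_sub _ _).trans ?_
      have := abs_add_le ((un B (g t) : ℝ) * q t * ξ j) (∑ l, (a l j : ℝ) * ((un B (e t l) : ℝ))⁻¹)
      linarith
    exact_mod_cast h5
  have hR' : ∀ᶠ t in (UU : Filter ℕ), |un B (g t) * q t| ≤ R := by
    filter_upwards [hR] with t ht
    have h5 := (un_pos B (g t)).le
    have : |(un B (g t) : ℝ) * q t| ≤ R := by
      rw [abs_of_nonneg (by positivity)]
      exact ht
    exact_mod_cast this
  have hfin : (Set.Icc (-(R : ℤ)) R ×ˢ Set.Icc (-(S : ℤ)) S : Set (ℤ × ℤ)).Finite :=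
    (Set.finite_Icc _ _).prod (Set.finite_Icc _ _)
  have hex : ∀ᶠ t in (UU : Filter ℕ), ∃ z ∈ (Set.Icc (-(R : ℤ)) R ×ˢ Set.Icc (-(S : ℤ)) S :
      Set (ℤ × ℤ)), (un B (g t) * q t, p t j) = z := by
    filter_upwards [hR', hp] with t h1 h2
    exact ⟨_, ⟨abs_le.1 h1, abs_le.1 h2⟩, rfl⟩
  obtain ⟨⟨q0, p0⟩, -, hz⟩ := (Ultrafilter.eventually_exists_mem_iff hfin).1 hex
  have hq0 : q0 ≠ 0 := by
    obtain ⟨t, h1, h2⟩ := (hz.and hq).exists
    rw [Prod.mk.injEq] at h1
    rw [← h1.1]
    have h3 : (un B (g t) : ℤ) ≠ 0 := by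
      intro h
      have := un_pos B (g t)
      rw [h] at this
      simp at this
    have h4 : (q t : ℤ) ≠ 0 := by exact_mod_cast (by omega : q t ≠ 0)
    exact mul_ne_zero h3 h4
  have hξ : Irrational (ξ j) := by
    rintro ⟨c, hc⟩
    have h1 := hind (Pi.single j 1) c (by
      rw [Finset.sum_eq_single j]
      · simp [hc]
      · intro i _ hi
        simp [Pi.single_eq_of_ne hi]
      · simp)
    have := congrFun h1 j
    simp at this
  refine sparse_sumM B N hN δ hδ k ((q0 : ℝ) * ξ j + ((-p0 : ℤ) : ℝ)) ?_ ?_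
    (fun l => a l j) e he ?_
  · exact ((isAlgebraic_intCast _).mul (halg j)).add (isAlgebraic_intCast _)
  · exact (hξ.intCast_mul hq0).add_intCast _
  · filter_upwards [h, hz] with t ht hzt
    rw [Prod.mk.injEq] at hzt
    have h1 := ht j
    have h2 : (un B (g t) : ℝ) * q t = q0 := by exact_mod_cast hzt.1
    rw [h2, hzt.2] at h1
    have e1 : (q0 : ℝ) * ξ j + ((-p0 : ℤ) : ℝ) + ∑ l, (a l j : ℝ) * ((un B (e t l) : ℝ))⁻¹ =
        (q0 : ℝ) * ξ j + ∑ l, (a l j : ℝ) * ((un B (e t l) : ℝ))⁻¹ - p0 := by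
      push_cast
      ring
    rw [e1]
    exact h1

/-- **Simultaneous approximation by sparse sums**, along sequences. -/
theorem simul_seq (N : ℕ → ℝ) (hN : Tendsto N atTop atTop) (δ : ℝ) (hδ : 0 < δ) (J k : ℕ)
    (hJ : 1 ≤ J) (ξ : Fin J → ℝ) (halg : ∀ i, IsAlgebraic ℚ (ξ i)) (hind : Indep ξ)
    (q : ℕ → ℕ) (p : ℕ → Fin J → ℤ) (g : ℕ → Fin m → ℕ)
    (hq : ∀ᶠ t in (UU : Filter ℕ), 1 ≤ q t ∧ Real.log (q t) ≤ N t)
    (hg : ∀ᶠ t in (UU : Filter ℕ), δ * Real.log (un B (g t)) ≤ N t)
    (a : Fin k → Fin J → ℚ) (e : ℕ → Fin k → Fin m → ℕ)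
    (he : ∀ᶠ t in (UU : Filter ℕ), ∀ i v, (e t i v : ℝ) * Real.log (B.P v) ≤ N t)
    (h : ∀ᶠ t in (UU : Filter ℕ), ∀ j,
        |(un B (g t) : ℝ) * q t * ξ j + ∑ l, (a l j : ℝ) * ((un B (e t l) : ℝ))⁻¹ - p t j| ≤
          Real.exp (-(Real.log (q t) / J) - δ * N t)) : False := by
  classical
  have hN0 : ∀ᶠ t in (UU : Filter ℕ), 0 ≤ N t := ev_of_atTop (hN.eventually_ge_atTop 0)
  have hJR : (1 : ℝ) ≤ J := by exact_mod_cast hJ
  have h' : ∀ᶠ t in (UU : Filter ℕ), ∀ j,
        |(un B (g t) : ℝ) * q t * ξ j + ∑ l, (a l j : ℝ) * ((un B (e t l) : ℝ))⁻¹ - p t j| ≤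
          Real.exp (-δ * N t) := by
    filter_upwards [h, hq] with t ht hqt j
    refine (ht j).trans (Real.exp_le_exp.2 ?_)
    have hq1 : (1 : ℝ) ≤ q t := by exact_mod_cast hqt.1
    have : 0 ≤ Real.log (q t) / J := div_nonneg (Real.log_nonneg hq1) (by linarith)
    linarith
  obtain ⟨b, T, hTli, hT, hTs, hTb, hTnb⟩ := exists_basis (zs B e g q p)
    (Set.range (Sum.inl : Fin k → Ix k J))
  have hTs' : ∀ (l : Fin k) (β : Option (Fin J)), T (Sum.inl l) (Sum.inr β) = 0 := fun l β =>
    hTs _ ⟨l, rfl⟩ _ (by rintro ⟨l', hl'⟩; exact absurd hl' (by simp))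
  -- the integral variables are independent modulo the small ones
  have hrel : ∀ (A : ℚ) (D : Fin J → ℚ) (c : Fin k → ℚ),
      (∀ᶠ t in (UU : Filter ℕ), (A : ℝ) * ((un B (g t) : ℝ) * q t) + ∑ j, (D j : ℝ) * p t j +
        ∑ l, (c l : ℝ) * ((un B (e t l) : ℝ))⁻¹ = 0) → A = 0 ∧ D = 0 := by
    intro A D c hAD
    by_contra hne
    -- the coefficient
    obtain ⟨κ, hκ⟩ : ∃ κ : ℝ, κ = A + ∑ j, (D j : ℝ) * ξ j := ⟨_, rfl⟩
    have hκ0 : κ ≠ 0 := by
      intro h0
      have h1 := hind D (-A) (by push_cast; linarith)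
      apply hne
      refine ⟨?_, h1⟩
      rw [h1] at hκ
      simp only [Pi.zero_apply, Rat.cast_zero, zero_mul, Finset.sum_const_zero, add_zero] at hκ
      rw [h0] at hκ
      exact_mod_cast hκ.symm
    obtain ⟨K, hK⟩ : ∃ K : ℝ, K = ∑ j, |(D j : ℝ)| * (∑ l, |(a l j : ℝ)| + 1) +
      ∑ l, |(c l : ℝ)| := ⟨_, rfl⟩
    obtain ⟨R, hR⟩ := exists_nat_ge (K / |κ|)
    refine simul_bdd B N hN δ hδ J k ⟨0, by omega⟩ ξ halg hind q p g
      (hq.mono fun t ht => ht.1) a e he h' R ?_
    filter_upwards [hAD, h', hN0] with t ht ht' hNt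
    refine le_trans ?_ hR
    rw [le_div_iff₀ (abs_pos.2 hκ0)]
    have h5 := (un_pos B (g t)).le
    have e0 : (un B (g t) : ℝ) * q t * κ = ∑ j, (D j : ℝ) *
        (((un B (g t) : ℝ) * q t * ξ j + ∑ l, (a l j : ℝ) * ((un B (e t l) : ℝ))⁻¹ - p t j) -
          ∑ l, (a l j : ℝ) * ((un B (e t l) : ℝ))⁻¹) -
        ∑ l, (c l : ℝ) * ((un B (e t l) : ℝ))⁻¹ := by
      have e2 : ∑ j, (D j : ℝ) *
        (((un B (g t) : ℝ) * q t * ξ j + ∑ l, (a l j : ℝ) * ((un B (e t l) : ℝ))⁻¹ - p t j) -
          ∑ l, (a l j : ℝ) * ((un B (e t l) : ℝ))⁻¹) =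
          (un B (g t) : ℝ) * q t * ∑ j, (D j : ℝ) * ξ j - ∑ j, (D j : ℝ) * p t j := by
        rw [Finset.mul_sum, ← Finset.sum_sub_distrib]
        refine Finset.sum_congr rfl fun j _ => ?_
        ring
      rw [e2, hκ]
      linarith
    have e3 : (un B (g t) : ℝ) * q t * |κ| = |(un B (g t) : ℝ) * q t * κ| := by
      rw [abs_mul, abs_of_nonneg (by positivity : (0 : ℝ) ≤ (un B (g t) : ℝ) * q t)]
    rw [e3, e0, hK]
    have hw : ∀ (c : Fin k → ℚ), |∑ l, (c l : ℝ) * ((un B (e t l) : ℝ))⁻¹| ≤ ∑ l, |(c l : ℝ)| := by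
      intro c
      refine (Finset.abs_sum_le_sum_abs _ _).trans (Finset.sum_le_sum fun i _ => ?_)
      rw [abs_mul, abs_of_pos (inv_pos.2 (un_pos B _))]
      exact mul_le_of_le_one_right (abs_nonneg _) (un_inv_le B _)
    refine (abs_sub _ _).trans (add_le_add ?_ (hw c))
    refine (Finset.abs_sum_le_sum_abs _ _).trans (Finset.sum_le_sum fun j _ => ?_)
    rw [abs_mul]
    refine mul_le_mul_of_nonneg_left ?_ (abs_nonneg _)
    refine (abs_sub _ _).trans ?_
    have h6 : Real.exp (-δ * N t) ≤ 1 := by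
      rw [Real.exp_le_one_iff]
      have : 0 ≤ δ * N t := by positivity
      linarith
    have h7 := ht' j
    have h8 := hw (fun l => a l j)
    linarith
  have hinb : ∀ β : Option (Fin J), (Sum.inr β : Ix k J) ∈ b := by
    intro β
    by_contra hβ
    have h1 := hrel ((if β = none then 1 else 0) - T (Sum.inr β) (Sum.inr none))
      (fun j => (if β = some j then 1 else 0) - T (Sum.inr β) (Sum.inr (some j)))
      (fun l => - T (Sum.inr β) (Sum.inl l)) (by
        filter_upwards [hT (Sum.inr β)] with t ht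
        rw [Fintype.sum_sum_type, Fintype.sum_option] at ht
        have ht' : zs B e g q p (Sum.inr β) t =
            ∑ l, (T (Sum.inr β) (Sum.inl l) : ℝ) * ((un B (e t l) : ℝ))⁻¹ +
            ((T (Sum.inr β) (Sum.inr none) : ℝ) * ((un B (g t) : ℝ) * q t) +
            ∑ j, (T (Sum.inr β) (Sum.inr (some j)) : ℝ) * (p t j : ℝ)) := ht
        push_cast
        simp only [sub_mul, neg_mul, Finset.sum_sub_distrib, Finset.sum_neg_distrib]
        rcases β with _ | j
        · have e1 : zs B e g q p (Sum.inr none) t = (un B (g t) : ℝ) * q t := rfl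
          rw [e1] at ht'
          simp only [if_true, reduceCtorEq, if_false, Rat.cast_one, Rat.cast_zero, zero_mul, one_mul,
            Finset.sum_const_zero]
          linarith
        · have e1 : zs B e g q p (Sum.inr (some j)) t = (p t j : ℝ) := rfl
          rw [e1] at ht'
          simp only [reduceCtorEq, if_false, Rat.cast_zero, zero_mul, Option.some.injEq,
            apply_ite (Rat.cast : ℚ → ℝ), Rat.cast_one, ite_mul, one_mul,
            Finset.sum_ite_eq, Finset.mem_univ, if_true]
          linarith)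
    rcases β with _ | j
    · have h2 := h1.1
      rw [hTnb _ _ hβ] at h2
      norm_num at h2
    · have h2 := congrFun h1.2 j
      simp only [if_true, Pi.zero_apply] at h2
      rw [hTnb _ _ hβ] at h2
      norm_num at h2
  have hTb' : ∀ i ∈ b, ∀ β, T i β = if β = i then 1 else 0 := by
    intro i hi β
    have h1 := hTli (fun β => T i β - if β = i then 1 else 0) (fun β hβ => by
      rw [hTnb i β hβ, if_neg (by rintro rfl; exact hβ hi), sub_zero]) (by
        filter_upwards [hT i] with t ht
        have h2 : ∀ β, (((T i β - if β = i then 1 else 0 : ℚ)) : ℝ) * zs B e g q p β t =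
            (T i β : ℝ) * zs B e g q p β t - if β = i then zs B e g q p β t else 0 := by
          intro β
          split_ifs with h
          · push_cast
            ring
          · push_cast
            ring
        rw [Finset.sum_congr rfl fun β _ => h2 β, Finset.sum_sub_distrib, Finset.sum_ite_eq',
          if_pos (Finset.mem_univ _)]
        linarith)
    have h2 := congrFun h1 β
    simp only [Pi.zero_apply] at h2
    linarith
  -- the forms
  obtain ⟨C, hC⟩ : ∃ C : Fin J → Ix k J → ℝ, ∀ j β, C j β = ∑ i, lams a ξ j i * T i β :=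
    ⟨_, fun _ _ => rfl⟩
  have hform : ∀ᶠ t in (UU : Filter ℕ), ∀ j, (un B (g t) : ℝ) * q t * ξ j +
      ∑ l, (a l j : ℝ) * ((un B (e t l) : ℝ))⁻¹ - p t j = ∑ β, C j β * zs B e g q p β t := by
    filter_upwards [Filter.eventually_all.2 hT] with t ht j
    have h1 : ∑ β, C j β * zs B e g q p β t = ∑ i, lams a ξ j i * zs B e g q p i t := by
      calc ∑ β, C j β * zs B e g q p β t =
            ∑ β, ∑ i, lams a ξ j i * T i β * zs B e g q p β t := by
            refine Finset.sum_congr rfl fun β _ => ?_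
            rw [hC, Finset.sum_mul]
        _ = ∑ i, ∑ β, lams a ξ j i * T i β * zs B e g q p β t := Finset.sum_comm
        _ = ∑ i, lams a ξ j i * zs B e g q p i t := by
            refine Finset.sum_congr rfl fun i _ => ?_
            rw [ht i, Finset.mul_sum]
            refine Finset.sum_congr rfl fun β _ => ?_
            ring
    rw [h1, Fintype.sum_sum_type, Fintype.sum_option]
    show _ = ∑ l, (a l j : ℝ) * ((un B (e t l) : ℝ))⁻¹ + (ξ j * ((un B (g t) : ℝ) * q t) +
      ∑ j' : Fin J, (if j = j' then (-1 : ℝ) else 0) * (p t j' : ℝ))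
    simp only [ite_mul, zero_mul, Finset.sum_ite_eq, Finset.mem_univ, if_true]
    ring
  -- the coefficients at the integral parts
  have hCsome : ∀ j j', C j (Sum.inr (some j')) = if j = j' then -1 else 0 := by
    intro j j'
    rw [hC, Fintype.sum_sum_type, Fintype.sum_option]
    simp only [hTs', hTb' _ (hinb _), Rat.cast_zero, mul_zero, Finset.sum_const_zero, zero_add]
    have h1 : ∀ x : Fin J, lams a ξ j (Sum.inr (some x)) *
        (((if (Sum.inr (some j') : Ix k J) = Sum.inr (some x) then 1 else 0) : ℚ) : ℝ) =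
        if x = j' then (if j = j' then -1 else 0) else 0 := by
      intro x
      by_cases hx : x = j'
      · subst hx
        simp only [if_true, Rat.cast_one, mul_one]
        rfl
      · have : (Sum.inr (some j') : Ix k J) ≠ Sum.inr (some x) := by
          intro h
          exact hx (Option.some.inj (Sum.inr.inj h)).symm
        simp [this, hx]
    rw [Finset.sum_congr rfl fun x _ => h1 x]
    simp
  obtain ⟨F, hF, hξF⟩ := exists_field ξ halg
  have := hF
  have hCmem : ∀ j β, C j β ∈ F := by
    intro j β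
    rw [hC]
    refine sum_mem fun i _ => F.mul_mem ?_ (rat_mem F _)
    rcases i with l | _ | i
    · exact rat_mem F _
    · exact hξF j
    · show (if j = i then (-1 : ℝ) else 0) ∈ F
      split_ifs
      · exact F.neg_mem F.one_mem
      · exact F.zero_mem
  obtain ⟨ν, hν⟩ := expsM B k N hN e he
  obtain ⟨γ, hγ0, hγ⟩ := expsG B δ hδ N hN g hg
  obtain ⟨ρ, hρ⟩ := densM N q hN hq
  -- the subspace theorem
  obtain ⟨A, hA0, hA⟩ := sub_finM (ι := {β : Ix k J // β ∈ b}) B N hN F
    (fun β t => Xs B N e g q p β.1 t)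
    (fun i j => match i.1 with
      | Sum.inr (some x) => C x j.1
      | _ => if i = j then 1 else 0)
    (by
      rintro ⟨i, hi⟩ j
      rcases i with l | _ | x
      · show (if _ then (1 : ℝ) else 0) ∈ F
        split_ifs
        · exact F.one_mem
        · exact F.zero_mem
      · show (if _ then (1 : ℝ) else 0) ∈ F
        split_ifs
        · exact F.one_mem
        · exact F.zero_mem
      · exact hCmem _ _)
    (by
      intro c hc
      have h0 : ∀ x : Fin J, c ⟨Sum.inr (some x), hinb _⟩ = 0 := by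
        intro x
        have h1 := hc ⟨Sum.inr (some x), hinb _⟩
        rw [Finset.sum_eq_single ⟨Sum.inr (some x), hinb _⟩] at h1
        · simp only [hCsome, if_true] at h1
          linarith
        · rintro ⟨i, hi⟩ _ hne
          rcases i with l | _ | y
          · show c _ * (if _ then (1 : ℝ) else 0) = 0
            rw [if_neg hne, mul_zero]
          · show c _ * (if _ then (1 : ℝ) else 0) = 0
            rw [if_neg hne, mul_zero]
          · show c _ * C y (Sum.inr (some x)) = 0
            rw [hCsome, if_neg, mul_zero]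
            rintro rfl
            exact hne rfl
        · intro h
          exact absurd (Finset.mem_univ _) h
      rintro ⟨j, hj⟩
      rcases j with l | _ | x
      · have h1 := hc ⟨Sum.inl l, hj⟩
        rw [Finset.sum_eq_single ⟨Sum.inl l, hj⟩] at h1
        · simpa using h1
        · rintro ⟨i, hi⟩ _ hne
          rcases i with l | _ | y
          · show c _ * (if _ then (1 : ℝ) else 0) = 0
            rw [if_neg hne, mul_zero]
          · show c _ * (if _ then (1 : ℝ) else 0) = 0
            rw [if_neg hne, mul_zero]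
          · rw [h0 y, zero_mul]
        · intro h
          exact absurd (Finset.mem_univ _) h
      · have h1 := hc ⟨Sum.inr none, hj⟩
        rw [Finset.sum_eq_single ⟨Sum.inr none, hj⟩] at h1
        · simpa using h1
        · rintro ⟨i, hi⟩ _ hne
          rcases i with l | _ | y
          · show c _ * (if _ then (1 : ℝ) else 0) = 0
            rw [if_neg hne, mul_zero]
          · show c _ * (if _ then (1 : ℝ) else 0) = 0
            rw [if_neg hne, mul_zero]
          · rw [h0 y, zero_mul]
        · intro h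
          exact absurd (Finset.mem_univ _) h
      · exact h0 x)
    (fun v β => match β.1 with
      | Sum.inl l => 1 - ν v l
      | Sum.inr none => 1 + γ v
      | Sum.inr (some _) => 1)
    (fun β => match β.1 with
      | Sum.inl l => -(∑ v, (1 - ν v l))
      | Sum.inr none => -(m + ∑ v, γ v + ρ)
      | Sum.inr (some _) => -m + ρ / J + δ)
    (by
      intro v β ε hε
      obtain ⟨β, hβ⟩ := β
      rcases β with l | _ | i
      · exact wt_sub B k N hN e he ν hν v l ε hε
      · show ∀ᶠ t in (UU : Filter ℕ), ∃ k : ℕ, (B.P v : ℤ) ^ k ∣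
            un B (fun v => EE B (N t) v + g t v) * q t ∧ (1 + γ v - ε) * N t ≤ k * Real.log (B.P v)
        have h1 := ev_of_atTop (hN.eventually_ge_atTop (Real.log (B.P v) / (ε / 2)))
        filter_upwards [h1, hγ v (ε / 2) (by positivity)] with t ht hγt
        refine ⟨EE B (N t) v + g t v, ?_, ?_⟩
        · refine Dvd.dvd.mul_right ?_ _
          unfold un
          exact Finset.dvd_prod_of_mem (fun v => (B.P v : ℤ) ^ (EE B (N t) v + g t v))
            (Finset.mem_univ v)
        · have h2 := EE_ge B (N t) v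
          rw [div_le_iff₀ (by positivity)] at ht
          push_cast
          rw [add_mul]
          linarith [hγt.1]
      · exact wt_unit B N hN v ε hε _ fun t => dvd_mul_right _ _)
    (by
      intro β ε hε
      obtain ⟨β, hβ⟩ := β
      have e0 : ∀ t, ∑ j : {β : Ix k J // β ∈ b}, (if (⟨β, hβ⟩ : {β : Ix k J // β ∈ b}) = j
          then (1 : ℝ) else 0) * ((Xs B N e g q p j.1 t : ℤ) : ℝ) =
          ((Xs B N e g q p β t : ℤ) : ℝ) := by
        intro t
        rw [Finset.sum_eq_single ⟨β, hβ⟩]
        · simp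
        · intro j _ hj
          rw [if_neg (fun h => hj h.symm), zero_mul]
        · intro h
          exact absurd (Finset.mem_univ _) h
      rcases β with l | _ | x
      · filter_upwards [wt_size B k N hN e he ν hν l ε hε] with t ht
        show |∑ j : {β : Ix k J // β ∈ b}, (if (⟨Sum.inl l, hβ⟩ : {β : Ix k J // β ∈ b}) = j
          then (1 : ℝ) else 0) * ((Xs B N e g q p j.1 t : ℤ) : ℝ)| ≤ _
        rw [e0]
        exact ht
      · filter_upwards [hq, hρ (ε / 2) (by positivity), Filter.eventually_all.2 fun v =>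
            hγ v (ε / (2 * (m + 1))) (by positivity), hN0] with t hqt hρt hγt hNt
        show |∑ j : {β : Ix k J // β ∈ b}, (if (⟨Sum.inr none, hβ⟩ : {β : Ix k J // β ∈ b}) = j
          then (1 : ℝ) else 0) * ((Xs B N e g q p j.1 t : ℤ) : ℝ)| ≤ _
        rw [e0]
        show |((un B (fun v => EE B (N t) v + g t v) * q t : ℤ) : ℝ)| ≤
            Real.exp (-(-(m + ∑ v, γ v + ρ) - ε) * N t)
        rw [un_add]
        push_cast
        have hq0 : (0 : ℝ) < q t := by exact_mod_cast hqt.1
        rw [abs_mul, abs_mul, abs_of_pos (un_pos B _), abs_of_pos (un_pos B _), abs_of_pos hq0]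
        have h1 : (un B (g t) : ℝ) ≤ Real.exp ((∑ v, γ v + ε / 2) * N t) := by
          rw [← Real.exp_log (un_pos B (g t)), un_log]
          apply Real.exp_le_exp.2
          calc ∑ v, (g t v : ℝ) * Real.log (B.P v) ≤
              ∑ v : Fin m, (γ v * N t + ε / (2 * (m + 1)) * N t) :=
                Finset.sum_le_sum fun v _ => by have := (hγt v).2; linarith
            _ = (∑ v, γ v) * N t + m * (ε / (2 * (m + 1)) * N t) := by
                rw [Finset.sum_add_distrib, ← Finset.sum_mul, Finset.sum_const,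
                  Finset.card_univ, Fintype.card_fin, nsmul_eq_mul]
            _ ≤ _ := by
                have : (m : ℝ) * (ε / (2 * (m + 1)) * N t) = (m / (m + 1)) * (ε / 2 * N t) := by
                  field_simp
                rw [this, add_mul]
                have h3 : ((m : ℝ) / (m + 1)) * (ε / 2 * N t) ≤ ε / 2 * N t := by
                  apply mul_le_of_le_one_left (by positivity)
                  rw [div_le_one (by positivity)]
                  linarith
                linarith
        have h2 : (q t : ℝ) ≤ Real.exp ((ρ + ε / 2) * N t) := by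
          rw [← Real.exp_log hq0]
          exact Real.exp_le_exp.2 hρt.2
        calc (un B (EE B (N t)) : ℝ) * (un B (g t) : ℝ) * (q t : ℝ) ≤
            Real.exp (m * N t) * Real.exp ((∑ v, γ v + ε / 2) * N t) *
              Real.exp ((ρ + ε / 2) * N t) := by
              refine mul_le_mul (mul_le_mul (U_le B _ hNt) h1 (un_pos B _).le
                (Real.exp_pos _).le) h2 hq0.le (by positivity)
          _ = _ := by
            rw [← Real.exp_add, ← Real.exp_add]
            congr 1
            ring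
      · filter_upwards [h, hform, he, hρ ε hε, hN0] with t ht hft het hρt hNt
        show |∑ j : {β : Ix k J // β ∈ b}, C x j.1 * ((Xs B N e g q p j.1 t : ℤ) : ℝ)| ≤
          Real.exp (-(-m + ρ / J + δ - ε) * N t)
        have e1 : ∑ j : {β : Ix k J // β ∈ b}, C x j.1 * ((Xs B N e g q p j.1 t : ℤ) : ℝ) =
            (un B (EE B (N t)) : ℝ) * ((un B (g t) : ℝ) * q t * ξ x +
              ∑ l, (a l x : ℝ) * ((un B (e t l) : ℝ))⁻¹ - p t x) := by
          rw [hft, Finset.mul_sum]
          rw [Finset.sum_coe_sort b (fun j => C x j * ((Xs B N e g q p j t : ℤ) : ℝ))]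
          rw [← Finset.sum_subset (Finset.subset_univ b)]
          · refine Finset.sum_congr rfl fun j _ => ?_
            rw [Xs_eq B N e g q p j t het]
            ring
          · intro j _ hj
            have : C x j = 0 := by
              rw [hC]
              refine Finset.sum_eq_zero fun i _ => ?_
              rw [hTnb i j hj]
              simp
            rw [this]
            ring
        rw [e1, abs_mul, abs_of_pos (un_pos B _)]
        calc (un B (EE B (N t)) : ℝ) * _ ≤
            Real.exp (m * N t) * Real.exp (-(Real.log (q t) / J) - δ * N t) :=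
              mul_le_mul (U_le B _ hNt) (ht x) (abs_nonneg _) (Real.exp_pos _).le
          _ ≤ _ := by
            rw [← Real.exp_add]
            apply Real.exp_le_exp.2
            have h1 : (ρ - ε) * N t / J ≤ Real.log (q t) / J :=
              div_le_div_of_nonneg_right hρt.1 (by linarith)
            have h2 : ρ / J * N t - ε * N t ≤ (ρ - ε) * N t / J := by
              have h3 : (ρ - ε) * N t / J = ρ / J * N t - ε * N t / J := by ring
              rw [h3]
              have h4 : ε * N t / J ≤ ε * N t := div_le_self (by positivity) hJR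
              linarith
            linarith)
    (by
      rw [Finset.sum_comm, ← Finset.sum_add_distrib]
      have h1 : ∀ β : {β : Ix k J // β ∈ b}, (∑ v, (match β.1 with
            | Sum.inl l => 1 - ν v l
            | Sum.inr none => 1 + γ v
            | Sum.inr (some _) => 1)) +
          (match β.1 with
            | Sum.inl l => -(∑ v, (1 - ν v l))
            | Sum.inr none => -(m + ∑ v, γ v + ρ)
            | Sum.inr (some _) => -m + ρ / J + δ) = tot ρ δ β.1 := by
        rintro ⟨β, hβ⟩
        rcases β with l | _ | x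
        · simp only [tot]
          ring
        · simp only [tot, Finset.sum_add_distrib, Finset.sum_const, Finset.card_univ,
            Fintype.card_fin, nsmul_eq_mul]
          ring
        · simp only [tot, Finset.sum_const, Finset.card_univ, Fintype.card_fin, nsmul_eq_mul]
          ring
      rw [Finset.sum_congr rfl fun β _ => h1 β, Finset.sum_coe_sort b (fun β => tot ρ δ β),
        Finset.sum_subset (Finset.subset_univ b)]
      · rw [Fintype.sum_sum_type, Fintype.sum_option]
        simp only [tot, Finset.sum_const, Finset.card_univ, Fintype.card_fin, nsmul_eq_mul]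
        have : (J : ℝ) * (ρ / J + δ) = ρ + J * δ := by
          field_simp
        rw [this]
        have : 0 < (J : ℝ) * δ := by positivity
        linarith
      · intro β _ hβ
        rcases β with l | β
        · rfl
        · exact absurd (hinb β) hβ)
  -- the relation contradicts the independence
  obtain ⟨A', hA'⟩ : ∃ A' : Ix k J → ℚ, ∀ i, A' i = if hi : i ∈ b then (A ⟨i, hi⟩ : ℚ) else 0 :=
    ⟨_, fun _ => rfl⟩
  have hA'0 := hTli A' (fun i hi => by rw [hA', dif_neg hi]) (by
    filter_upwards [hA, he] with t ht het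
    have h1 : (un B (EE B (N t)) : ℝ) * ∑ i, (A' i : ℝ) * zs B e g q p i t = 0 := by
      rw [Finset.mul_sum, ← Finset.sum_subset (Finset.subset_univ b)]
      · rw [← Finset.sum_coe_sort b (fun i => (un B (EE B (N t)) : ℝ) *
          ((A' i : ℝ) * zs B e g q p i t))]
        have h2 : ((∑ i : {β : Ix k J // β ∈ b}, A i * Xs B N e g q p i.1 t : ℤ) : ℝ) = 0 := by
          rw [ht]
          simp
        rw [← h2]
        push_cast
        refine Finset.sum_congr rfl fun i _ => ?_
        rw [Xs_eq B N e g q p i.1 t het, hA', dif_pos i.2]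
        push_cast
        ring
      · intro i _ hi
        rw [hA', dif_neg hi]
        simp
    exact (mul_eq_zero.1 h1).resolve_left (un_pos B _).ne')
  apply hA0
  funext i
  have h1 := congrFun hA'0 i.1
  rw [hA', dif_pos i.2] at h1
  simpa using h1

end Pool.Agent.Q50.SP
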