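import Pool.Agent.Q50.SP.Base

/-!
# Sparse sums are not close to zero

For an irrational algebraic number `ξ`, rational numbers `a i` and exponents `n i ≤ N` the number
`ξ + ∑ a i b ^ (-n i)` is not smaller than `b ^ (-δ N)`, if `N` is large.
-/

set_option autoImplicit false

namespace Pool.Agent.Q50.SP

open Filter Topology Pool.Agent.TH932.Abs Pool.Agent.TH932.Germs
open Pool.Agent.TH796.AL

/-- the field generated by finitely many algebraic numbers -/
lemma exists_field {J : ℕ} (ξ : Fin J → ℝ) (h : ∀ j, IsAlgebraic ℚ (ξ j)) :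
    ∃ F : IntermediateField ℚ ℝ, FiniteDimensional ℚ F ∧ ∀ j, ξ j ∈ F := by
  refine ⟨IntermediateField.adjoin ℚ (Set.range ξ), ?_, fun j =>
    IntermediateField.subset_adjoin ℚ _ ⟨j, rfl⟩⟩
  have : Finite (Set.range ξ) := Set.finite_range ξ
  apply IntermediateField.finiteDimensional_adjoin
  rintro x ⟨j, rfl⟩
  exact (h j).isIntegral

lemma rat_mem (F : IntermediateField ℚ ℝ) (q : ℚ) : (q : ℝ) ∈ F := by
  exact F.algebraMap_mem q

lemma rpow_exp (b : ℕ) (hb : 2 ≤ b) (n : ℕ) : ((b : ℝ)) ^ n = Real.exp (n * Real.log b) := by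
  have hb0 : (0 : ℝ) < b := by positivity
  rw [← Real.rpow_natCast, Real.rpow_def_of_pos hb0]
  ring_nf

/-- the value of the shifted power -/
lemma shift (b : ℕ) (hb : 2 ≤ b) (N n : ℕ) (h : n ≤ N) :
    (((b : ℤ) ^ (N - n) : ℤ) : ℝ) = (b : ℝ) ^ N * ((b : ℝ) ^ n)⁻¹ := by
  have hb0 : (b : ℝ) ≠ 0 := by positivity
  push_cast
  rw [pow_sub₀ _ hb0 h]

lemma tendsto_L (b : ℕ) (hb : 2 ≤ b) (N : ℕ → ℕ) (hN : Tendsto N atTop atTop) :
    Tendsto (fun t => (N t : ℝ) * Real.log b) atTop atTop := by
  have hlb : 0 < Real.log b := Real.log_pos (by exact_mod_cast (by omega : 1 < b))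
  exact (tendsto_natCast_atTop_atTop.comp hN).atTop_mul_const hlb

/-- limits of the quotients of the exponents -/
lemma exps (k : ℕ) (N : ℕ → ℕ) (hN : Tendsto N atTop atTop) (n : ℕ → Fin k → ℕ)
    (hn : ∀ᶠ t in (UU : Filter ℕ), ∀ i, n t i ≤ N t) :
    ∃ ν : Fin k → ℝ, ∀ i, ∀ ε : ℝ, 0 < ε → ∀ᶠ t in (UU : Filter ℕ),
      (ν i - ε) * N t ≤ n t i ∧ (n t i : ℝ) ≤ (ν i + ε) * N t := by
  have h1 : ∀ i, ∃ x : ℝ, Tendsto (fun t => (n t i : ℝ) / N t) (UU : Filter ℕ) (𝓝 x) := by
    intro i
    obtain ⟨x, -, hx⟩ := ulim (fun t => (n t i : ℝ) / N t) 0 1 (by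
      filter_upwards [hn] with t ht
      refine ⟨by positivity, ?_⟩
      rcases Nat.eq_zero_or_pos (N t) with h | h
      · rw [h]; simp
      · rw [div_le_one (by exact_mod_cast h)]
        exact_mod_cast ht i)
    exact ⟨x, hx⟩
  choose ν hν using h1
  refine ⟨ν, fun i ε hε => ?_⟩
  have hpos : ∀ᶠ t in (UU : Filter ℕ), 1 ≤ N t := ev_of_atTop (hN.eventually_ge_atTop 1)
  filter_upwards [near (hν i) ε hε, hpos] with t ht hN1
  have hN0 : (0 : ℝ) < N t := by exact_mod_cast hN1
  rw [le_div_iff₀ hN0, div_le_iff₀ hN0] at ht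
  exact ht

/-- **Sparse sums.** -/
theorem sparse_sum (b : ℕ) (hb : 2 ≤ b) (N : ℕ → ℕ) (hN : Tendsto N atTop atTop) (δ : ℝ)
    (hδ : 0 < δ) (k : ℕ) :
    ∀ (ξ : ℝ) (_ : IsAlgebraic ℚ ξ) (_ : Irrational ξ) (a : Fin k → ℚ) (n : ℕ → Fin k → ℕ)
      (_ : ∀ᶠ t in (UU : Filter ℕ), ∀ i, n t i ≤ N t)
      (_ : ∀ᶠ t in (UU : Filter ℕ), |ξ + ∑ i, (a i : ℝ) * ((b : ℝ) ^ n t i)⁻¹| ≤
        Real.exp (-δ * (N t * Real.log b))), False := by
  have hlb : 0 < Real.log b := Real.log_pos (by exact_mod_cast (by omega : 1 < b))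
  have hbR : (0 : ℝ) < b := by positivity
  induction k with
  | zero =>
    intro ξ halg hirr a n hn h
    have hξ : 0 < |ξ| := abs_pos.2 hirr.ne_zero
    have h1 : Tendsto (fun t => Real.exp (-δ * (N t * Real.log b))) atTop (𝓝 0) := by
      refine Real.tendsto_exp_atBot.comp ?_
      have := (tendsto_L b hb N hN).const_mul_atTop_of_neg (by linarith : -δ < 0)
      exact this
    have h2 := ev_of_atTop (h1.eventually (gt_mem_nhds hξ))
    obtain ⟨t, h3, h4⟩ := (h.and h2).exists
    simp only [Finset.univ_eq_empty, Finset.sum_empty, add_zero] at h3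
    linarith
  | succ k ih =>
    intro ξ halg hirr a n hn h
    obtain ⟨F, hF, hξF⟩ := exists_field (J := 1) (fun _ => ξ) (fun _ => halg)
    have := hF
    obtain ⟨ν, hν⟩ := exps (k + 1) N hN n hn
    obtain ⟨A, hA0, hA⟩ := sub_fin (ι := Option (Fin (k + 1))) b hb
      (fun t => (N t : ℝ) * Real.log b) (tendsto_L b hb N hN) F
      (fun i t => match i with
        | none => (b : ℤ) ^ N t
        | some i => (b : ℤ) ^ (N t - n t i))
      (fun i j => match i, j with
        | none, none => ξ
        | none, some j => a j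
        | some i, none => 0
        | some i, some j => if i = j then 1 else 0)
      (by
        intro i j
        rcases i with _ | i <;> rcases j with _ | j
        · exact hξF 0
        · exact rat_mem F _
        · exact F.zero_mem
        · show (if i = j then (1 : ℝ) else 0) ∈ F
          split_ifs
          · exact F.one_mem
          · exact F.zero_mem)
      (by
        intro c hc
        have h0 : c none = 0 := by
          have h1 := hc none
          rw [Fintype.sum_option] at h1
          simp only [mul_zero, Finset.sum_const_zero, add_zero] at h1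
          exact (mul_eq_zero.1 h1).resolve_right hirr.ne_zero
        intro i
        rcases i with _ | i
        · exact h0
        · have h1 := hc (some i)
          rw [Fintype.sum_option, h0, zero_mul, zero_add] at h1
          simpa using h1)
      (fun i => match i with
        | none => 1
        | some i => 1 - ν i)
      (fun i => match i with
        | none => -1 + δ
        | some i => -(1 - ν i))
      (by
        intro i ε hε
        rcases i with _ | i
        · filter_upwards with t
          refine ⟨N t, dvd_rfl, ?_⟩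
          have : (0 : ℝ) ≤ N t * Real.log b := by positivity
          show (1 - ε) * (N t * Real.log b) ≤ N t * Real.log b
          nlinarith
        · filter_upwards [hν i ε hε, hn] with t ht htn
          refine ⟨N t - n t i, dvd_rfl, ?_⟩
          rw [Nat.cast_sub (htn i)]
          show (1 - ν i - ε) * (N t * Real.log b) ≤ (N t - n t i) * Real.log b
          nlinarith [mul_le_mul_of_nonneg_right ht.2 hlb.le])
      (by
        intro i ε hε
        rcases i with _ | i
        · filter_upwards [h, hn] with t ht htn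
          rw [Fintype.sum_option]
          show |ξ * (((b : ℤ) ^ N t : ℤ) : ℝ) + ∑ i, (a i : ℝ) * (((b : ℤ) ^ (N t - n t i) : ℤ) : ℝ)|
            ≤ _
          have e1 : ξ * (((b : ℤ) ^ N t : ℤ) : ℝ) +
              ∑ i, (a i : ℝ) * (((b : ℤ) ^ (N t - n t i) : ℤ) : ℝ) =
              (b : ℝ) ^ N t * (ξ + ∑ i, (a i : ℝ) * ((b : ℝ) ^ n t i)⁻¹) := by
            rw [mul_add, Finset.mul_sum]
            congr 1
            · push_cast; ring
            · refine Finset.sum_congr rfl fun i _ => ?_
              rw [shift b hb _ _ (htn i)]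
              ring
          rw [e1, abs_mul, abs_of_pos (by positivity), rpow_exp b hb]
          calc Real.exp (N t * Real.log b) * |ξ + ∑ i, (a i : ℝ) * ((b : ℝ) ^ n t i)⁻¹| ≤
              Real.exp (N t * Real.log b) * Real.exp (-δ * (N t * Real.log b)) :=
                mul_le_mul_of_nonneg_left ht (Real.exp_pos _).le
            _ ≤ _ := by
              rw [← Real.exp_add]
              apply Real.exp_le_exp.2
              have : (0 : ℝ) ≤ N t * Real.log b := by positivity
              show _ ≤ -(-1 + δ - ε) * (N t * Real.log b)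
              nlinarith
        · filter_upwards [hν i ε hε, hn] with t ht htn
          rw [Fintype.sum_option]
          show |(0 : ℝ) * (((b : ℤ) ^ N t : ℤ) : ℝ) +
            ∑ j, (if i = j then (1 : ℝ) else 0) * (((b : ℤ) ^ (N t - n t j) : ℤ) : ℝ)| ≤ _
          have e1 : (0 : ℝ) * (((b : ℤ) ^ N t : ℤ) : ℝ) +
            ∑ j, (if i = j then (1 : ℝ) else 0) * (((b : ℤ) ^ (N t - n t j) : ℤ) : ℝ) =
              (b : ℝ) ^ (N t - n t i) := by
            simp
          rw [e1, abs_of_pos (by positivity), rpow_exp b hb, Nat.cast_sub (htn i)]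
          apply Real.exp_le_exp.2
          show _ ≤ -(-(1 - ν i) - ε) * (N t * Real.log b)
          nlinarith [mul_le_mul_of_nonneg_right ht.1 hlb.le])
      (by
        rw [Fintype.sum_option, Fintype.sum_option]
        simp only [Finset.sum_neg_distrib]
        linarith)
    -- elimination
    have hrel : ∀ᶠ t in (UU : Filter ℕ), (A none : ℝ) +
        ∑ i, (A (some i) : ℝ) * ((b : ℝ) ^ n t i)⁻¹ = 0 := by
      filter_upwards [hA, hn] with t ht htn
      rw [Fintype.sum_option] at ht
      have h1 : ((A none : ℤ) : ℝ) * (((b : ℤ) ^ N t : ℤ) : ℝ) +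
          ∑ i, ((A (some i) : ℤ) : ℝ) * (((b : ℤ) ^ (N t - n t i) : ℤ) : ℝ) = 0 := by
        exact_mod_cast ht
      have e1 : ((A none : ℤ) : ℝ) * (((b : ℤ) ^ N t : ℤ) : ℝ) +
          ∑ i, ((A (some i) : ℤ) : ℝ) * (((b : ℤ) ^ (N t - n t i) : ℤ) : ℝ) =
          (b : ℝ) ^ N t * ((A none : ℝ) + ∑ i, (A (some i) : ℝ) * ((b : ℝ) ^ n t i)⁻¹) := by
        rw [mul_add, Finset.mul_sum]
        congr 1
        · push_cast; ring
        · refine Finset.sum_congr rfl fun i _ => ?_
          rw [shift b hb _ _ (htn i)]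
          ring
      rw [e1] at h1
      exact (mul_eq_zero.1 h1).resolve_left (by positivity)
    obtain ⟨j, hj⟩ : ∃ j, A (some j) ≠ 0 := by
      by_contra hcon
      push Not at hcon
      obtain ⟨t, ht⟩ := hrel.exists
      simp only [hcon, Int.cast_zero, zero_mul, Finset.sum_const_zero, add_zero] at ht
      apply hA0
      funext i
      rcases i with _ | i
      · exact_mod_cast ht
      · exact hcon i
    have hjR : (A (some j) : ℝ) ≠ 0 := by exact_mod_cast hj
    have hjQ : (A (some j) : ℚ) ≠ 0 := by exact_mod_cast hj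
    refine ih (ξ + ((-(a j * A none / A (some j)) : ℚ) : ℝ)) ?_ ?_
      (fun i => a (j.succAbove i) - a j * A (some (j.succAbove i)) / A (some j))
      (fun t i => n t (j.succAbove i)) ?_ ?_
    · exact halg.add (isAlgebraic_algebraMap _)
    · exact hirr.add_ratCast _
    · filter_upwards [hn] with t ht i
      exact ht _
    · filter_upwards [h, hrel] with t ht hr
      have e1 : ξ + ((-(a j * A none / A (some j)) : ℚ) : ℝ) +
          ∑ i : Fin k, ((a (j.succAbove i) - a j * A (some (j.succAbove i)) / A (some j) : ℚ) : ℝ) *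
            ((b : ℝ) ^ n t (j.succAbove i))⁻¹ = ξ + ∑ i, (a i : ℝ) * ((b : ℝ) ^ n t i)⁻¹ := by
        rw [Fin.sum_univ_succAbove _ j] at hr ⊢
        have h2 : ((b : ℝ) ^ n t j)⁻¹ = -((A none : ℝ) + ∑ i : Fin k,
            (A (some (j.succAbove i)) : ℝ) * ((b : ℝ) ^ n t (j.succAbove i))⁻¹) / A (some j) := by
          rw [eq_div_iff hjR]
          linarith
        rw [h2]
        push_cast
        simp only [sub_mul, Finset.sum_sub_distrib]
        have h3 : ∑ x : Fin k, (a j : ℝ) * A (some (j.succAbove x)) / A (some j) *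
            ((b : ℝ) ^ n t (j.succAbove x))⁻¹ = a j / A (some j) * ∑ i : Fin k,
            (A (some (j.succAbove i)) : ℝ) * ((b : ℝ) ^ n t (j.succAbove i))⁻¹ := by
          rw [Finset.mul_sum]
          refine Finset.sum_congr rfl fun i _ => ?_
          ring
        rw [h3]
        field_simp
        ring
      rw [e1]
      exact ht

end Pool.Agent.Q50.SP
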