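import Pool.Agent.Q50.SP.Joint

/-!
# The theorem of Roth and Ridout for sparse perturbations of algebraic numbers
-/

set_option autoImplicit false

namespace Pool.Agent.Q50.SP

open Filter Topology Pool.Agent.TH932.Abs Pool.Agent.TH932.Germs
open Pool.Agent.TH796.AL

/-- **Simultaneous approximation of sparse perturbations of algebraic numbers.** -/
theorem sparse_approx (b : ℕ) (hb : 2 ≤ b) (J : ℕ) (hJ : 1 ≤ J) (ξ : Fin J → ℝ)
    (halg : ∀ j, IsAlgebraic ℚ (ξ j)) (hind : Indep ξ) (k C : ℕ) (δ : ℝ) (hδ : 0 < δ) :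
    ∃ N₀ : ℕ, ∀ N : ℕ, N₀ ≤ N → ∀ n : Fin k → ℕ, (∀ i, n i ≤ N) → ∀ a : Fin k → Fin J → ℤ,
      (∀ i j, |a i j| ≤ C) → ∀ q : ℕ, 1 ≤ q → q ≤ b ^ N → ∀ p : Fin J → ℤ,
      ∃ j, Real.exp (-(((k : ℝ) + 1) / J * Real.log q) - δ * (N * Real.log b)) <
        |(q : ℝ) * (ξ j + ∑ i, (a i j : ℝ) * ((b : ℝ) ^ n i)⁻¹) - p j| := by
  by_contra hcon
  push Not at hcon
  choose N hN n hn a ha q hq1 hq2 p hp using hcon
  have hNt : Tendsto N atTop atTop := tendsto_atTop_mono hN tendsto_id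
  have hfin : (Set.univ.pi fun _ : Fin k => Set.univ.pi fun _ : Fin J =>
      Set.Icc (-(C : ℤ)) C).Finite :=
    Set.Finite.pi fun _ => Set.Finite.pi fun _ => Set.finite_Icc _ _
  have hex : ∀ᶠ t in (UU : Filter ℕ), ∃ A ∈ (Set.univ.pi fun _ : Fin k =>
      Set.univ.pi fun _ : Fin J => Set.Icc (-(C : ℤ)) C), a t = A := by
    filter_upwards with t
    refine ⟨a t, ?_, rfl⟩
    intro i _ j _
    exact abs_le.1 (ha t i j)
  obtain ⟨A, -, hA⟩ := (Ultrafilter.eventually_exists_mem_iff hfin).1 hex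
  refine joint_seq b hb J hJ N hNt δ hδ q p ?_ k ξ halg hind (fun i j => A i j) n ?_ ?_
  · filter_upwards with t
    exact ⟨hq1 t, hq2 t⟩
  · filter_upwards with t
    exact hn t
  · filter_upwards [hA] with t ht j
    have := hp t j
    rw [ht] at this
    simpa using this

end Pool.Agent.Q50.SP
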